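import Pool.Agent.N155.Q.Low

/-! Brody's reparametrization with a weight. -/

set_option autoImplicit false

open Filter Topology Metric Set

namespace Pool.Agent.N155.QD

open Pool.Agent.Y190.OP

variable {N : ℕ}

/-- Brody's reparametrization with a weight -/
theorem wbrody {S : Set (Mat N)} {Ψ : ℂ → Mat N} {M : ℝ} (hM : 0 < M) {w : Mat N → ℝ}
    (hw0 : ∀ A, 0 ≤ w A) (hΨ : HolP (ball 0 1) Ψ) (hwc : ContinuousOn (fun z => w (Ψ z)) (ball 0 1))
    (hS : ∀ z ∈ ball (0 : ℂ) 1, Ψ z ∈ S) (hbig : 2 * M < ‖fderiv ℝ Ψ 0‖ * w (Ψ 0)) :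
    ∃ h : ℂ → Mat N, HolP (ball 0 M) h ∧ (∀ z ∈ ball (0 : ℂ) M, h z ∈ S) ∧
      (∀ z ∈ ball (0 : ℂ) (M / 2), ‖fderiv ℝ h z‖ * w (h z) ≤ 2) ∧
      ‖fderiv ℝ h 0‖ * w (h 0) = 1 := by
  set g : ℂ → Mat N := fun z => Ψ (aff 0 (1 / 2) z) with hg
  have hsub : ball (0 : ℂ) 2 ⊆ aff 0 (1 / 2) ⁻¹' ball (0 : ℂ) 1 := by
    intro z hz
    rw [mem_preimage, mem_ball_zero_iff]
    rw [mem_ball_zero_iff] at hz
    unfold aff
    rw [zero_add, norm_mul, Complex.norm_real, Real.norm_of_nonneg (by norm_num)]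
    linarith
  have hgH : HolP (ball 0 2) g := (hΨ.aff 0 (1 / 2)).mono hsub
  have hgS : ∀ z ∈ ball (0 : ℂ) 2, g z ∈ S := fun z hz => hS _ (hsub hz)
  have hgw : ∀ z ∈ ball (0 : ℂ) 2, ContinuousAt (fun z => w (g z)) z := fun z hz =>
    ContinuousAt.comp (f := aff 0 (1 / 2)) ((hwc _ (hsub hz)).continuousAt
      (isOpen_ball.mem_nhds (hsub hz))) (aff_diff 0 (1 / 2)).continuous.continuousAt
  have h1z : aff 0 (1 / 2) 0 = 0 := by simp [aff]
  have hg0 : ‖fderiv ℝ g 0‖ = 1 / 2 * ‖fderiv ℝ Ψ 0‖ := by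
    have h2 := norm_fderiv_aff (Ψ := Ψ) (a := 0) (ρ := 1 / 2) (by norm_num) (z := 0) (by
      rw [h1z]; exact hΨ.differentiableAt (mem_ball_self one_pos))
    rw [h1z] at h2
    exact h2
  have hg00 : g 0 = Ψ 0 := by rw [hg]; simp only [h1z]
  have h12 : closedBall (0 : ℂ) 1 ⊆ ball 0 2 := closedBall_subset_ball (by norm_num)
  have hcont : ContinuousOn (fun z => (1 - ‖z‖) * (‖fderiv ℝ g z‖ * w (g z)))
      (closedBall (0 : ℂ) 1) := by
    intro z hz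
    apply ContinuousAt.continuousWithinAt
    exact (continuousAt_const.sub continuousAt_id.norm).mul
      ((hgH.continuousAt_fderiv (h12 hz)).norm.mul (hgw z (h12 hz)))
  obtain ⟨z0, hz0, hmax⟩ := (isCompact_closedBall (0 : ℂ) 1).exists_isMaxOn
    ⟨0, mem_closedBall_self zero_le_one⟩ hcont
  have hmax' : ∀ z ∈ closedBall (0 : ℂ) 1, (1 - ‖z‖) * (‖fderiv ℝ g z‖ * w (g z)) ≤
      (1 - ‖z0‖) * (‖fderiv ℝ g z0‖ * w (g z0)) := fun z hz => hmax hz
  set D := ‖fderiv ℝ g z0‖ * w (g z0) with hD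
  have h0 : M < (1 - ‖z0‖) * D := by
    have := hmax' 0 (mem_closedBall_self zero_le_one)
    rw [norm_zero, sub_zero, one_mul, hg0, hg00] at this
    linarith
  have hz0n : ‖z0‖ ≤ 1 := mem_closedBall_zero_iff.1 hz0
  have hDnn : 0 ≤ D := mul_nonneg (norm_nonneg _) (hw0 _)
  have hz0lt : 0 < 1 - ‖z0‖ := by
    by_contra hcon
    push Not at hcon
    have := mul_nonpos_of_nonpos_of_nonneg hcon hDnn
    linarith
  have hDpos : 0 < D := by
    by_contra hcon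
    push Not at hcon
    have : D = 0 := le_antisymm hcon hDnn
    rw [this] at h0
    linarith
  set ρ := 1 / D with hρ
  have hρpos : 0 < ρ := by positivity
  have hρD : ρ * D = 1 := by rw [hρ]; field_simp
  have hρM : ρ * M < 1 - ‖z0‖ := by
    have := mul_lt_mul_of_pos_left h0 hρpos
    calc ρ * M < ρ * ((1 - ‖z0‖) * D) := this
      _ = (1 - ‖z0‖) * (ρ * D) := by ring
      _ = 1 - ‖z0‖ := by rw [hρD, mul_one]
  have hnorm : ∀ z : ℂ, ‖aff z0 ρ z‖ ≤ ‖z0‖ + ρ * ‖z‖ := by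
    intro z
    unfold aff
    refine (norm_add_le _ _).trans ?_
    rw [norm_mul, Complex.norm_real, Real.norm_of_nonneg hρpos.le]
  have hball : ball (0 : ℂ) M ⊆ aff z0 ρ ⁻¹' ball (0 : ℂ) 2 := by
    intro z hz
    rw [mem_ball_zero_iff] at hz
    rw [mem_preimage, mem_ball_zero_iff]
    have := hnorm z
    have h1 : ρ * ‖z‖ < ρ * M := mul_lt_mul_of_pos_left hz hρpos
    linarith
  have hderiv : ∀ z ∈ ball (0 : ℂ) M, ‖fderiv ℝ (fun z => g (aff z0 ρ z)) z‖ =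
      ρ * ‖fderiv ℝ g (aff z0 ρ z)‖ := fun z hz =>
    norm_fderiv_aff hρpos.le (hgH.differentiableAt (hball hz))
  refine ⟨fun z => g (aff z0 ρ z), (hgH.aff z0 ρ).mono hball, fun z hz => hgS _ (hball hz),
    fun z hz => ?_, ?_⟩
  · have hz' : ‖z‖ < M / 2 := mem_ball_zero_iff.1 hz
    rw [hderiv z (ball_subset_ball (by linarith) hz)]
    have h1 := hnorm z
    have h2 : ρ * ‖z‖ < ρ * (M / 2) := mul_lt_mul_of_pos_left hz' hρpos
    have h3 : (1 - ‖z0‖) / 2 ≤ 1 - ‖aff z0 ρ z‖ := by linarith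
    have h4 := hmax' (aff z0 ρ z) (mem_closedBall_zero_iff.2 (by linarith))
    set Y := ‖fderiv ℝ g (aff z0 ρ z)‖ * w (g (aff z0 ρ z)) with hY
    have hYn : 0 ≤ Y := mul_nonneg (norm_nonneg _) (hw0 _)
    have h5 : (1 - ‖z0‖) / 2 * Y ≤ (1 - ‖z0‖) * D :=
      (mul_le_mul_of_nonneg_right h3 hYn).trans h4
    have h6 : Y ≤ 2 * D := by
      by_contra hcon
      push Not at hcon
      have := mul_lt_mul_of_pos_left hcon (half_pos hz0lt)
      linarith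
    calc ρ * ‖fderiv ℝ g (aff z0 ρ z)‖ * w (g (aff z0 ρ z)) = ρ * Y := by rw [hY]; ring
      _ ≤ ρ * (2 * D) := mul_le_mul_of_nonneg_left h6 hρpos.le
      _ = 2 * (ρ * D) := by ring
      _ = 2 := by rw [hρD, mul_one]
  · rw [hderiv 0 (mem_ball_self hM)]
    have : aff z0 ρ 0 = z0 := by simp [aff]
    simp only [this]
    rw [mul_assoc]
    exact hρD

end Pool.Agent.N155.QD
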