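import Pool.Agent.N155.Q.Hln

/-! A chain of discs. -/

set_option autoImplicit false

open Filter Topology Metric Set MvPolynomial

namespace Pool.Agent.N155.QD

open Pool.Agent.Y190.OP Pool.Agent.W602.GT Pool.Agent.TH143.GT Pool.Agent.N155
  Pool.Agent.N155.BB Pool.Agent.N155.GD

variable {N : ℕ} {T : Set (Mat N)} {τ : Type} {Hv : τ → (ℂ → Mat N) → ℂ → ℂ} {k : ℕ}
  {c C C1 : ℝ} {p : Mat N → ℝ}

theorem chn (hT : Ctl T Hv k c C) (hc : 0 < c) (hC : 0 < C) (hk : 0 < k) (hp : Siz p C1) :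
    ∃ ε0 : ℝ, 0 < ε0 ∧ ε0 ≤ 1 ∧ ∀ j : ℕ, ∃ B : ℝ, 0 < B ∧ ∀ (φ : ℂ → Mat N) (L : ℝ), 0 < L →
      HolP (ball 0 (j + 2)) φ → (∀ z ∈ ball (0 : ℂ) (j + 2), φ z ∈ T) →
      Gau p L ε0 (ball 0 (j + 2)) φ → 0 < p (φ 0) →
      ∀ z ∈ closedBall (0 : ℂ) (1 / 4 + j / 8), ‖fderiv ℝ φ z‖ ^ 2 ≤
        B * (L - Real.log (p (φ 0))) := by
  obtain ⟨ε0, hε0, hε01, hH⟩ := hln hT hc hC hk hp
  have hC1 := hp.pos
  refine ⟨ε0, hε0, hε01, fun j => ?_⟩
  induction j with
  | zero =>
    refine ⟨16, by norm_num, fun φ L hL hφ hφT hg hp0 z hz => ?_⟩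
    have hs : ball (0 : ℂ) 1 ⊆ ball 0 ((0 : ℕ) + 2) := ball_subset_ball (by norm_num)
    refine hH φ L hL.le (hφ.mono hs) (fun z hz => hφT z (hs hz)) (fun z hz => hg z (hs hz)) hp0 z ?_
    simpa using hz
  | succ j ih =>
    obtain ⟨B, hB, ih⟩ := ih
    have hj : (0 : ℝ) ≤ j := Nat.cast_nonneg j
    set ρ : ℝ := 1 / 4 + j / 8 with hρ
    have hρ4 : 1 / 4 ≤ ρ := by rw [hρ]; linarith [show (0 : ℝ) ≤ j / 8 by positivity]
    set g : ℝ := Real.log ((ρ - 1 / 64) / (ρ - 1 / 16)) / Real.log (2 * (ρ - 1 / 64) / (1 / 32))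
      with hg
    have hgp : 0 < g := by
      apply div_pos
      · apply Real.log_pos
        rw [lt_div_iff₀ (by linarith)]
        linarith
      · apply Real.log_pos
        rw [lt_div_iff₀ (by norm_num)]
        linarith
    set e : ℝ := Real.log (ρ ^ 2 / (ρ ^ 2 - (ρ - 1 / 64) ^ 2)) with he
    have hden : 0 < ρ ^ 2 - (ρ - 1 / 64) ^ 2 := by nlinarith
    have hep : 0 ≤ e := Real.log_nonneg (by
      rw [le_div_iff₀ hden]
      nlinarith [sq_nonneg (ρ - 1 / 64)])
    set D : ℝ := (2 + 2 * C1 * B * ρ ^ 2 * e) / g with hD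
    have hDp : 0 < D := by positivity
    refine ⟨B + 16 * D, by positivity, fun φ L hL hφ hφT hga hp0 z hz => ?_⟩
    have hs : ball (0 : ℂ) (j + 2) ⊆ ball 0 (((j + 1 : ℕ) : ℝ) + 2) :=
      ball_subset_ball (by push_cast; linarith)
    have ih' := ih φ L hL (hφ.mono hs) (fun z hz => hφT z (hs hz)) (fun z hz => hga z (hs hz)) hp0
    set V : ℝ := L - Real.log (p (φ 0)) with hV
    have hVp : 0 < V := by
      have := Real.log_nonpos (hp.nonneg _) (hp.le_one (φ 0))
      rw [hV]
      linarith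
    rw [mem_closedBall_zero_iff] at hz
    push_cast at hz
    rcases le_or_gt ‖z‖ ρ with hzρ | hzρ
    · refine (ih' z (mem_closedBall_zero_iff.2 hzρ)).trans ?_
      exact mul_le_mul_of_nonneg_right (by linarith) hVp.le
    · have hzp : 0 < ‖z‖ := by linarith
      set a : ℂ := (((ρ - 1 / 16) / ‖z‖ : ℝ) : ℂ) * z with ha
      have han : ‖a‖ = ρ - 1 / 16 := by
        rw [ha, norm_mul, Complex.norm_real, Real.norm_of_nonneg (div_nonneg (by linarith) hzp.le),
          div_mul_cancel₀ _ hzp.ne']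
      have hza : ‖z - a‖ ≤ 3 / 16 := by
        have h1 : z - a = ((1 - (ρ - 1 / 16) / ‖z‖ : ℝ) : ℂ) * z := by
          rw [ha]
          push_cast
          ring
        have h2 : 0 ≤ 1 - (ρ - 1 / 16) / ‖z‖ := by
          rw [sub_nonneg, div_le_one hzp]
          linarith
        rw [h1, norm_mul, Complex.norm_real, Real.norm_of_nonneg h2, sub_mul,
          div_mul_cancel₀ _ hzp.ne', one_mul]
        rw [hρ]
        linarith
      have hbig : ∃ a' ∈ closedBall a (1 / 32), 0 < p (φ a') ∧ L - Real.log (p (φ a')) ≤ D * V := by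
        by_contra hcon
        push Not at hcon
        have huA : ∀ w ∈ closedBall a (1 / 32), p (φ w) ≤ Real.exp (L - D * V) := by
          intro w hw
          rcases (hp.nonneg (φ w)).eq_or_lt with h0 | h0
          · rw [← h0]
            exact (Real.exp_pos _).le
          · have h1 := hcon w hw h0
            calc p (φ w) = Real.exp (Real.log (p (φ w))) := (Real.exp_log h0).symm
              _ ≤ Real.exp (L - D * V) := Real.exp_le_exp.2 (by linarith)
        have hsub : closedBall (0 : ℂ) (ρ - 1 / 64) ⊆ ball 0 (((j + 1 : ℕ) : ℝ) + 2) :=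
          closedBall_subset_ball (by rw [hρ]; push_cast; linarith)
        have hhar := har (u := fun z => p (φ z)) (t := ρ - 1 / 64) (R := ρ) (h := 1 / 32) (L := L)
          (A := D * V) (B := 2 * C1 * B * V * ρ ^ 2) (z1 := a) (by linarith) (by linarith)
          (by norm_num) (by rw [han]; linarith) (by rw [han]; linarith) (by positivity)
          (by positivity) (fun z => hp.nonneg _)
          (fun w hw => (hp.cont _ φ hφ w (hsub hw)).continuousWithinAt)
          (fun w _ => (hp.le_one _).trans (Real.one_le_exp hL.le)) huA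
          (fun z0 hz0 hu0 => by
            have hz0' := ball_subset_closedBall hz0
            refine ⟨C1 * ‖fderiv ℝ φ z0‖ ^ 2, ?_, hp.cp _ φ hφ z0 (hsub hz0') hu0⟩
            rw [mem_ball_zero_iff] at hz0
            have h0n := norm_nonneg z0
            have h1 := ih' z0 (mem_closedBall_zero_iff.2 (by linarith))
            have h2 : 0 < ρ ^ 2 - ‖z0‖ ^ 2 := by nlinarith
            have h3 : (ρ ^ 2 - ‖z0‖ ^ 2) ^ 2 ≤ ρ ^ 2 * ρ ^ 2 := by
              rw [← sq (ρ ^ 2)]
              exact pow_le_pow_left₀ h2.le (by nlinarith) 2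
            have h4 : C1 * ‖fderiv ℝ φ z0‖ ^ 2 ≤ C1 * (B * V) := mul_le_mul_of_nonneg_left h1 hC1.le
            have h5 : 0 < C1 * (B * V) := by positivity
            rw [← mul_div_assoc, lt_div_iff₀ (by positivity)]
            have hρ2 : 0 < ρ ^ 2 * ρ ^ 2 := by positivity
            calc C1 * ‖fderiv ℝ φ z0‖ ^ 2 * (ρ ^ 2 - ‖z0‖ ^ 2) ^ 2 ≤
                  C1 * (B * V) * (ρ ^ 2 * ρ ^ 2) :=
                  mul_le_mul h4 h3 (by positivity) h5.le
              _ < 2 * C1 * B * V * ρ ^ 2 * ρ ^ 2 := by nlinarith)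
        have h1 := Real.log_le_log hp0 hhar
        rw [Real.log_exp, han, ← hg, ← he] at h1
        have h2 : D * V * g = V * (2 + 2 * C1 * B * ρ ^ 2 * e) := by
          rw [hD]
          field_simp
        rw [h2] at h1
        have h3 : V * (2 + 2 * C1 * B * ρ ^ 2 * e) - 2 * C1 * B * V * ρ ^ 2 * e = 2 * V := by ring
        rw [h3] at h1
        linarith
      obtain ⟨a', ha', hpa, hVa⟩ := hbig
      have ha'n : ‖a' - a‖ ≤ 1 / 32 := by
        rw [← dist_eq_norm]
        exact ha'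
      have ha'2 : ‖a'‖ ≤ ρ - 1 / 32 := by
        have := norm_add_le (a' - a) a
        rw [sub_add_cancel] at this
        linarith
      have hb : ∀ w ∈ ball (0 : ℂ) 1, a' + w ∈ ball (0 : ℂ) (((j + 1 : ℕ) : ℝ) + 2) := by
        intro w hw
        rw [mem_ball_zero_iff] at hw ⊢
        have := norm_add_le a' w
        rw [hρ] at ha'2
        push_cast
        linarith
      have h1 := hH (fun w => φ (a' + w)) L hL.le (holP_comp hφ (g := fun z => a' + z) (by fun_prop) hb)
        (fun w hw => hφT _ (hb w hw)) (fun w hw hw2 => by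
          rw [fderiv_shift]
          exact hga _ (hb w hw) hw2) (by simpa using hpa) (z - a') (by
          rw [mem_closedBall_zero_iff]
          have := norm_sub_le (z - a) (a' - a)
          rw [sub_sub_sub_cancel_right] at this
          linarith)
      rw [fderiv_shift, add_sub_cancel, add_zero] at h1
      have h2 : 0 ≤ B * V := by positivity
      calc ‖fderiv ℝ φ z‖ ^ 2 ≤ 16 * (L - Real.log (p (φ a'))) := h1
        _ ≤ 16 * (D * V) := by linarith
        _ ≤ (B + 16 * D) * V := by linarith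

end Pool.Agent.N155.QD
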