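import Pool.Agent.N155.Q.Gw

/-! The contraction of the distance to a leaf, with arbitrary holomorphic weights. -/

set_option autoImplicit false

open Filter Topology Metric Set MvPolynomial

namespace Pool.Agent.N155.QD

open Pool.Agent.Y190.OP Pool.Agent.W602.GT Pool.Agent.TH143.GT Pool.Agent.N155
  Pool.Agent.N155.BB Pool.Agent.N155.GD

variable {N : ℕ} {T Z : Set (Mat N)} {κ : Type}
  {ω : κ → (Fin N → ℂ) → (Fin N → ℂ) → (Fin N → ℂ) → ℂ}
  {c0 : ℝ} {𝒞 : (ℂ → Mat N) → Prop} {𝒟 : ℝ → (ℂ → Mat N) → Prop} {r c1 : ℝ}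

/-- **Contraction.** -/
theorem contr_e (hG : GW T Z ω) (hZ : ∀ φ, 𝒞 φ → ∃ z, φ z ∉ Z) (hd : Dcl T c0 𝒞 𝒟)
    (hi : Inj r c1 𝒞) (hr : 0 < r) (hc1 : 0 < c1) {θ : ℝ} (hθ : 0 < θ) :
    ∃ ρ δ : ℝ, 0 < ρ ∧ 0 < δ ∧ ∀ P Q, 𝒞 Q → 𝒟 (ρ + 1) P →
      (∀ z ∈ closedBall (0 : ℂ) ρ, ‖P z - Q z‖ ≤ δ) →
      ∀ W : ℂ → ℂ, DifferentiableOn ℂ W (ball 0 (ρ + 1)) → W 0 ≠ 0 →
      ∃ z ∈ closedBall (0 : ℂ) ρ, EN r P Q 0 0 * ‖W 0‖ ≤ θ * (EN r P Q z z * ‖W z‖) := by
  classical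
  have h : Cls T c0 𝒞 := hd.cls
  by_contra hcon
  push Not at hcon
  have hseq : ∀ m : ℕ, ∃ (P Q : ℂ → Mat N) (W : ℂ → ℂ), 𝒞 Q ∧ 𝒟 (m + 1 + 1) P ∧
      (∀ z ∈ closedBall (0 : ℂ) (m + 1), ‖P z - Q z‖ ≤ 1 / (m + 1 : ℝ)) ∧
      DifferentiableOn ℂ W (ball 0 (m + 1 + 1)) ∧ W 0 ≠ 0 ∧
      ∀ z ∈ closedBall (0 : ℂ) (m + 1), θ * (EN r P Q z z * ‖W z‖) < EN r P Q 0 0 * ‖W 0‖ := by
    intro m
    obtain ⟨P, Q, h1, h2, h3, W, h4, h5, h6⟩ := hcon (m + 1) (1 / (m + 1)) (by positivity)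
      (by positivity)
    exact ⟨P, Q, W, h1, h2, h3, h4, h5, h6⟩
  choose P Q W hQ hP hcl hW hW0 hex using hseq
  set 𝓤 : Ultrafilter ℕ := hyperfilter ℕ with h𝓤
  have hzero : Tendsto (fun m : ℕ => 1 / (m + 1 : ℝ)) 𝓤 (𝓝 0) := hyp_inv
  choose v hv1 hv2 using fun (m : ℕ) (z : ℂ) =>
    EN_spec (P := P m) (Q := Q m) hr.le (h.cont (hQ m)) z z
  set e : ℕ → ℝ := fun m => EN r (P m) (Q m) 0 0 with he
  have hbig : ∀ L : ℝ, ∀ᶠ m : ℕ in (𝓤 : Filter ℕ), ∀ z ∈ closedBall (0 : ℂ) L,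
      z ∈ closedBall (0 : ℂ) (m + 1 : ℝ) := by
    intro L
    filter_upwards [hyp_ge L] with m hm z hz
    rw [mem_closedBall_zero_iff] at hz ⊢
    linarith
  have hENle : ∀ m : ℕ, ∀ z ∈ closedBall (0 : ℂ) (m + 1 : ℝ),
      EN r (P m) (Q m) z z ≤ 1 / (m + 1 : ℝ) := fun m z hz =>
    (EN_le (w := z) (by rw [sub_self, norm_zero]; exact hr.le)).trans (hcl m z hz)
  have hvg : ∀ m : ℕ, ∀ z ∈ closedBall (0 : ℂ) (m + 1 : ℝ),
      c1 * ‖v m z - z‖ ≤ 2 * (1 / (m + 1 : ℝ)) := by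
    intro m z hz
    have h1 := impd0 hi (hQ m) (z := z) (v := v m z) (v' := z)
      ((hv2 m z).symm.le.trans (hENle m z hz)) (hcl m z hz) ((hv1 m z).trans (by linarith))
    linarith
  have hepos : ∀ m, 0 < e m := by
    intro m
    have h1 := hex m 0 (mem_closedBall_self (by positivity))
    by_contra hcon
    have h2 : EN r (P m) (Q m) 0 0 = 0 := le_antisymm (not_lt.1 hcon) (EN_nonneg _ _)
    rw [h2, zero_mul, mul_zero] at h1
    exact lt_irrefl _ h1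
  have hW0p : ∀ m, 0 < ‖W m 0‖ := fun m => norm_pos_iff.2 (hW0 m)
  -- the limits of the curves
  obtain ⟨χ, hχ, hcP⟩ := hd.lim 𝓤 _ P hP (Filter.tendsto_atTop.2 fun b => by
    filter_upwards [hyp_ge b] with m hm
    linarith)
  obtain ⟨χ2, hχ2, hcQ⟩ := h.lim 𝓤 _ hQ
  have hχχ : χ2 = χ := by
    funext z
    have h1 : Tendsto (fun m => ‖P m z - Q m z‖) 𝓤 (𝓝 ‖χ z - χ2 z‖) :=
      ((hcP.pointwise (mem_univ z)).sub (hcQ.pointwise (mem_univ z))).norm
    have h2 : ‖χ z - χ2 z‖ ≤ 0 := by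
      refine le_of_tendsto_of_tendsto h1 hzero ?_
      filter_upwards [hbig ‖z‖] with m hm
      exact hcl m z (hm z (mem_closedBall_zero_iff.2 le_rfl))
    exact (sub_eq_zero.1 (norm_eq_zero.1 (le_antisymm h2 (norm_nonneg _)))).symm
  rw [hχχ] at hcQ
  have hpr : RGe T 𝓤 χ P Q (fun m z => v m z - z)
      (fun m z => ((1 / e m : ℝ) : ℂ) * (W m z / W m 0)) 2 (1 / θ) := by
    refine ⟨fun L => ?_, fun L => ?_, fun m => h.hol _ (hQ m), fun m z => h.mem _ (hQ m) _,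
      h.hol _ hχ, h.mem _ hχ, h.im hχ, h.bd _ hχ, fun m => h.bd _ (hQ m), hcP, hcQ, ?_,
      fun L => ?_, fun L => ?_⟩
    · filter_upwards [hyp_ge L] with m hm
      exact (hd.hol _ _ (hP m)).mono (ball_subset_ball (by linarith))
    · filter_upwards [hyp_ge L] with m hm z hz
      exact hd.mem _ _ (hP m) z (ball_subset_ball (by linarith) hz)
    · intro z _
      rw [Metric.tendsto_nhds]
      intro ε hε
      have h1 : ∀ᶠ m : ℕ in (𝓤 : Filter ℕ), 2 * (1 / (m + 1 : ℝ)) < c1 * ε := by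
        have := hzero.const_mul 2
        rw [mul_zero] at this
        exact this.eventually_lt_const (by positivity)
      rw [eventually_prod_iff]
      refine ⟨_, h1.and (hbig (‖z‖ + 1)), fun w => ‖w - z‖ < 1, ?_, ?_⟩
      · have : ∀ᶠ w in 𝓝 z, w ∈ ball z 1 := ball_mem_nhds z one_pos
        filter_upwards [this] with w hw
        rwa [mem_ball, dist_eq_norm] at hw
      · rintro m ⟨k1, k2⟩ w hw
        rw [dist_zero_right]
        have k3 := hvg m w (k2 w (by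
          rw [mem_closedBall_zero_iff]
          have := norm_add_le (w - z) z
          rw [sub_add_cancel] at this
          linarith))
        exact lt_of_mul_lt_mul_left (k3.trans_lt k1) hc1.le
    · filter_upwards [hyp_ge L] with m hm
      have h1 := (hW m).mono (ball_subset_ball (show L ≤ (m : ℝ) + 1 + 1 by linarith))
      exact (h1.div_const _).const_mul _
    · filter_upwards [hbig L] with m hm z hz
      have h1 := hex m z (hm z hz)
      have e1 : z + (v m z - z) = v m z := by ring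
      have he1 : ‖((1 / e m : ℝ) : ℂ)‖ = 1 / e m := by
        rw [Complex.norm_real, Real.norm_of_nonneg (one_div_nonneg.2 (hepos m).le)]
      rw [e1, norm_sub_rev, ← hv2, norm_mul, he1, norm_div]
      have h2 : EN r (P m) (Q m) z z * ‖W m z‖ ≤ 1 / θ * (e m * ‖W m 0‖) := by
        rw [one_div_mul_eq_div, le_div_iff₀ hθ, mul_comm]
        exact h1.le
      calc EN r (P m) (Q m) z z * (1 / e m * (‖W m z‖ / ‖W m 0‖)) =
            (EN r (P m) (Q m) z z * ‖W m z‖) / (e m * ‖W m 0‖) := by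
            have := (hepos m).ne'
            have := (hW0p m).ne'
            field_simp
        _ ≤ 1 / θ := by
            rw [div_le_iff₀ (mul_pos (hepos m) (hW0p m))]
            exact h2
  obtain ⟨t, ht, htend⟩ := hpr.final h.comp h.sub hG (hZ _ hχ)
  have h1 : Tendsto (fun _ : ℕ => (1 : ℝ)) 𝓤 (𝓝 0) := by
    refine squeeze_zero' (Eventually.of_forall fun _ => zero_le_one) ?_ htend
    have h2 : ∀ᶠ m in (𝓤 : Filter ℕ), ‖t m‖ < r := by
      have := ht.norm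
      rw [norm_zero] at this
      exact this.eventually_lt_const (by positivity)
    filter_upwards [h2] with m k2
    have k4 : EN r (P m) (Q m) 0 0 ≤ ‖P m 0 - Q m (t m)‖ := by
      apply EN_le
      rw [sub_zero]
      exact k2.le
    have k5 : ‖((1 / e m : ℝ) : ℂ) * (W m 0 / W m 0)‖ = 1 / e m := by
      rw [div_self (hW0 m), mul_one, Complex.norm_real,
        Real.norm_of_nonneg (one_div_nonneg.2 (hepos m).le)]
    rw [k5, norm_sub_rev, mul_one_div, le_div_iff₀ (hepos m), one_mul]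
    exact k4
  exact one_ne_zero (tendsto_nhds_unique h1 tendsto_const_nhds).symm

/-- curves on large discs are close to curves in the class -/
theorem close_e (hd : Dcl T c0 𝒞 𝒟) {ρ δ : ℝ} (hδ : 0 < δ) : ∃ R : ℝ, ∀ R' P, R ≤ R' →
    𝒟 R' P → ∃ Q, 𝒞 Q ∧ ∀ z ∈ closedBall (0 : ℂ) ρ, ‖P z - Q z‖ ≤ δ := by
  by_contra hcon
  push Not at hcon
  choose R' P hR hP hex using fun m : ℕ => hcon m
  obtain ⟨χ, hχ, hc⟩ := hd.lim (hyperfilter ℕ) R' P hP (Filter.tendsto_atTop.2 fun b => by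
    filter_upwards [hyp_ge b] with m hm
    exact hm.trans (hR m))
  have hQc : CConv (hyperfilter ℕ : Filter ℕ) univ (fun _ => χ) χ := by
    intro z _
    have h1 : ContinuousAt χ z := (hd.cls.hol χ hχ).continuousAt (mem_univ z)
    exact h1.tendsto.comp tendsto_snd
  obtain ⟨m, hm⟩ := (CConv.compact hc hQc (isCompact_closedBall (0 : ℂ) ρ) hδ).exists
  obtain ⟨z, hz, hz2⟩ := hex m χ hχ
  exact lt_irrefl _ (hz2.trans (hm z hz))

end Pool.Agent.N155.QD
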