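import Pool.Agent.N155.G.Defs
import Pool.Agent.N155.L.OEnd

/-! Symmetric differentials without common zeros; the size of a form; holomorphic discs. -/

set_option autoImplicit false

open Filter Topology Metric Set LinearAlgebra.Projectivization Pool.Agent.W602.GT

namespace Pool.Agent.N155.QD

open Pool.Agent.N155.BB

variable {n : ℕ} {ι : Type}

/-- `f` is a holomorphic map from the open set `U` in the plane to the projective set
`X = {F = 0}`. -/
def HolTo (F : ι → MvPolynomial (Fin (n + 1)) ℂ) (U : Set ℂ)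
    (f : ℂ → ℙ ℂ (Fin (n + 1) → ℂ)) : Prop :=
  HolMapOn U f ∧ ∀ z ∈ U, (f z).rep ∈ Cone F

/-- The length `|f' a|` of the derivative of the curve `f` at the point `a`, with respect to the
Fubini-Study metric, is `s`: in local homogeneous coordinates `g` of `f` this length is
`|g ∧ g'| / |g| ^ 2`. -/
def HasSpeed (f : ℂ → ℙ ℂ (Fin (n + 1) → ℂ)) (a : ℂ) (s : ℝ) : Prop :=
  ∃ (V : Set ℂ) (g : ℂ → Fin (n + 1) → ℂ), IsOpen V ∧ a ∈ V ∧ DifferentiableOn ℂ g V ∧
    (∀ w ∈ V, ∃ h : g w ≠ 0, f w = Projectivization.mk ℂ (g w) h) ∧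
    s * ∑ k, ‖g a k‖ ^ 2 = wedge (g a) (deriv g a)

/-- The absolute value of the form `P` of degree `e` at the point `x` of projective space, divided
by `A`: `|P u| / (A |u| ^ e)` for homogeneous coordinates `u` of `x`. -/
noncomputable def absAt (P : MvPolynomial (Fin (n + 1)) ℂ) (e : ℕ) (A : ℝ)
    (x : ℙ ℂ (Fin (n + 1) → ℂ)) : ℝ :=
  ‖MvPolynomial.eval x.rep P‖ / (A * √(∑ k, ‖x.rep k‖ ^ 2) ^ e)

end Pool.Agent.N155.QD
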