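import Pool.Agent.N155.Q.Pcd
import Pool.Agent.N155.Ell

/-! Forms which vanish on doubly periodic curves. -/

set_option autoImplicit false

open Filter Topology Metric Set MvPolynomial LinearAlgebra.Projectivization

namespace Pool.Agent.N155.QD

open Pool.Agent.Y190.OP Pool.Agent.W602.GT Pool.Agent.TH143.GT Pool.Agent.N155
  Pool.Agent.N155.BB Pool.Agent.N155.GD

variable {n : ℕ} {ι : Type} {F : ι → MvPolynomial (Fin (n + 1)) ℂ} {d : ℕ}

/-- homogenization -/
theorem exists_hom (Q : MvPolynomial (Fin 2) ℂ) (i j0 j1 : Fin (n + 1)) :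
    ∃ P : MvPolynomial (Fin (n + 1)) ℂ, P.IsHomogeneous Q.totalDegree ∧
      ∀ u : Fin (n + 1) → ℂ, u i = 1 → eval u P = eval ![u j0, u j1] Q := by
  refine ⟨∑ e ∈ Finset.range (Q.totalDegree + 1), X i ^ (Q.totalDegree - e) *
    rename ![j0, j1] (homogeneousComponent e Q), ?_, fun u hu => ?_⟩
  · apply IsHomogeneous.sum
    intro e he
    have h1 : (X i ^ (Q.totalDegree - e) : MvPolynomial (Fin (n + 1)) ℂ).IsHomogeneous
        (Q.totalDegree - e) := isHomogeneous_X_pow i _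
    have h2 := h1.mul ((homogeneousComponent_isHomogeneous e Q).rename_isHomogeneous
      (f := ![j0, j1]))
    have h3 : Q.totalDegree - e + e = Q.totalDegree :=
      Nat.sub_add_cancel (Nat.lt_succ_iff.1 (Finset.mem_range.1 he))
    rwa [h3] at h2
  · rw [map_sum]
    have h1 : ∀ e ∈ Finset.range (Q.totalDegree + 1), eval u (X i ^ (Q.totalDegree - e) *
        rename ![j0, j1] (homogeneousComponent e Q)) =
        eval ![u j0, u j1] (homogeneousComponent e Q) := by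
      intro e _
      rw [map_mul, map_pow, eval_X, hu, one_pow, one_mul, eval_rename]
      congr 2
      funext k
      fin_cases k <;> rfl
    rw [Finset.sum_congr rfl h1, ← map_sum, sum_homogeneousComponent]

theorem nz_rep {f : ℂ → ℙ ℂ (Fin (n + 1) → ℂ)} {P : MvPolynomial (Fin (n + 1)) ℂ} {e : ℕ}
    (hP : P.IsHomogeneous e) (z : ℂ) : N155.nz P (Phi (f z).rep) ↔ eval (f z).rep P ≠ 0 :=
  nz_Phi hP (f z).rep_nonzero

/-- the equation of a doubly periodic curve in two coordinates -/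
theorem hom_ell {g : ℂ → ℙ ℂ (Fin (n + 1) → ℂ)} (hg : HolMap g) (hper : DoublyPeriodic g)
    (i j0 j1 : Fin (n + 1)) : ∃ (Q : MvPolynomial (Fin 2) ℂ) (P : MvPolynomial (Fin (n + 1)) ℂ)
      (e : ℕ), Q ≠ 0 ∧ P.IsHomogeneous e ∧ (∀ z, eval (g z).rep P = 0) ∧
      ∀ u : Fin (n + 1) → ℂ, u i = 1 → eval u P = eval ![u j0, u j1] Q := by
  have hhol := holP_of_map hg
  by_cases hi : ∀ z, (g z).rep i = 0
  · refine ⟨1, X i, 1, one_ne_zero, isHomogeneous_X _ i, fun z => by rw [eval_X, hi z],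
      fun u hu => by rw [eval_X, hu, map_one]⟩
  push Not at hi
  obtain ⟨z1, hz1⟩ := hi
  have hcod : ∀ᶠ z in codiscrete ℂ, (g z).rep i ≠ 0 := by
    have h1 := nz_codis hhol (isHomogeneous_X ℂ i) (z1 := z1)
      ((nz_rep (isHomogeneous_X ℂ i) z1).2 (by rwa [eval_X]))
    filter_upwards [h1] with z hz
    have h2 := (nz_rep (isHomogeneous_X ℂ i) z).1 hz
    rwa [eval_X] at h2
  obtain ⟨L, hL⟩ := hper
  have hmer : ∀ j, Meromorphic fun z => (g z).rep j / (g z).rep i := by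
    intro j z
    obtain ⟨V, h, hV, hzV, hd, hh⟩ := hg z
    have hj : ∀ j, AnalyticAt ℂ (fun w => h w j) z := fun j =>
      ((differentiableOn_pi.1 hd) j).analyticAt (hV.mem_nhds hzV)
    refine ((hj j).meromorphicAt.div (hj i).meromorphicAt).congr ?_
    filter_upwards [nhdsWithin_le_nhds (hV.mem_nhds hzV)] with w hw
    obtain ⟨h0, he⟩ := hh w hw
    obtain ⟨c, hc⟩ := Projectivization.exists_smul_eq_mk_rep ℂ (h w) h0
    rw [he, ← hc]
    change h w j / h w i = ((c : ℂ) * h w j) / ((c : ℂ) * h w i)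
    rw [mul_div_mul_left _ _ c.ne_zero]
  have hEll : ∀ j, (fun z => (g z).rep j / (g z).rep i) ∈ Ell L.ω₁ L.ω₂ := fun j =>
    ⟨hmer j, fun z => by simp only [hL _ L.ω₁_mem_lattice z],
      fun z => by simp only [hL _ L.ω₂_mem_lattice z]⟩
  obtain ⟨Q, hQ0, hQ⟩ := ell_dep L.indep (hEll j0) (hEll j1)
  obtain ⟨P, hP, hPQ⟩ := exists_hom Q i j0 j1
  refine ⟨Q, P, _, hQ0, hP, ?_, hPQ⟩
  have hev : ∀ᶠ z in codiscrete ℂ, ¬ N155.nz P (Phi (g z).rep) := by
    filter_upwards [hQ, hcod] with z h1 h2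
    rw [nz_rep hP, not_not]
    have h3 : (g z).rep = (g z).rep i • ((g z).rep i)⁻¹ • (g z).rep := by
      rw [smul_smul, mul_inv_cancel₀ h2, one_smul]
    rw [h3, eval_smul hP, hPQ _ (by
      rw [Pi.smul_apply, smul_eq_mul, inv_mul_cancel₀ h2])]
    have h4 : ![(((g z).rep i)⁻¹ • (g z).rep) j0, (((g z).rep i)⁻¹ • (g z).rep) j1] =
        ![(g z).rep j0 / (g z).rep i, (g z).rep j1 / (g z).rep i] := by
      simp only [Pi.smul_apply, smul_eq_mul, div_eq_inv_mul]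
    rw [h4, h1, mul_zero]
  intro z
  rcases nz_dich hhol hP with h1 | h1
  · have := h1 z
    rwa [nz_rep hP, not_not] at this
  · exfalso
    obtain ⟨w, hw1, hw2⟩ := (codis_ev (hev.and h1) 0).exists
    exact hw1 hw2

/-- **The union of the doubly periodic curves is contained in a nowhere dense algebraic set.** -/
theorem exists_form (hX : ProjManifold F d) (hd : 2 ≤ d)
    (S : Finset (ℂ → ℙ ℂ (Fin (n + 1) → ℂ))) (hS : ∀ g ∈ S, HolIn F g ∧ DoublyPeriodic g)
    {x : Fin (n + 1) → ℂ} (hx : x ∈ Cone F) :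
    ∃ (P : MvPolynomial (Fin (n + 1)) ℂ) (e : ℕ), P.IsHomogeneous e ∧
      (∀ g ∈ S, ∀ z, eval (g z).rep P = 0) ∧ ∃ᶠ u in 𝓝 x, u ∈ Cone F ∧ eval u P ≠ 0 := by
  classical
  obtain ⟨i, J, U, Ψ, hxi, hU, hxU, hΨ, hΨX, hgr⟩ := hX.smooth x hx
  set j0 : Fin (n + 1) := J ⟨0, by omega⟩ with hj0
  set j1 : Fin (n + 1) := J ⟨1, by omega⟩ with hj1
  have h1 : ∀ g : ℂ → ℙ ℂ (Fin (n + 1) → ℂ), ∃ (Q : MvPolynomial (Fin 2) ℂ)
      (P : MvPolynomial (Fin (n + 1)) ℂ) (e : ℕ), g ∈ S → Q ≠ 0 ∧ P.IsHomogeneous e ∧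
      (∀ z, eval (g z).rep P = 0) ∧
      ∀ u : Fin (n + 1) → ℂ, u i = 1 → eval u P = eval ![u j0, u j1] Q := by
    intro g
    by_cases hg : g ∈ S
    · obtain ⟨Q, P, e, h2⟩ := hom_ell (hS g hg).1.1 (hS g hg).2 i j0 j1
      exact ⟨Q, P, e, fun _ => h2⟩
    · exact ⟨0, 0, 0, fun h => absurd h hg⟩
  choose Q P e hQ using h1
  refine ⟨∏ g ∈ S, P g, ∑ g ∈ S, e g, IsHomogeneous.prod _ _ _ fun g hg => (hQ g hg).2.1,
    fun g hg z => ?_, ?_⟩
  · rw [map_prod, Finset.prod_eq_zero_iff]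
    exact ⟨g, hg, (hQ g hg).2.2.1 z⟩
  have hPh : (∏ g ∈ S, P g).IsHomogeneous (∑ g ∈ S, e g) :=
    IsHomogeneous.prod _ _ _ fun g hg => (hQ g hg).2.1
  have hQ0 : ∏ g ∈ S, Q g ≠ 0 := Finset.prod_ne_zero_iff.2 fun g hg => (hQ g hg).1
  have hPΨ : ∀ z ∈ U, eval (Ψ z) (∏ g ∈ S, P g) =
      eval ![z ⟨0, by omega⟩, z ⟨1, by omega⟩] (∏ g ∈ S, Q g) := by
    intro z hz
    obtain ⟨-, h2, h3⟩ := hΨX z hz
    rw [map_prod, map_prod]
    refine Finset.prod_congr rfl fun g hg => ?_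
    rw [(hQ g hg).2.2.2 _ h2, hj0, hj1, h3, h3]
  set zx : Fin d → ℂ := fun k => x (J k) / x i with hzx
  intro hcon
  apply hQ0
  -- the polynomial vanishes near the point
  have hlim : Tendsto (fun z => x i • Ψ z) (𝓝 zx) (𝓝 x) := by
    have h2 : ContinuousAt (fun z => x i • Ψ z) zx :=
      (hΨ zx hxU).continuousAt.const_smul (x i)
    have h3 := hgr.self_of_nhds hx
    have h4 := h2.tendsto
    rw [← h3] at h4
    exact h4
  have hev : ∀ᶠ z in 𝓝 zx, eval ![z ⟨0, by omega⟩, z ⟨1, by omega⟩] (∏ g ∈ S, Q g) = 0 := by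
    filter_upwards [hlim.eventually hcon, hU.mem_nhds hxU] with z h2 h3
    rw [not_and, not_not] at h2
    have h4 : x i • Ψ z ∈ Cone F := cone_smul hX.form (hΨX z h3).1 hxi
    have h5 := h2 h4
    rw [eval_smul hPh] at h5
    rw [← hPΨ z h3]
    exact (mul_eq_zero.1 h5).resolve_left (pow_ne_zero _ hxi)
  set w0 : Fin 2 → ℂ := ![zx ⟨0, by omega⟩, zx ⟨1, by omega⟩] with hw0
  set ins : (Fin 2 → ℂ) → Fin d → ℂ := fun w =>
    Function.update (Function.update zx ⟨0, by omega⟩ (w 0)) ⟨1, by omega⟩ (w 1) with hins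
  have hne : (⟨0, by omega⟩ : Fin d) ≠ ⟨1, by omega⟩ := by
    intro h
    simpa using congrArg Fin.val h
  have hins0 : ins w0 = zx := by
    rw [hins, hw0]
    simp
  have hinsc : Continuous ins := by
    have c0 : Continuous fun w : Fin 2 → ℂ => w 0 := continuous_apply 0
    have c1 : Continuous fun w : Fin 2 → ℂ => w 1 := continuous_apply 1
    have c2 : Continuous fun _ : Fin 2 → ℂ => zx := continuous_const
    exact (c2.update ⟨0, by omega⟩ c0).update ⟨1, by omega⟩ c1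
  have hev2 : ∀ᶠ w in 𝓝 w0, eval w (∏ g ∈ S, Q g) = 0 := by
    have h2 : Tendsto ins (𝓝 w0) (𝓝 zx) := by
      have := hinsc.tendsto w0
      rwa [hins0] at this
    filter_upwards [h2.eventually hev] with w hw
    have h3 : ins w ⟨0, by omega⟩ = w 0 := by
      rw [hins]
      simp only
      rw [Function.update_of_ne hne, Function.update_self]
    have h4 : ins w ⟨1, by omega⟩ = w 1 := by
      rw [hins]
      simp only [Function.update_self]
    rw [h3, h4] at hw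
    have h5 : ![w 0, w 1] = w := by
      funext k
      fin_cases k <;> rfl
    rwa [h5] at hw
  have hall := AnalyticOnNhd.eq_of_eventuallyEq (𝕜 := ℂ)
    (AnalyticOnNhd.eval_mvPolynomial (𝕜 := ℂ) (∏ g ∈ S, Q g))
    (analyticOnNhd_const (v := (0 : ℂ))) (z₀ := w0) hev2
  apply MvPolynomial.funext
  intro w
  rw [map_zero]
  exact congrFun hall w

end Pool.Agent.N155.QD
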