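import Pool.Agent.N155.Q.Hln

/-! Good points. -/

set_option autoImplicit false

open Filter Topology Metric Set MvPolynomial

namespace Pool.Agent.N155.QD

open Pool.Agent.Y190.OP Pool.Agent.W602.GT Pool.Agent.TH143.GT Pool.Agent.N155
  Pool.Agent.N155.BB Pool.Agent.N155.GD

variable {N : ℕ} {T : Set (Mat N)} {τ : Type} {Hv : τ → (ℂ → Mat N) → ℂ → ℂ} {k : ℕ}
  {c C C1 : ℝ} {p : Mat N → ℝ}

theorem gpt (hT : Ctl T Hv k c C) (hc : 0 < c) (hC : 0 < C) (hk : 0 < k) (hp : Siz p C1) :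
    ∃ ε0 : ℝ, 0 < ε0 ∧ ε0 ≤ 1 ∧ ∃ D : ℝ, 0 < D ∧ ∀ (φ : ℂ → Mat N) (L : ℝ), 0 < L →
      HolP (ball 0 2) φ → (∀ z ∈ ball (0 : ℂ) 2, φ z ∈ T) → Gau p L ε0 (ball 0 2) φ →
      0 < p (φ 0) →
      (∀ z ∈ closedBall (0 : ℂ) (1 / 4), ‖fderiv ℝ φ z‖ ^ 2 ≤ 16 * (L - Real.log (p (φ 0)))) ∧
      ∀ a : ℂ, ‖a‖ = 3 / 16 → ∃ a' ∈ closedBall a (1 / 32), 0 < p (φ a') ∧
        L - Real.log (p (φ a')) ≤ D * (L - Real.log (p (φ 0))) := by
  obtain ⟨ε0, hε0, hε01, hH⟩ := hln hT hc hC hk hp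
  have hC1 := hp.pos
  refine ⟨ε0, hε0, hε01, ?_⟩
  obtain ⟨ρ, hρ⟩ : ∃ ρ : ℝ, ρ = 1 / 4 := ⟨_, rfl⟩
  rw [← hρ] at hH ⊢
  set g : ℝ := Real.log ((ρ - 1 / 64) / (ρ - 1 / 16)) / Real.log (2 * (ρ - 1 / 64) / (1 / 32))
    with hg
  have hgp : 0 < g := by
    apply div_pos
    · apply Real.log_pos
      rw [hρ]
      norm_num
    · apply Real.log_pos
      rw [hρ]
      norm_num
  set e : ℝ := Real.log (ρ ^ 2 / (ρ ^ 2 - (ρ - 1 / 64) ^ 2)) with he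
  have hep : 0 ≤ e := Real.log_nonneg (by
    rw [hρ]
    norm_num)
  set D : ℝ := (2 + 2 * C1 * 16 * ρ ^ 2 * e) / g with hD
  have hρ0 : 0 < ρ := by rw [hρ]; norm_num
  have hDp : 0 < D := by positivity
  refine ⟨D, hDp, fun φ L hL hφ hφT hga hp0 => ?_⟩
  have hs : ball (0 : ℂ) 1 ⊆ ball 0 2 := ball_subset_ball (by norm_num)
  have ih' := hH φ L hL.le (hφ.mono hs) (fun z hz => hφT z (hs hz)) (fun z hz => hga z (hs hz)) hp0
  set V : ℝ := L - Real.log (p (φ 0)) with hV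
  have hVp : 0 < V := by
    have := Real.log_nonpos (hp.nonneg _) (hp.le_one (φ 0))
    rw [hV]
    linarith
  refine ⟨ih', fun a han => ?_⟩
  by_contra hcon
  push Not at hcon
  have huA : ∀ w ∈ closedBall a (1 / 32), p (φ w) ≤ Real.exp (L - D * V) := by
    intro w hw
    rcases (hp.nonneg (φ w)).eq_or_lt with h0 | h0
    · rw [← h0]
      exact (Real.exp_pos _).le
    · have h1 := hcon w hw h0
      calc p (φ w) = Real.exp (Real.log (p (φ w))) := (Real.exp_log h0).symm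
        _ ≤ Real.exp (L - D * V) := Real.exp_le_exp.2 (by linarith)
  have hsub : closedBall (0 : ℂ) (ρ - 1 / 64) ⊆ ball 0 2 :=
    closedBall_subset_ball (by rw [hρ]; norm_num)
  have hhar := har (u := fun z => p (φ z)) (t := ρ - 1 / 64) (R := ρ) (h := 1 / 32) (L := L)
    (A := D * V) (B := 2 * C1 * 16 * V * ρ ^ 2) (z1 := a) (by rw [hρ]; norm_num) (by linarith)
    (by norm_num) (by rw [han]; norm_num) (by rw [han, hρ]; norm_num) (by positivity)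
    (by positivity) (fun z => hp.nonneg _)
    (fun w hw => (hp.cont _ φ hφ w (hsub hw)).continuousWithinAt)
    (fun w _ => (hp.le_one _).trans (Real.one_le_exp hL.le)) huA
    (fun z0 hz0 hu0 => by
      have hz0' := ball_subset_closedBall hz0
      refine ⟨C1 * ‖fderiv ℝ φ z0‖ ^ 2, ?_, hp.cp _ φ hφ z0 (hsub hz0') hu0⟩
      rw [mem_ball_zero_iff] at hz0
      have h0n := norm_nonneg z0
      have h1 := ih' z0 (mem_closedBall_zero_iff.2 (by linarith))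
      have h2 : 0 < ρ ^ 2 - ‖z0‖ ^ 2 := by nlinarith
      have h3 : (ρ ^ 2 - ‖z0‖ ^ 2) ^ 2 ≤ ρ ^ 2 * ρ ^ 2 := by
        rw [← sq (ρ ^ 2)]
        exact pow_le_pow_left₀ h2.le (by nlinarith) 2
      have h4 : C1 * ‖fderiv ℝ φ z0‖ ^ 2 ≤ C1 * (16 * V) := mul_le_mul_of_nonneg_left h1 hC1.le
      have h5 : 0 < C1 * (16 * V) := by positivity
      rw [← mul_div_assoc, lt_div_iff₀ (by positivity)]
      have hρ2 : 0 < ρ ^ 2 * ρ ^ 2 := by positivity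
      calc C1 * ‖fderiv ℝ φ z0‖ ^ 2 * (ρ ^ 2 - ‖z0‖ ^ 2) ^ 2 ≤
            C1 * (16 * V) * (ρ ^ 2 * ρ ^ 2) :=
            mul_le_mul h4 h3 (by positivity) h5.le
        _ < 2 * C1 * 16 * V * ρ ^ 2 * ρ ^ 2 := by nlinarith)
  have h1 := Real.log_le_log hp0 hhar
  have han' : ‖a‖ = ρ - 1 / 16 := by rw [han, hρ]; norm_num
  rw [Real.log_exp, han', ← hg, ← he] at h1
  have h2 : D * V * g = V * (2 + 2 * C1 * 16 * ρ ^ 2 * e) := by
    rw [hD]
    field_simp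
  rw [h2] at h1
  have h3 : V * (2 + 2 * C1 * 16 * ρ ^ 2 * e) - 2 * C1 * 16 * V * ρ ^ 2 * e = 2 * V := by ring
  rw [h3] at h1
  linarith

end Pool.Agent.N155.QD
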