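import Pool.Agent.N155.Q.Max

/-! The estimate of the derivative of discs. -/

set_option autoImplicit false

open Filter Topology Metric Set MvPolynomial

namespace Pool.Agent.N155.QD

open Pool.Agent.Y190.OP Pool.Agent.W602.GT Pool.Agent.TH143.GT Pool.Agent.N155
  Pool.Agent.N155.BB Pool.Agent.N155.GD

/-- the weight -/
noncomputable def om (L x : ℝ) : ℝ := if x = 0 then 0 else 1 / √(L - Real.log x)

theorem om_nonneg (L x : ℝ) : 0 ≤ om L x := by
  unfold om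
  split_ifs
  · exact le_rfl
  · positivity

theorem om_cont {L x : ℝ} (hL : 1 ≤ L) (hx0 : 0 ≤ x) (hx1 : x ≤ 1) : ContinuousAt (om L) x := by
  rcases hx0.eq_or_lt with h0 | h0
  · rw [← h0, continuousAt_iff_punctured_nhds]
    have h1 : om L 0 = 0 := by unfold om; rw [if_pos rfl]
    rw [h1]
    have h2 : Tendsto (fun x : ℝ => L + -Real.log x) (𝓝[≠] 0) atTop :=
      tendsto_atTop_add_const_left _ L (tendsto_neg_atBot_atTop.comp Real.tendsto_log_nhdsNE_zero)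
    have h3 : Tendsto (fun x : ℝ => (√(L + -Real.log x))⁻¹) (𝓝[≠] 0) (𝓝 0) :=
      tendsto_inv_atTop_zero.comp (Real.tendsto_sqrt_atTop.comp h2)
    refine h3.congr' ?_
    filter_upwards [self_mem_nhdsWithin] with y hy
    unfold om
    rw [if_neg (show y ≠ 0 from hy), one_div, sub_eq_add_neg]
  · have hlog : Real.log x ≤ 0 := Real.log_nonpos h0.le hx1
    have h1 : ContinuousAt (fun x => 1 / √(L - Real.log x)) x := by
      refine ContinuousAt.div continuousAt_const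
        ((continuousAt_const.sub (Real.continuousAt_log h0.ne')).sqrt) ?_
      exact (Real.sqrt_pos.2 (by linarith)).ne'
    refine h1.congr ?_
    filter_upwards [isOpen_ne.mem_nhds h0.ne'] with y hy
    unfold om
    rw [if_neg hy]

variable {N : ℕ} {T Z : Set (Mat N)} {τ κ : Type} {Hv : τ → (ℂ → Mat N) → ℂ → ℂ} {k : ℕ}
  {c C C1 : ℝ} {p : Mat N → ℝ} {ω : κ → (Fin N → ℂ) → (Fin N → ℂ) → (Fin N → ℂ) → ℂ}

theorem kob_mat (hG : GW T Z ω) (hTc : IsCompact T) (hTP : T ⊆ PM)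
    (hZ : ∀ c : ℝ, 0 < c → ∀ φ, BCw T c φ → ∃ z, φ z ∉ Z) (hT : Ctl T Hv k c C) (hc : 0 < c)
    (hC : 0 < C) (hk : 0 < k) {Cl : ℝ} (hp : Siz p C1) (hCl : 0 < Cl)
    (hlip : ∀ M ∈ T, ∀ (Q : ℂ → Mat N) (w : ℂ),
      BCw T (2 * min 1 (c / 2 / C) / max 1 (2 * C / c)) Q → p M ≤ Cl * ‖M - Q w‖) :
    ∃ D : ℝ, 0 < D ∧ ∀ Ψ : ℂ → Mat N, HolP (ball 0 1) Ψ → (∀ z ∈ ball (0 : ℂ) 1, Ψ z ∈ T) →
      0 < p (Ψ 0) → ‖fderiv ℝ Ψ 0‖ ^ 2 ≤ D * (1 - Real.log (p (Ψ 0))) := by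
  obtain ⟨c0, hc0p, hc0, hmax⟩ := maxp hG hTc hTP hZ hT hc hC hk
  rw [← hc0] at hlip
  obtain ⟨ε0, hε0, hε01, hchn⟩ := chn hT hc hC hk hp
  choose B hB hchn using hchn
  obtain ⟨j, N0, hN0, hmx⟩ := hmax (fun i => √(4 * B i / ε0)) (fun i => by
    have := hB i
    exact Real.sqrt_pos.2 (by positivity)) (8 / ε0) (by positivity)
  set L : ℝ := max 1 (max (4 * N0 ^ 2 / ε0) (Real.log Cl + 1)) with hL
  have hL1 : 1 ≤ L := le_max_left _ _
  have hLN : 4 * N0 ^ 2 / ε0 ≤ L := (le_max_left _ _).trans (le_max_right _ _)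
  have hLC : Real.log Cl + 1 ≤ L := (le_max_right _ _).trans (le_max_right _ _)
  set M : ℝ := 2 * (j + 2) with hM
  have hMp : 0 < M := by positivity
  refine ⟨4 * M ^ 2 * L, by positivity, fun Ψ hΨ hΨT hp0 => ?_⟩
  by_contra hcon
  push Not at hcon
  have hlog0 : Real.log (p (Ψ 0)) ≤ 0 := Real.log_nonpos hp0.le (hp.le_one _)
  have hX : 0 < L - Real.log (p (Ψ 0)) := by linarith
  have hbig : 2 * M < ‖fderiv ℝ Ψ 0‖ * om L (p (Ψ 0)) := by
    unfold om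
    rw [if_neg hp0.ne', mul_one_div, lt_div_iff₀ (Real.sqrt_pos.2 hX)]
    refine lt_of_pow_lt_pow_left₀ 2 (norm_nonneg _) ?_
    rw [mul_pow, Real.sq_sqrt hX.le]
    refine lt_of_le_of_lt ?_ hcon
    have h1 : L - Real.log (p (Ψ 0)) ≤ L * (1 - Real.log (p (Ψ 0))) := by nlinarith
    calc (2 * M) ^ 2 * (L - Real.log (p (Ψ 0))) ≤ (2 * M) ^ 2 * (L * (1 - Real.log (p (Ψ 0)))) :=
          mul_le_mul_of_nonneg_left h1 (by positivity)
      _ = 4 * M ^ 2 * L * (1 - Real.log (p (Ψ 0))) := by ring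
  obtain ⟨h, hh, hhT, hh1, hh2⟩ := wbrody (S := T) hMp (w := fun A => om L (p A))
    (fun A => om_nonneg _ _) hΨ (fun z hz => by
      refine ContinuousAt.continuousWithinAt ?_
      exact ContinuousAt.comp (f := fun z => p (Ψ z)) (om_cont hL1 (hp.nonneg _) (hp.le_one _))
        (hp.cont _ Ψ hΨ z hz)) hΨT hbig
  have hph : 0 < p (h 0) := by
    refine lt_of_le_of_ne (hp.nonneg _) fun h0 => ?_
    rw [← h0] at hh2
    unfold om at hh2
    rw [if_pos rfl, mul_zero] at hh2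
    exact zero_ne_one hh2
  set s0 : ℝ := √ε0 / 2 with hs0
  have hs0p : 0 < s0 := by
    have := Real.sqrt_pos.2 hε0
    positivity
  have hs0sq : s0 ^ 2 = ε0 / 4 := by
    rw [hs0, div_pow, Real.sq_sqrt hε0.le]
    norm_num
  have hs01 : s0 ≤ 1 := by nlinarith
  set φ : ℂ → Mat N := fun z => h (aff 0 s0 z) with hφ
  have haff : ∀ z ∈ ball (0 : ℂ) (j + 2), aff 0 s0 z ∈ ball (0 : ℂ) (M / 2) := by
    intro z hz
    rw [mem_ball_zero_iff] at hz ⊢
    unfold aff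
    rw [zero_add, norm_mul, Complex.norm_real, Real.norm_of_nonneg hs0p.le, hM]
    nlinarith [norm_nonneg z]
  have hM2 : ball (0 : ℂ) (M / 2) ⊆ ball 0 M := ball_subset_ball (by linarith)
  have hφH : HolP (ball 0 (j + 2)) φ := (hh.aff 0 s0).mono fun z hz => hM2 (haff z hz)
  have hφT : ∀ z ∈ ball (0 : ℂ) (j + 2), φ z ∈ T := fun z hz => hhT _ (hM2 (haff z hz))
  have hfd : ∀ z ∈ ball (0 : ℂ) (j + 2), ‖fderiv ℝ φ z‖ = s0 * ‖fderiv ℝ h (aff 0 s0 z)‖ :=
    fun z hz => norm_fderiv_aff hs0p.le (hh.differentiableAt (hM2 (haff z hz)))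
  have hgau : Gau p L ε0 (ball 0 (j + 2)) φ := by
    intro z hz hpz
    rw [hfd z hz, mul_pow, hs0sq]
    have h1 := hh1 _ (haff z hz)
    have hlog : Real.log (p (φ z)) ≤ 0 := Real.log_nonpos hpz.le (hp.le_one _)
    have hXz : 0 < L - Real.log (p (φ z)) := by linarith
    unfold om at h1
    have hpz' : p (h (aff 0 s0 z)) ≠ 0 := hpz.ne'
    rw [if_neg hpz', mul_one_div, div_le_iff₀ (Real.sqrt_pos.2 hXz)] at h1
    have h2 := pow_le_pow_left₀ (norm_nonneg _) h1 2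
    rw [mul_pow, Real.sq_sqrt hXz.le] at h2
    calc ε0 / 4 * ‖fderiv ℝ h (aff 0 s0 z)‖ ^ 2 ≤ ε0 / 4 * (2 ^ 2 * (L - Real.log (p (φ z)))) :=
          mul_le_mul_of_nonneg_left h2 (by positivity)
      _ = ε0 * (L - Real.log (p (φ z))) := by ring
  have hφ0 : φ 0 = h 0 := by
    rw [hφ]
    simp only [aff0]
  have hp0' : 0 < p (φ 0) := by rw [hφ0]; exact hph
  set w0 : ℝ := L - Real.log (p (φ 0)) with hw0
  have hlog0' : Real.log (p (φ 0)) ≤ 0 := Real.log_nonpos hp0'.le (hp.le_one _)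
  have hw0L : L ≤ w0 := by linarith
  have hw0p : 0 < w0 := by linarith
  have h0j : (0 : ℂ) ∈ ball (0 : ℂ) (j + 2) := mem_ball_self (by positivity)
  have hφ'0 : ‖fderiv ℝ φ 0‖ ^ 2 = ε0 / 4 * w0 := by
    rw [hfd 0 h0j, aff0, mul_pow, hs0sq]
    unfold om at hh2
    have h1 : L - Real.log (p (h 0)) = w0 := by rw [hw0, hφ0]
    rw [if_neg hph.ne', mul_one_div, h1, div_eq_one_iff_eq (Real.sqrt_pos.2 hw0p).ne'] at hh2
    rw [hh2, Real.sq_sqrt hw0p.le]
  have hj : ∀ i : ℕ, i ≤ j → ball (0 : ℂ) (i + 2) ⊆ ball 0 (j + 2) := fun i hi =>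
    ball_subset_ball (by
      have : (i : ℝ) ≤ j := by exact_mod_cast hi
      linarith)
  obtain ⟨Q, w, hQ, hle⟩ := hmx φ hφH hφT (fun i hi z hz => by
    have h1 := hchn i φ L (by linarith) (hφH.mono (hj i hi)) (fun z hz => hφT z (hj i hi hz))
      (fun z hz => hgau z (hj i hi hz)) hp0' z hz
    refine le_of_sq_le_sq ?_ (by positivity)
    rw [mul_pow, hφ'0, Real.sq_sqrt (by have := hB i; positivity)]
    refine h1.trans (le_of_eq ?_)
    change B i * w0 = _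
    field_simp) (by
    refine le_of_sq_le_sq ?_ (norm_nonneg _)
    rw [hφ'0]
    rw [div_le_iff₀ hε0] at hLN
    nlinarith)
  have h1 := (hlip _ (hφT 0 h0j) Q w hQ).trans (mul_le_mul_of_nonneg_left hle hCl.le)
  rw [hφ'0] at h1
  have h2 := Real.log_le_log hp0' h1
  rw [Real.log_mul hCl.ne' (Real.exp_pos _).ne', Real.log_exp] at h2
  have h3 : 8 / ε0 * (ε0 / 4 * w0) = 2 * w0 := by
    field_simp
    norm_num
  rw [h3] at h2
  linarith

/-- curves with bounded derivative -/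
theorem brody_in (hT : Ctl T Hv k c C) (hc : 0 < c) (hC : 0 < C) (hk : 0 < k) {f : ℂ → Mat N}
    (hf : HolP univ f) (hfT : ∀ z, f z ∈ T) {B : ℝ} (hB : ∀ z, ‖fderiv ℝ f z‖ ≤ B) {z0 : ℂ}
    (h0 : fderiv ℝ f z0 ≠ 0) : ∃ ρ : ℝ, 0 < ρ ∧
    BCw T (2 * min 1 (c / 2 / C) / max 1 (2 * C / c)) (fun z => f (aff 0 ρ z)) := by
  obtain ⟨h1, h2⟩ := hT univ f isOpen_univ hf (fun z _ => hfT z)
  set s : ℝ := ‖fderiv ℝ f z0‖ with hs
  have hsp : 0 < s := norm_pos_iff.2 h0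
  have hconst : ∀ b, ∀ z, Hv b f z = Hv b f z0 := by
    intro b z
    refine (differentiableOn_univ.1 (h1 b)).apply_eq_apply_of_bounded ?_ z z0
    rw [isBounded_iff_forall_norm_le]
    refine ⟨C * B ^ k, ?_⟩
    rintro _ ⟨w, rfl⟩
    exact ((h2 w (mem_univ w)).1 b).trans (mul_le_mul_of_nonneg_left
      (pow_le_pow_left₀ (norm_nonneg _) (hB w) k) hC.le)
  set K1 : ℝ := max 1 (2 * C / c) with hK1
  set c2 : ℝ := min 1 (c / 2 / C) with hc2
  have hK : 0 < K1 := one_pos.trans_le (le_max_left _ _)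
  have hc2p : 0 < c2 := lt_min one_pos (by positivity)
  have hup : ∀ w, ‖fderiv ℝ f w‖ ≤ K1 * s := by
    intro w
    obtain ⟨-, b, hb⟩ := h2 w (mem_univ w)
    have h3 := (h2 z0 (mem_univ z0)).1 b
    rw [hconst b w] at hb
    have h6 : c * ‖fderiv ℝ f w‖ ^ k ≤ 2 * C * s ^ k := by
      have : 0 ≤ C * s ^ k := by positivity
      linarith
    have h7 := low_of (x := 1 / K1) (mul_pos two_pos hC) hk hsp.le (norm_nonneg _) (by positivity)
      (by rw [div_le_one hK]; exact le_max_left _ _) (by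
        rw [div_le_div_iff₀ hK (by positivity), one_mul, ← div_le_iff₀' hc]
        exact le_max_right _ _) h6
    rwa [one_div_mul_eq_div, div_le_iff₀' hK] at h7
  have hlow : ∀ w, c2 * s ≤ ‖fderiv ℝ f w‖ := by
    intro w
    obtain ⟨-, b, hb⟩ := h2 z0 (mem_univ z0)
    have h3 := (h2 w (mem_univ w)).1 b
    rw [hconst b w] at h3
    have h6 : c / 2 * s ^ k ≤ C * ‖fderiv ℝ f w‖ ^ k := by
      have : 0 ≤ c * s ^ k := by positivity
      linarith
    exact low_of hC hk (norm_nonneg _) hsp.le hc2p (min_le_left _ _) (min_le_right _ _) h6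
  set ρ : ℝ := 2 / (K1 * s) with hρ
  have hρp : 0 < ρ := by positivity
  have hn : ∀ z, ‖fderiv ℝ (fun z => f (aff 0 ρ z)) z‖ = ρ * ‖fderiv ℝ f (aff 0 ρ z)‖ :=
    fun z => norm_fderiv_aff hρp.le (hf.differentiableAt (mem_univ _))
  refine ⟨ρ, hρp, ?_, fun z => hfT _, fun z => ?_, fun z => ?_⟩
  · have := hf.aff 0 ρ
    rwa [preimage_univ] at this
  · rw [hn]
    have h3 := mul_le_mul_of_nonneg_left (hup (aff 0 ρ z)) hρp.le
    have h4 : ρ * (K1 * s) = 2 := by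
      rw [hρ]
      field_simp
    linarith
  · rw [hn]
    have h3 := mul_le_mul_of_nonneg_left (hlow (aff 0 ρ z)) hρp.le
    have h4 : ρ * (c2 * s) = 2 * c2 / K1 := by
      rw [hρ]
      field_simp
    linarith

end Pool.Agent.N155.QD
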