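import Pool.Agent.N155.Q.Gpt
import Pool.Agent.N155.Q.Kob

/-! Growth of curves on the half-plane and on the punctured disc. -/

set_option autoImplicit false

open Filter Topology Metric Set MvPolynomial

namespace Pool.Agent.N155.QD

open Pool.Agent.Y190.OP Pool.Agent.W602.GT Pool.Agent.TH143.GT Pool.Agent.N155
  Pool.Agent.N155.BB Pool.Agent.N155.GD

variable {N : ℕ} {T : Set (Mat N)} {τ : Type} {Hv : τ → (ℂ → Mat N) → ℂ → ℂ} {k : ℕ}
  {c C C1 D0 : ℝ} {p : Mat N → ℝ}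

/-- the estimate for discs -/
def DE (T : Set (Mat N)) (p : Mat N → ℝ) (D0 : ℝ) : Prop :=
  ∀ (a : ℂ) (r : ℝ) (φ : ℂ → Mat N), 0 < r → HolP (ball a r) φ → (∀ z ∈ ball a r, φ z ∈ T) →
    0 < p (φ a) → (r * ‖fderiv ℝ φ a‖) ^ 2 ≤ D0 * (1 - Real.log (p (φ a)))

theorem re_ball {a w : ℂ} {r : ℝ} (hw : w ∈ ball a r) : w.re < a.re + r := by
  rw [mem_ball, dist_eq_norm] at hw
  have h1 := Complex.re_le_norm (w - a)
  rw [Complex.sub_re] at h1
  linarith

theorem grow_step (hT : Ctl T Hv k c C) (hc : 0 < c) (hC : 0 < C) (hk : 0 < k) (hp : Siz p C1)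
    (hD0 : 0 < D0) (hDE : DE T p D0) : ∃ l D q : ℝ, 0 < l ∧ 0 < D ∧ 1 < q ∧
      ∀ Fh : ℂ → Mat N, HolP {z | z.re < 0} Fh → (∀ z : ℂ, z.re < 0 → Fh z ∈ T) →
      ∀ ζ : ℂ, ζ.re < 0 → 0 < p (Fh ζ) →
        (∀ w : ℂ, ‖w - ζ‖ ≤ l * -ζ.re / 4 →
          (l * -ζ.re * ‖fderiv ℝ Fh w‖) ^ 2 ≤ 16 * (1 - Real.log (p (Fh ζ)))) ∧
        ∃ ζ' : ℂ, ζ'.re ≤ q * ζ.re ∧ 0 < p (Fh ζ') ∧
          1 - Real.log (p (Fh ζ')) ≤ D * (1 - Real.log (p (Fh ζ))) := by
  obtain ⟨ε0, hε0, hε01, D, hD, hg⟩ := gpt hT hc hC hk hp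
  set l : ℝ := min (1 / 4) (ε0 / (4 * (D0 + 1))) with hl
  have hlp : 0 < l := by positivity
  have hl4 : l ≤ 1 / 4 := min_le_left _ _
  have hlD : l * D0 ≤ ε0 := by
    have h1 : l ≤ ε0 / (4 * (D0 + 1)) := min_le_right _ _
    rw [le_div_iff₀ (by positivity)] at h1
    nlinarith
  refine ⟨l, D, 1 + 5 * l / 32, hlp, hD, by linarith, fun Fh hF hFT ζ hζ hpζ => ?_⟩
  set t : ℝ := -ζ.re with ht
  have htp : 0 < t := by
    rw [ht]
    linarith
  set s : ℝ := l * t with hs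
  have hsp : 0 < s := by positivity
  have hsc : (s : ℂ) ≠ 0 := by exact_mod_cast hsp.ne'
  have hre : ∀ z ∈ ball (0 : ℂ) 2, (aff ζ s z).re < -(t / 2) := by
    intro z hz
    rw [mem_ball_zero_iff] at hz
    unfold aff
    rw [Complex.add_re, Complex.re_ofReal_mul]
    have h1 := Complex.re_le_norm z
    have h2 : s * z.re ≤ s * ‖z‖ := mul_le_mul_of_nonneg_left h1 hsp.le
    have h3 : s * ‖z‖ < s * 2 := mul_lt_mul_of_pos_left hz hsp
    have h4 : s * 2 ≤ t / 2 := by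
      rw [hs]
      nlinarith
    linarith
  have hsub : ball (0 : ℂ) 2 ⊆ aff ζ s ⁻¹' {z | z.re < 0} := fun z hz => by
    have := hre z hz
    change (aff ζ s z).re < 0
    linarith
  have hfd : ∀ z ∈ ball (0 : ℂ) 2, ‖fderiv ℝ (fun z => Fh (aff ζ s z)) z‖ =
      s * ‖fderiv ℝ Fh (aff ζ s z)‖ := fun z hz =>
    norm_fderiv_aff hsp.le (hF.differentiableAt (hsub hz))
  obtain ⟨h1, h2⟩ := hg (fun z => Fh (aff ζ s z)) 1 one_pos ((hF.aff ζ s).mono hsub)
    (fun z hz => hFT _ (hsub hz)) (fun z hz hpz => by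
      have h3 := hre z hz
      have h4 : ball (aff ζ s z) (t / 2) ⊆ {z | z.re < 0} := fun w hw => by
        have := re_ball hw
        change w.re < 0
        linarith
      have h5 := hDE (aff ζ s z) (t / 2) Fh (by positivity) (hF.mono h4) (fun w hw => hFT w (h4 hw))
        hpz
      rw [hfd z hz]
      have h6 : (s * ‖fderiv ℝ Fh (aff ζ s z)‖) ^ 2 =
          4 * l ^ 2 * (t / 2 * ‖fderiv ℝ Fh (aff ζ s z)‖) ^ 2 := by
        rw [hs]
        ring
      rw [h6]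
      have h7 : 0 ≤ 1 - Real.log (p (Fh (aff ζ s z))) := by
        have := Real.log_nonpos hpz.le (hp.le_one (Fh (aff ζ s z)))
        linarith
      calc 4 * l ^ 2 * (t / 2 * ‖fderiv ℝ Fh (aff ζ s z)‖) ^ 2 ≤
            4 * l ^ 2 * (D0 * (1 - Real.log (p (Fh (aff ζ s z))))) :=
            mul_le_mul_of_nonneg_left h5 (by positivity)
        _ = 4 * l * (l * D0) * (1 - Real.log (p (Fh (aff ζ s z)))) := by ring
        _ ≤ ε0 * (1 - Real.log (p (Fh (aff ζ s z)))) := by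
            refine mul_le_mul_of_nonneg_right ?_ h7
            have : 4 * l * (l * D0) ≤ 1 * ε0 :=
              mul_le_mul (by linarith) hlD (by positivity) zero_le_one
            linarith) (by simpa only [aff0] using hpζ)
  simp only [aff0] at h1 h2
  constructor
  · intro w hw
    have e1 : aff ζ s ((w - ζ) / s) = w := by
      unfold aff
      field_simp
      ring
    have e2 : (w - ζ) / s ∈ closedBall (0 : ℂ) (1 / 4) := by
      rw [mem_closedBall_zero_iff, norm_div, Complex.norm_real, Real.norm_of_nonneg hsp.le,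
        div_le_iff₀ hsp]
      linarith
    have e3 := h1 _ e2
    rw [hfd _ (closedBall_subset_ball (by norm_num) e2), e1] at e3
    exact e3
  · obtain ⟨a', ha', hpa, hle⟩ := h2 (-(3 / 16 : ℝ) : ℂ) (by
      rw [norm_neg, Complex.norm_real, Real.norm_of_nonneg (by norm_num)])
    refine ⟨aff ζ s a', ?_, hpa, hle⟩
    have h3 : a'.re ≤ -(5 / 32) := by
      rw [mem_closedBall, dist_eq_norm] at ha'
      have h4 := Complex.re_le_norm (a' - (-(3 / 16 : ℝ) : ℂ))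
      rw [Complex.sub_re, Complex.neg_re, Complex.ofReal_re] at h4
      linarith
    unfold aff
    rw [Complex.add_re, Complex.re_ofReal_mul]
    have h4 : s * a'.re ≤ s * -(5 / 32) := mul_le_mul_of_nonneg_left h3 hsp.le
    have h5 : (1 + 5 * l / 32) * ζ.re = ζ.re + s * -(5 / 32) := by
      rw [hs, ht]
      ring
    rw [h5]
    linarith

theorem growth (hT : Ctl T Hv k c C) (hc : 0 < c) (hC : 0 < C) (hk : 0 < k) (hp : Siz p C1)
    (hD0 : 0 < D0) (hDE : DE T p D0) : ∃ l D q : ℝ, 0 < l ∧ 0 < D ∧ 1 < q ∧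
      ∀ Fh : ℂ → Mat N, HolP {z | z.re < 0} Fh → (∀ z : ℂ, z.re < 0 → Fh z ∈ T) →
      ∀ ζ0 : ℂ, ζ0.re < 0 → 0 < p (Fh ζ0) → ∀ n : ℕ, ∃ ζ : ℂ, ζ.re ≤ q ^ n * ζ0.re ∧
        0 < p (Fh ζ) ∧ ∀ w : ℂ, ‖w - ζ‖ ≤ l * -ζ.re / 4 →
          (l * -ζ.re * ‖fderiv ℝ Fh w‖) ^ 2 ≤ 16 * (D ^ n * (1 - Real.log (p (Fh ζ0)))) := by
  obtain ⟨l, D, q, hl, hD, hq, hstep⟩ := grow_step hT hc hC hk hp hD0 hDE
  refine ⟨l, D, q, hl, hD, hq, fun Fh hF hFT ζ0 hζ0 hp0 => ?_⟩
  have key : ∀ n : ℕ, ∃ ζ : ℂ, ζ.re ≤ q ^ n * ζ0.re ∧ 0 < p (Fh ζ) ∧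
      1 - Real.log (p (Fh ζ)) ≤ D ^ n * (1 - Real.log (p (Fh ζ0))) := by
    intro n
    induction n with
    | zero => exact ⟨ζ0, by rw [pow_zero, one_mul], hp0, by rw [pow_zero, one_mul]⟩
    | succ n ih =>
      obtain ⟨ζ, h1, h2, h3⟩ := ih
      have hqn : 0 < q ^ n := by positivity
      have hneg : ζ.re < 0 := by nlinarith
      obtain ⟨-, ζ', h4, h5, h6⟩ := hstep Fh hF hFT ζ hneg h2
      refine ⟨ζ', ?_, h5, ?_⟩
      · calc ζ'.re ≤ q * ζ.re := h4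
          _ ≤ q * (q ^ n * ζ0.re) := mul_le_mul_of_nonneg_left h1 (by linarith)
          _ = q ^ (n + 1) * ζ0.re := by ring
      · calc _ ≤ D * (1 - Real.log (p (Fh ζ))) := h6
          _ ≤ D * (D ^ n * (1 - Real.log (p (Fh ζ0)))) := mul_le_mul_of_nonneg_left h3 hD.le
          _ = _ := by ring
  intro n
  obtain ⟨ζ, h1, h2, h3⟩ := key n
  have hqn : 0 < q ^ n := by positivity
  have hneg : ζ.re < 0 := by nlinarith
  obtain ⟨h4, -⟩ := hstep Fh hF hFT ζ hneg h2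
  exact ⟨ζ, h1, h2, fun w hw => (h4 w hw).trans (mul_le_mul_of_nonneg_left h3 (by norm_num))⟩

/-! ### the logarithmic coordinate -/

theorem exp_fderiv {φ : ℂ → Mat N} {ζ : ℂ} (h : DifferentiableAt ℝ φ (Complex.exp ζ)) :
    ‖fderiv ℝ (fun w => φ (Complex.exp w)) ζ‖ =
      ‖Complex.exp ζ‖ * ‖fderiv ℝ φ (Complex.exp ζ)‖ := by
  have h1 := (Complex.hasDerivAt_exp ζ).hasFDerivAt.restrictScalars ℝ
  have h2 := (h.hasFDerivAt.comp ζ h1).fderiv
  change ‖fderiv ℝ (φ ∘ Complex.exp) ζ‖ = _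
  rw [h2]
  have hL : ∀ v : ℂ, (ContinuousLinearMap.toSpanSingleton ℂ (Complex.exp ζ)).restrictScalars ℝ v =
      v * Complex.exp ζ := fun v => by
    rw [ContinuousLinearMap.coe_restrictScalars', ContinuousLinearMap.toSpanSingleton_apply,
      smul_eq_mul]
  have hpos : 0 < ‖Complex.exp ζ‖ := norm_pos_iff.2 (Complex.exp_ne_zero ζ)
  apply le_antisymm
  · refine ContinuousLinearMap.opNorm_le_bound _ (by positivity) fun v => ?_
    rw [ContinuousLinearMap.comp_apply, hL]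
    refine (ContinuousLinearMap.le_opNorm _ _).trans (le_of_eq ?_)
    rw [norm_mul]
    ring
  · rw [mul_comm, ← le_div_iff₀ hpos]
    refine ContinuousLinearMap.opNorm_le_bound _ (by positivity) fun v => ?_
    have h3 := ContinuousLinearMap.le_opNorm
      ((fderiv ℝ φ (Complex.exp ζ)).comp
        ((ContinuousLinearMap.toSpanSingleton ℂ (Complex.exp ζ)).restrictScalars ℝ))
      (v / Complex.exp ζ)
    rw [ContinuousLinearMap.comp_apply, hL, div_mul_cancel₀ _ (Complex.exp_ne_zero ζ),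
      norm_div] at h3
    refine h3.trans (le_of_eq ?_)
    ring

theorem circ_log {ζ z : ℂ} (h : ‖z‖ = Real.exp ζ.re) : ∃ w : ℂ, Complex.exp w = z ∧
    w.re = ζ.re ∧ ‖w - ζ‖ ≤ Real.pi := by
  set u : ℂ := z / Complex.exp ζ with hu
  have hun : ‖u‖ = 1 := by
    rw [hu, norm_div, h, Complex.norm_exp, div_self (Real.exp_pos _).ne']
  have hu0 : u ≠ 0 := by
    rw [← norm_pos_iff, hun]
    exact one_pos
  have hre : (Complex.log u).re = 0 := by rw [Complex.log_re, hun, Real.log_one]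
  refine ⟨ζ + Complex.log u, ?_, ?_, ?_⟩
  · rw [Complex.exp_add, Complex.exp_log hu0, hu, mul_div_cancel₀ _ (Complex.exp_ne_zero ζ)]
  · rw [Complex.add_re, hre, add_zero]
  · rw [add_sub_cancel_left]
    refine (Complex.norm_le_abs_re_add_abs_im _).trans ?_
    rw [hre, abs_zero, zero_add, Complex.log_im]
    exact Complex.abs_arg_le_pi u

/-! ### removable singularities -/

theorem annulus_le {a b M : ℝ} {f : ℂ → ℂ}
    (hf : ∀ z, a ≤ ‖z‖ → ‖z‖ ≤ b → DifferentiableAt ℂ f z)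
    (h1 : ∀ z, ‖z‖ = b → ‖f z‖ ≤ M) (h2 : ∀ z, ‖z‖ = a → ‖f z‖ ≤ M) {z : ℂ} (hz1 : a ≤ ‖z‖)
    (hz2 : ‖z‖ ≤ b) : ‖f z‖ ≤ M := by
  by_cases hza : ‖z‖ = a
  · exact h2 z hza
  by_cases hzb : ‖z‖ = b
  · exact h1 z hzb
  set U : Set ℂ := {w | a < ‖w‖ ∧ ‖w‖ < b} with hU
  have hUo : IsOpen U := (isOpen_lt continuous_const continuous_norm).inter
    (isOpen_lt continuous_norm continuous_const)
  have hcl : closure U ⊆ {w | a ≤ ‖w‖ ∧ ‖w‖ ≤ b} := by
    apply closure_minimal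
    · intro w hw
      exact ⟨hw.1.le, hw.2.le⟩
    · exact (isClosed_le continuous_const continuous_norm).inter
        (isClosed_le continuous_norm continuous_const)
  have hbound : Bornology.IsBounded U := by
    apply (isBounded_closedBall (x := (0 : ℂ)) (r := b)).subset
    intro w hw
    exact mem_closedBall_zero_iff.2 hw.2.le
  refine Complex.norm_le_of_forall_mem_frontier_norm_le (f := f) hbound ?_ ?_
    (subset_closure (show z ∈ U from ⟨lt_of_le_of_ne hz1 (Ne.symm hza), lt_of_le_of_ne hz2 hzb⟩))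
  · apply DifferentiableOn.diffContOnCl
    intro w hw
    have := hcl hw
    exact (hf w this.1 this.2).differentiableWithinAt
  · intro w hw
    have h3 := hcl hw.1
    have h4 : w ∉ U := by
      have := hw.2
      rwa [hUo.interior_eq] at this
    by_cases hwb : ‖w‖ = b
    · exact h1 w hwb
    · refine h2 w ?_
      by_contra hwa
      exact h4 ⟨lt_of_le_of_ne h3.1 (Ne.symm hwa), lt_of_le_of_ne h3.2 hwb⟩

theorem rem_sing {h : ℂ → ℂ} (hd : DifferentiableOn ℂ h (ball 0 1 \ {0})) (h0 : h 0 = 0)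
    {ρ ε : ℕ → ℝ} (hρ1 : ∀ n, 0 < ρ n ∧ ρ n < 1) (hρ : Tendsto ρ atTop (𝓝 0))
    (hε : Tendsto ε atTop (𝓝 0)) (hb : ∀ n z, ‖z‖ = ρ n → ‖z * h z‖ ≤ ε n) :
    ∃ ℓ : ℂ, Tendsto h (𝓝[≠] 0) (𝓝 ℓ) := by
  have hopen : IsOpen (ball (0 : ℂ) 1 \ {0}) := isOpen_ball.sdiff isClosed_singleton
  have key : ∀ e : ℝ, 0 < e → ∀ᶠ z in 𝓝[≠] (0 : ℂ), ‖z * h z‖ ≤ e := by
    intro e he
    obtain ⟨n, hn⟩ := eventually_atTop.1 (hε.eventually_lt_const he)
    rw [eventually_nhdsWithin_iff, Metric.eventually_nhds_iff]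
    refine ⟨ρ n, (hρ1 n).1, fun z hz hz0 => ?_⟩
    rw [dist_zero_right] at hz
    have hzp : 0 < ‖z‖ := norm_pos_iff.2 hz0
    obtain ⟨m, hm1, hm2⟩ := ((hρ.eventually_lt_const hzp).and (eventually_ge_atTop n)).exists
    refine annulus_le (a := ρ m) (b := ρ n) (f := fun z => z * h z) (fun w hw1 hw2 => ?_)
      (fun w hw => (hb n w hw).trans (hn n le_rfl).le) (fun w hw => (hb m w hw).trans (hn m hm2).le)
      hm1.le hz.le
    have hw : w ∈ ball (0 : ℂ) 1 \ {0} := by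
      refine ⟨mem_ball_zero_iff.2 (hw2.trans_lt (hρ1 n).2), ?_⟩
      intro h1
      rw [mem_singleton_iff.1 h1, norm_zero] at hw1
      linarith [(hρ1 m).1]
    exact differentiableAt_id.mul ((hd w hw).differentiableAt (hopen.mem_nhds hw))
  have ho : (fun z => h z - h 0) =o[𝓝[≠] 0] fun z => (z - 0)⁻¹ := by
    rw [Asymptotics.isLittleO_iff]
    intro e he
    filter_upwards [key e he, self_mem_nhdsWithin] with z hz hz0
    have hzp : 0 < ‖z‖ := norm_pos_iff.2 hz0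
    rw [h0, sub_zero, sub_zero, norm_inv, ← div_eq_mul_inv, le_div_iff₀ hzp]
    rw [norm_mul] at hz
    linarith
  have h1 := Complex.differentiableOn_update_limUnder_of_isLittleO (ball_mem_nhds (0 : ℂ) one_pos)
    hd ho
  have h2 : ContinuousAt (Function.update h 0 (limUnder (𝓝[≠] 0) h)) 0 :=
    (h1.differentiableAt (ball_mem_nhds (0 : ℂ) one_pos)).continuousAt
  refine ⟨limUnder (𝓝[≠] 0) h, ?_⟩
  rw [continuousAt_update_same] at h2
  exact h2

theorem exp_pow_lim {t q B : ℝ} (ht : 0 < t) (hq : 1 < q) (hB : 0 < B) :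
    Tendsto (fun n : ℕ => Real.exp (-(q ^ n * t)) * B ^ n) atTop (𝓝 0) := by
  have h1 : Tendsto (fun n : ℕ => (n : ℝ) ^ 1 / q ^ n) atTop (𝓝 0) :=
    tendsto_pow_const_div_const_pow_of_one_lt 1 hq
  have h2 : Tendsto (fun n : ℕ => t - (n : ℝ) ^ 1 / q ^ n * Real.log B) atTop
      (𝓝 (t - 0 * Real.log B)) := tendsto_const_nhds.sub (h1.mul_const _)
  rw [zero_mul, sub_zero] at h2
  have h3 : Tendsto (fun n : ℕ => q ^ n * (t - (n : ℝ) ^ 1 / q ^ n * Real.log B)) atTop atTop :=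
    (tendsto_pow_atTop_atTop_of_one_lt hq).atTop_mul_pos ht h2
  have h4 := Real.tendsto_exp_neg_atTop_nhds_zero.comp h3
  refine h4.congr fun n => ?_
  have hqn : q ^ n ≠ 0 := by positivity
  have h5 : B ^ n = Real.exp (n * Real.log B) := by
    rw [Real.exp_nat_mul, Real.exp_log hB]
  rw [h5, ← Real.exp_add]
  change Real.exp (-(q ^ n * (t - (n : ℝ) ^ 1 / q ^ n * Real.log B))) = _
  congr 1
  field_simp
  ring

end Pool.Agent.N155.QD
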