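import Mathlib

/-! A barrier: functions which satisfy a comparison principle are small if they are small on a
disc. -/

set_option autoImplicit false

open Filter Topology Metric Set

namespace Pool.Agent.N155.QD

/-- the comparison principle for `u` at `z0` -/
def CP (u : ℂ → ℝ) (z0 : ℂ) (k : ℝ) : Prop :=
  ∀ c : ℝ, k < c → ∀ (q : ℂ → ℝ) (G : ℂ → ℂ), (∀ᶠ z in 𝓝 z0, DifferentiableAt ℂ G z) →
    G z0 = 0 → (∀ᶠ z in 𝓝 z0, q z0 + (G z).re + c * ‖z - z0‖ ^ 2 ≤ q z) →
    ¬ ∀ᶠ z in 𝓝 z0, u z * Real.exp (q z) ≤ u z0 * Real.exp (q z0)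

/-- the logarithm of the absolute value of a holomorphic function without zeros -/
theorem log_loc {f : ℂ → ℂ} {z0 : ℂ} (hf : ∀ᶠ z in 𝓝 z0, DifferentiableAt ℂ f z) (h0 : f z0 ≠ 0) :
    ∃ G : ℂ → ℂ, (∀ᶠ z in 𝓝 z0, DifferentiableAt ℂ G z) ∧ G z0 = 0 ∧
      ∀ᶠ z in 𝓝 z0, Real.log ‖f z‖ = Real.log ‖f z0‖ + (G z).re := by
  have hc : ContinuousAt f z0 := hf.self_of_nhds.continuousAt
  have h1 : ∀ᶠ z in 𝓝 z0, f z / f z0 ∈ Complex.slitPlane := by
    have h2 : ContinuousAt (fun z => f z / f z0) z0 := hc.div_const _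
    have h3 : f z0 / f z0 ∈ Complex.slitPlane := by
      rw [div_self h0]
      exact Complex.one_mem_slitPlane
    exact h2.eventually (Complex.isOpen_slitPlane.mem_nhds h3)
  refine ⟨fun z => Complex.log (f z / f z0), ?_, ?_, ?_⟩
  · filter_upwards [hf, h1] with z h2 h3
    exact (h2.div_const _).clog h3
  · simp only [div_self h0, Complex.log_one]
  · filter_upwards [hc.eventually_ne h0] with z hz
    rw [Complex.log_re, norm_div, Real.log_div (norm_ne_zero_iff.2 hz) (norm_ne_zero_iff.2 h0)]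
    ring

theorem circle_id {t : ℝ} {z z1 : ℂ} : ‖(t : ℂ) ^ 2 - (starRingEnd ℂ) z1 * z‖ ^ 2 -
    t ^ 2 * ‖z - z1‖ ^ 2 = (t ^ 2 - ‖z‖ ^ 2) * (t ^ 2 - ‖z1‖ ^ 2) := by
  rw [← Complex.normSq_eq_norm_sq, ← Complex.normSq_eq_norm_sq, ← Complex.normSq_eq_norm_sq,
    ← Complex.normSq_eq_norm_sq, ← Complex.ofReal_pow]
  simp only [Complex.normSq_apply, Complex.sub_re, Complex.sub_im, Complex.mul_re, Complex.mul_im,
    Complex.conj_re, Complex.conj_im, Complex.ofReal_re, Complex.ofReal_im]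
  ring

/-- the function `- log (R ^ 2 - |z| ^ 2)` -/
theorem psi_loc {R c : ℝ} (hR : 0 < R) {z0 : ℂ} (hz0 : ‖z0‖ < R)
    (hc : c < R ^ 2 / (R ^ 2 - ‖z0‖ ^ 2) ^ 2) : ∃ G : ℂ → ℂ,
    (∀ᶠ z in 𝓝 z0, DifferentiableAt ℂ G z) ∧ G z0 = 0 ∧
      ∀ᶠ z in 𝓝 z0, -Real.log (R ^ 2 - ‖z0‖ ^ 2) + (G z).re + c * ‖z - z0‖ ^ 2 ≤
        -Real.log (R ^ 2 - ‖z‖ ^ 2) := by
  have hd0 : 0 < R ^ 2 - ‖z0‖ ^ 2 := by
    have := norm_nonneg z0
    nlinarith
  set f : ℂ → ℂ := fun z => (R : ℂ) ^ 2 - (starRingEnd ℂ) z0 * z with hf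
  have hf0 : f z0 = ((R ^ 2 - ‖z0‖ ^ 2 : ℝ) : ℂ) := by
    rw [hf]
    simp only
    rw [mul_comm, Complex.mul_conj, Complex.normSq_eq_norm_sq]
    push_cast
    ring
  have hf0n : ‖f z0‖ = R ^ 2 - ‖z0‖ ^ 2 := by
    rw [hf0, Complex.norm_real, Real.norm_of_nonneg hd0.le]
  have hf0' : f z0 ≠ 0 := by
    rw [← norm_pos_iff, hf0n]
    exact hd0
  have hfd : Differentiable ℂ f := by
    rw [hf]
    fun_prop
  obtain ⟨G, hG, hG0, hGl⟩ := log_loc (Eventually.of_forall fun z => hfd z) hf0'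
  refine ⟨fun z => -2 * G z, ?_, by simp only [hG0, mul_zero], ?_⟩
  · filter_upwards [hG] with z hz
    exact hz.const_mul _
  · have hcont : ContinuousAt (fun z => R ^ 2 / ‖f z‖ ^ 2) z0 := by
      refine ContinuousAt.div continuousAt_const
        ((hfd.continuous.continuousAt.norm).pow 2) ?_
      rw [hf0n]
      exact (pow_pos hd0 2).ne'
    have h1 : ∀ᶠ z in 𝓝 z0, c < R ^ 2 / ‖f z‖ ^ 2 := by
      refine hcont.eventually_const_lt ?_
      change c < R ^ 2 / ‖f z0‖ ^ 2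
      rw [hf0n]
      exact hc
    have h2 : ∀ᶠ z in 𝓝 z0, ‖z‖ < R := continuous_norm.continuousAt.eventually_lt_const hz0
    filter_upwards [hGl, h1, h2, hfd.continuous.continuousAt.eventually_ne hf0'] with z k1 k2 k3 k4
    have hfz : 0 < ‖f z‖ := norm_pos_iff.2 k4
    have hdz : 0 < R ^ 2 - ‖z‖ ^ 2 := by
      have := norm_nonneg z
      nlinarith
    have hid : ‖f z‖ ^ 2 - R ^ 2 * ‖z - z0‖ ^ 2 = (R ^ 2 - ‖z‖ ^ 2) * (R ^ 2 - ‖z0‖ ^ 2) := by
      rw [hf]
      exact circle_id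
    set s : ℝ := R ^ 2 / ‖f z‖ ^ 2 * ‖z - z0‖ ^ 2 with hs
    have hs1 : 1 - s = (R ^ 2 - ‖z‖ ^ 2) * (R ^ 2 - ‖z0‖ ^ 2) / ‖f z‖ ^ 2 := by
      rw [← hid, hs]
      field_simp
    have hs2 : 0 < 1 - s := by
      rw [hs1]
      positivity
    have h3 := Real.log_le_sub_one_of_pos hs2
    have h4 : Real.log (1 - s) = Real.log (R ^ 2 - ‖z‖ ^ 2) + Real.log (R ^ 2 - ‖z0‖ ^ 2) -
        2 * Real.log ‖f z‖ := by
      rw [hs1, Real.log_div (by positivity) (by positivity), Real.log_mul hdz.ne' hd0.ne',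
        Real.log_pow]
      norm_num
    have h5 : c * ‖z - z0‖ ^ 2 ≤ s := by
      rw [hs]
      exact mul_le_mul_of_nonneg_right k2.le (by positivity)
    have h6 : ((-2 : ℂ) * G z).re = -2 * (G z).re := by
      simp
    rw [h6]
    rw [hf0n] at k1
    linarith

/-- **The barrier.** -/
theorem har {u : ℂ → ℝ} {t R h L A B : ℝ} {z1 : ℂ} (ht : 0 < t) (htR : t < R) (hh : 0 < h)
    (hz1 : h < ‖z1‖) (hz1t : ‖z1‖ + h < t) (hA : 0 ≤ A) (hB : 0 < B) (hu0 : ∀ z, 0 ≤ u z)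
    (huc : ContinuousOn u (closedBall 0 t)) (huL : ∀ z ∈ closedBall (0 : ℂ) t, u z ≤ Real.exp L)
    (huA : ∀ z ∈ closedBall z1 h, u z ≤ Real.exp (L - A))
    (hcp : ∀ z0 ∈ ball (0 : ℂ) t, 0 < u z0 →
      ∃ k, k < B * (R ^ 2 / (R ^ 2 - ‖z0‖ ^ 2) ^ 2) ∧ CP u z0 k) :
    u 0 ≤ Real.exp (L - (A * (Real.log (t / ‖z1‖) / Real.log (2 * t / h)) -
      B * Real.log (R ^ 2 / (R ^ 2 - t ^ 2)))) := by
  have hz1p : 0 < ‖z1‖ := hh.trans hz1
  have hl : 0 < Real.log (2 * t / h) := Real.log_pos (by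
    rw [lt_div_iff₀ hh]
    linarith)
  set a : ℝ := A / Real.log (2 * t / h) with ha
  have ha0 : 0 ≤ a := by positivity
  set f : ℂ → ℂ := fun z => ((t : ℂ) ^ 2 - (starRingEnd ℂ) z1 * z) / (t * (z - z1)) with hf
  set q : ℂ → ℝ := fun z => a * Real.log ‖f z‖ +
    B * (-Real.log (R ^ 2 - ‖z‖ ^ 2) + Real.log (R ^ 2 - t ^ 2)) with hq
  have htc : (t : ℂ) ≠ 0 := by exact_mod_cast ht.ne'
  have hnum : ∀ z ∈ closedBall (0 : ℂ) t, (t : ℂ) ^ 2 - (starRingEnd ℂ) z1 * z ≠ 0 := by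
    intro z hz h0
    rw [mem_closedBall_zero_iff] at hz
    rw [sub_eq_zero] at h0
    have h1 : ‖(t : ℂ) ^ 2‖ = t ^ 2 := by
      rw [norm_pow, Complex.norm_real, Real.norm_of_nonneg ht.le]
    rw [h0, norm_mul, Complex.norm_conj] at h1
    nlinarith [norm_nonneg z]
  have hfne : ∀ z ∈ closedBall (0 : ℂ) t, z ≠ z1 → f z ≠ 0 := fun z hz hzz =>
    div_ne_zero (hnum z hz) (mul_ne_zero htc (sub_ne_zero.2 hzz))
  have hfd : ∀ z, z ≠ z1 → DifferentiableAt ℂ f z := by
    intro z hz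
    rw [hf]
    refine DifferentiableAt.div (by fun_prop) (by fun_prop) ?_
    exact mul_ne_zero htc (sub_ne_zero.2 hz)
  set Kc : Set ℂ := closedBall 0 t \ ball z1 h with hKc
  have hKcomp : IsCompact Kc := (isCompact_closedBall 0 t).diff isOpen_ball
  have hKz1 : ∀ z ∈ Kc, z ≠ z1 := by
    intro z hz h0
    apply hz.2
    rw [h0]
    exact mem_ball_self hh
  have hRt : 0 < R ^ 2 - t ^ 2 := by nlinarith
  have hRz : ∀ z ∈ closedBall (0 : ℂ) t, R ^ 2 - t ^ 2 ≤ R ^ 2 - ‖z‖ ^ 2 := by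
    intro z hz
    rw [mem_closedBall_zero_iff] at hz
    have := norm_nonneg z
    nlinarith
  have hqc : ContinuousOn q Kc := by
    intro z hz
    apply ContinuousAt.continuousWithinAt
    have h1 := hfne z hz.1 (hKz1 z hz)
    have h2 : ContinuousAt (fun z => Real.log ‖f z‖) z :=
      ((hfd z (hKz1 z hz)).continuousAt.norm).log (norm_ne_zero_iff.2 h1)
    have h3 : ContinuousAt (fun z : ℂ => Real.log (R ^ 2 - ‖z‖ ^ 2)) z :=
      ContinuousAt.log (by fun_prop) (hRt.trans_le (hRz z hz.1)).ne'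
    exact (h2.const_mul a).add ((h3.neg.add_const _).const_mul B)
  have hcont : ContinuousOn (fun z => u z * Real.exp (q z)) Kc :=
    (huc.mono sdiff_subset).mul (Real.continuous_exp.comp_continuousOn hqc)
  have h0K : (0 : ℂ) ∈ Kc := by
    refine ⟨mem_closedBall_self ht.le, fun h0 => ?_⟩
    rw [mem_ball, dist_eq_norm, zero_sub, norm_neg] at h0
    linarith
  obtain ⟨z0, hz0, hmax⟩ := hKcomp.exists_isMaxOn ⟨0, h0K⟩ hcont
  have hmax' : ∀ z ∈ Kc, u z * Real.exp (q z) ≤ u z0 * Real.exp (q z0) := fun z hz => hmax hz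
  have key : u z0 * Real.exp (q z0) ≤ Real.exp L := by
    by_contra hcon
    push Not at hcon
    have hup : 0 < u z0 := by
      rcases (hu0 z0).lt_or_eq with h1 | h1
      · exact h1
      · rw [← h1, zero_mul] at hcon
        exact absurd hcon (not_lt.2 (Real.exp_pos L).le)
    have hz0t := mem_closedBall_zero_iff.1 hz0.1
    -- the outer circle
    have hlt : ‖z0‖ < t := by
      refine lt_of_le_of_ne hz0t fun he => ?_
      apply absurd hcon
      push Not
      have h1 : ‖f z0‖ = 1 := by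
        have h2 := circle_id (t := t) (z := z0) (z1 := z1)
        rw [he, sub_self, zero_mul, sub_eq_zero, ← mul_pow] at h2
        have h3 : ‖(t : ℂ) ^ 2 - (starRingEnd ℂ) z1 * z0‖ = t * ‖z0 - z1‖ :=
          (pow_left_inj₀ (norm_nonneg _) (by positivity) two_ne_zero).1 h2
        rw [hf]
        simp only
        rw [norm_div, h3, norm_mul, Complex.norm_real, Real.norm_of_nonneg ht.le]
        refine div_self (mul_ne_zero ht.ne' (norm_ne_zero_iff.2 (sub_ne_zero.2 (hKz1 z0 hz0))))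
      have h2 : q z0 = 0 := by
        rw [hq]
        simp only
        rw [h1, Real.log_one, he]
        ring
      rw [h2, Real.exp_zero, mul_one]
      exact huL z0 hz0.1
    have hhz : h < ‖z0 - z1‖ := by
      have h1 : h ≤ ‖z0 - z1‖ := by
        have := hz0.2
        rw [mem_ball, dist_eq_norm, not_lt] at this
        exact this
      refine lt_of_le_of_ne h1 fun he => ?_
      apply absurd hcon
      push Not
      have h2 : ‖f z0‖ ≤ 2 * t / h := by
        rw [hf]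
        simp only
        rw [norm_div, norm_mul, Complex.norm_real, Real.norm_of_nonneg ht.le, ← he]
        have h3 : ‖(t : ℂ) ^ 2 - (starRingEnd ℂ) z1 * z0‖ ≤ 2 * t ^ 2 := by
          refine (norm_sub_le _ _).trans ?_
          rw [norm_pow, Complex.norm_real, Real.norm_of_nonneg ht.le, norm_mul, Complex.norm_conj]
          have h4 : ‖z1‖ * ‖z0‖ ≤ t * t :=
            mul_le_mul (by linarith) hz0t (norm_nonneg _) ht.le
          nlinarith
        rw [div_le_div_iff₀ (by positivity) hh]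
        have h5 := mul_le_mul_of_nonneg_right h3 hh.le
        nlinarith
      have h3 : Real.log ‖f z0‖ ≤ Real.log (2 * t / h) :=
        Real.log_le_log (norm_pos_iff.2 (hfne z0 hz0.1 (hKz1 z0 hz0))) h2
      have h4 : q z0 ≤ A := by
        rw [hq]
        simp only
        have h5 : a * Real.log ‖f z0‖ ≤ A := by
          calc a * Real.log ‖f z0‖ ≤ a * Real.log (2 * t / h) := mul_le_mul_of_nonneg_left h3 ha0
            _ = A := by rw [ha]; field_simp
        have h6 : Real.log (R ^ 2 - t ^ 2) ≤ Real.log (R ^ 2 - ‖z0‖ ^ 2) :=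
          Real.log_le_log hRt (hRz z0 hz0.1)
        nlinarith
      have h5 := huA z0 (by rw [mem_closedBall, dist_eq_norm]; exact he.symm.le)
      calc u z0 * Real.exp (q z0) ≤ Real.exp (L - A) * Real.exp A :=
            mul_le_mul h5 (Real.exp_le_exp.2 h4) (Real.exp_pos _).le (Real.exp_pos _).le
        _ = Real.exp L := by rw [← Real.exp_add]; congr 1; ring
    obtain ⟨k, hk, hCP⟩ := hcp z0 (mem_ball_zero_iff.2 hlt) hup
    obtain ⟨c, hkc, hcB⟩ := exists_between hk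
    have hz01 := hKz1 z0 hz0
    have hne1 : ∀ᶠ z in 𝓝 z0, z ≠ z1 := isOpen_ne.mem_nhds hz01
    obtain ⟨G1, hG1, hG10, hG1l⟩ := log_loc (f := f) (z0 := z0)
      (by filter_upwards [hne1] with z hz; exact hfd z hz) (hfne z0 hz0.1 hz01)
    obtain ⟨G2, hG2, hG20, hG2l⟩ := psi_loc (R := R) (c := c / B) (ht.trans htR)
      (hlt.trans htR) (by rw [div_lt_iff₀ hB, mul_comm]; exact hcB)
    refine hCP c hkc q (fun z => a * G1 z + B * G2 z) ?_ (by rw [hG10, hG20]; ring) ?_ ?_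
    · filter_upwards [hG1, hG2] with z h1 h2
      exact (h1.const_mul _).add (h2.const_mul _)
    · filter_upwards [hG1l, hG2l] with z h1 h2
      have h3 : ((a : ℂ) * G1 z + (B : ℂ) * G2 z).re = a * (G1 z).re + B * (G2 z).re := by
        rw [Complex.add_re, Complex.re_ofReal_mul, Complex.re_ofReal_mul]
      rw [h3]
      have h4 := mul_le_mul_of_nonneg_left h2 hB.le
      have h5 : B * (c / B * ‖z - z0‖ ^ 2) = c * ‖z - z0‖ ^ 2 := by
        field_simp
      rw [mul_add, mul_add, h5] at h4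
      simp only [hq]
      rw [h1]
      nlinarith
    · have h1 : ∀ᶠ z in 𝓝 z0, z ∈ Kc := by
        have h2 : ball (0 : ℂ) t ∩ (closedBall z1 h)ᶜ ∈ 𝓝 z0 := by
          refine (isOpen_ball.inter isClosed_closedBall.isOpen_compl).mem_nhds
            ⟨mem_ball_zero_iff.2 hlt, ?_⟩
          rw [mem_compl_iff, mem_closedBall, dist_eq_norm, not_le]
          exact hhz
        filter_upwards [h2] with z hz
        exact ⟨ball_subset_closedBall hz.1, fun h3 => hz.2 (ball_subset_closedBall h3)⟩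
      filter_upwards [h1] with z hz
      exact hmax' z hz
  have h1 := (hmax' 0 h0K).trans key
  have h2 : ‖f 0‖ = t / ‖z1‖ := by
    rw [hf]
    simp only [mul_zero, sub_zero, zero_sub]
    rw [norm_div, norm_pow, norm_mul, norm_neg, Complex.norm_real, Real.norm_of_nonneg ht.le]
    field_simp
  have h3 : q 0 = A * (Real.log (t / ‖z1‖) / Real.log (2 * t / h)) -
      B * Real.log (R ^ 2 / (R ^ 2 - t ^ 2)) := by
    rw [hq]
    simp only
    rw [h2, norm_zero, Real.log_div (by nlinarith) hRt.ne', ha]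
    have : R ^ 2 - 0 ^ 2 = R ^ 2 := by ring
    rw [this]
    ring
  rw [← h3, Real.exp_sub, le_div_iff₀ (Real.exp_pos _)]
  exact h1

end Pool.Agent.N155.QD
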