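import Pool.Agent.N155.Q.Pf

/-! The local behaviour of the size of a form along a curve, and a comparison principle. -/

set_option autoImplicit false

open Filter Topology Metric Set MvPolynomial LinearAlgebra.Projectivization

namespace Pool.Agent.N155.QD

open Pool.Agent.Y190.OP Pool.Agent.W602.GT Pool.Agent.TH143.GT Pool.Agent.N155
  Pool.Agent.N155.BB Pool.Agent.N155.GD

variable {n : ℕ}

theorem exp_le_one_sub {t : ℝ} (h0 : 0 ≤ t) (h1 : t ≤ 1 / 2) : Real.exp (-2 * t) ≤ 1 - t := by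
  have h2 : 0 < 1 - t := by linarith
  have h3 := Real.one_sub_inv_le_log_of_pos h2
  have h4 : -2 * t ≤ 1 - (1 - t)⁻¹ := by
    have h5 : 1 - (1 - t)⁻¹ = -t / (1 - t) := by
      field_simp
      ring
    rw [h5, le_div_iff₀ h2]
    nlinarith
  calc Real.exp (-2 * t) ≤ Real.exp (Real.log (1 - t)) := Real.exp_le_exp.2 (h4.trans h3)
    _ = 1 - t := Real.exp_log h2

theorem lip_near {W : Set ℂ} {φ : ℂ → Mat (n + 1)} (hφ : HolP W φ) {z0 : ℂ} (hz0 : z0 ∈ W) {S : ℝ}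
    (hS : ‖fderiv ℝ φ z0‖ ^ 2 < S) : ∀ᶠ z in 𝓝 z0, ‖φ z - φ z0‖ ^ 2 ≤ S * ‖z - z0‖ ^ 2 := by
  have hS0 : 0 ≤ S := (by positivity : (0 : ℝ) ≤ ‖fderiv ℝ φ z0‖ ^ 2).trans hS.le
  have h1 : ‖fderiv ℝ φ z0‖ < √S := Real.lt_sqrt_of_sq_lt hS
  have h2 := (hφ.differentiableAt hz0).hasFDerivAt.isLittleO.def (sub_pos.2 h1)
  filter_upwards [h2] with z hz
  have h3 : ‖φ z - φ z0‖ ≤ √S * ‖z - z0‖ := by
    have h4 : φ z - φ z0 = (φ z - φ z0 - fderiv ℝ φ z0 (z - z0)) + fderiv ℝ φ z0 (z - z0) := by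
      abel
    rw [h4]
    refine (norm_add_le _ _).trans ?_
    have h5 := (fderiv ℝ φ z0).le_opNorm (z - z0)
    linarith
  calc ‖φ z - φ z0‖ ^ 2 ≤ (√S * ‖z - z0‖) ^ 2 := pow_le_pow_left₀ (norm_nonneg _) h3 2
    _ = S * ‖z - z0‖ ^ 2 := by rw [mul_pow, Real.sq_sqrt hS0]

/-- the local behaviour -/
theorem pf_loc {P : MvPolynomial (Fin (n + 1)) ℂ} {e : ℕ} (hP : P.IsHomogeneous e) {A : ℝ}
    (hA : 0 < A) : ∃ C1 : ℝ, 0 < C1 ∧ ∀ (W : Set ℂ) (φ : ℂ → Mat (n + 1)), HolP W φ →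
      ∀ z0 ∈ W, pf P e A (φ z0) ≠ 0 → ∀ S : ℝ, ‖fderiv ℝ φ z0‖ ^ 2 < S →
      ∃ E : ℂ → ℂ, (∀ᶠ z in 𝓝 z0, DifferentiableAt ℂ E z) ∧ E z0 = 1 ∧
        ∀ᶠ z in 𝓝 z0, pf P e A (φ z0) * ‖E z‖ * Real.exp (-(C1 * S * ‖z - z0‖ ^ 2)) ≤
          pf P e A (φ z) := by
  set Cn : ℝ := ((n : ℝ) + 1) ^ 3 with hCn
  have hCnp : 0 < Cn := by positivity
  refine ⟨e * Cn + 1, by positivity, fun W φ hφ z0 hz0 hne S hS => ?_⟩
  have hS0 : 0 ≤ S := (by positivity : (0 : ℝ) ≤ ‖fderiv ℝ φ z0‖ ^ 2).trans hS.le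
  obtain ⟨V, g, hV, hzV, hg, hφg⟩ := hφ z0 hz0
  set y : Fin (n + 1) → ℂ := g z0 with hy
  have hy0 : y ≠ 0 := (hφg z0 hzV).1
  have hφ0 : φ z0 = Phi y := (hφg z0 hzV).2
  have hnsq := nsq_ne hy0
  have hPy : eval y P ≠ 0 := by
    intro h0
    apply hne
    rw [hφ0, pf_Phi hP A hy0, h0, norm_zero, zero_div]
  have hgd : ∀ z ∈ V, DifferentiableAt ℂ g z := fun z hz => (hg z hz).differentiableAt (hV.mem_nhds hz)
  have hgd' : ∀ z ∈ V, ∀ j, DifferentiableAt ℂ (fun z => g z j) z := fun z hz j =>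
    differentiableAt_pi.1 (hgd z hz) j
  have hipd : ∀ z ∈ V, DifferentiableAt ℂ (fun z => ip (g z) y) z := fun z hz => by
    unfold ip
    exact DifferentiableAt.fun_sum fun j _ => (hgd' z hz j).mul_const _
  have hip0 : ip y y ≠ 0 := hnsq
  have hipne : ∀ᶠ z in 𝓝 z0, ip (g z) y ≠ 0 := (hipd z0 hzV).continuousAt.eventually_ne hip0
  have hPd : ∀ z ∈ V, DifferentiableAt ℂ (fun z => eval (g z) P) z := fun z hz => by
    have h1 := (AnalyticOnNhd.eval_mvPolynomial (𝕜 := ℂ) P (g z) (mem_univ _)).differentiableAt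
    exact DifferentiableAt.comp (f := g) z h1 (hgd z hz)
  refine ⟨fun z => eval (g z) P / (eval y P * (ip (g z) y / nsq y) ^ e), ?_, ?_, ?_⟩
  · filter_upwards [hipne, hV.mem_nhds hzV] with z h1 h2
    refine (hPd z h2).div ((((hipd z h2).div_const _).pow e).const_mul _) ?_
    exact mul_ne_zero hPy (pow_ne_zero _ (div_ne_zero h1 hnsq))
  · change eval y P / (eval y P * (ip y y / nsq y) ^ e) = 1
    have h1 : ip y y / nsq y = 1 := div_self hnsq
    rw [h1, one_pow, mul_one, div_self hPy]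
  · have hsm : ∀ᶠ z in 𝓝 z0, Cn * (S * ‖z - z0‖ ^ 2) < 1 / 2 := by
      have h1 : Continuous fun z : ℂ => Cn * (S * ‖z - z0‖ ^ 2) := by fun_prop
      have h2 := h1.tendsto z0
      simp only [sub_self, norm_zero, ne_eq, OfNat.ofNat_ne_zero, not_false_eq_true, zero_pow,
        mul_zero] at h2
      exact h2.eventually_lt_const (by norm_num)
    filter_upwards [hipne, hV.mem_nhds hzV, hsm, lip_near hφ hz0 hS] with z h1 h2 h3 h4
    set x : Fin (n + 1) → ℂ := g z with hx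
    have hx0 : x ≠ 0 := (hφg z h2).1
    have hφz : φ z = Phi x := (hφg z h2).2
    have hnx := nr_pos hx0
    have hny := nr_pos hy0
    have hipn : 0 < ‖ip x y‖ := norm_pos_iff.2 h1
    rw [hφz, hφ0] at h4
    set t : ℝ := Cn * ‖Phi x - Phi y‖ ^ 2 with ht
    have ht0 : 0 ≤ t := by positivity
    have ht1 : t ≤ Cn * (S * ‖z - z0‖ ^ 2) := mul_le_mul_of_nonneg_left h4 hCnp.le
    have h5 := pyth hy0 x
    have h6 := pyth_le (y := y) hx0
    rw [h5] at h6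
    -- the cosine
    set c : ℝ := ‖ip x y‖ / (nr x * nr y) with hc
    have hcp : 0 < c := by positivity
    have hc2 : 1 - t ≤ c ^ 2 := by
      have h7 : c ^ 2 = ‖ip x y‖ ^ 2 / nr y ^ 2 / nr x ^ 2 := by
        rw [hc]
        field_simp
      rw [h7, le_div_iff₀ (by positivity)]
      have h8 : t * nr x ^ 2 = Cn * ‖Phi x - Phi y‖ ^ 2 * nr x ^ 2 := by rw [ht]
      nlinarith
    have hcexp : Real.exp (-t) ≤ c := by
      have h7 := (exp_le_one_sub ht0 (ht1.trans h3.le)).trans hc2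
      have h8 : Real.exp (-2 * t) = Real.exp (-t) ^ 2 := by
        rw [← Real.exp_nat_mul]
        congr 1
        push_cast
        ring
      rw [h8] at h7
      exact le_of_sq_le_sq h7 hcp.le
    have hpow : Real.exp (-((e * Cn + 1) * S * ‖z - z0‖ ^ 2)) ≤ c ^ e := by
      refine le_trans ?_ (pow_le_pow_left₀ (Real.exp_pos _).le hcexp e)
      rw [← Real.exp_nat_mul]
      apply Real.exp_le_exp.2
      have h9 : (0 : ℝ) ≤ S * ‖z - z0‖ ^ 2 := by positivity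
      have h10 : (e : ℝ) * t ≤ e * (Cn * (S * ‖z - z0‖ ^ 2)) :=
        mul_le_mul_of_nonneg_left ht1 (Nat.cast_nonneg e)
      nlinarith
    rw [hφz, hφ0, pf_Phi hP A hx0, pf_Phi hP A hy0, norm_div, norm_mul, norm_pow, norm_div,
      nsq_nr y, Complex.norm_real, Real.norm_of_nonneg (by positivity : (0 : ℝ) ≤ nr y ^ 2)]
    have hPyn : 0 < ‖eval y P‖ := norm_pos_iff.2 hPy
    have h11 : ‖eval y P‖ / (A * nr y ^ e) * (‖eval x P‖ / (‖eval y P‖ *
        (‖ip x y‖ / nr y ^ 2) ^ e)) = ‖eval x P‖ / (A * nr x ^ e) / c ^ e := by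
      rw [hc]
      rw [div_pow, div_pow, mul_pow]
      have e1 : (nr y ^ 2) ^ e = nr y ^ e * nr y ^ e := by rw [← pow_mul, two_mul, pow_add]
      rw [e1]
      have hye := (pow_pos hny e).ne'
      have hxe := (pow_pos hnx e).ne'
      have hie := (pow_pos hipn e).ne'
      field_simp
    rw [h11, div_mul_eq_mul_div, div_le_iff₀ (pow_pos hcp e)]
    refine mul_le_mul_of_nonneg_left hpow ?_
    positivity

/-- the comparison principle: the function `exp q` times the size of the form has no local maximum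
if `q` is sufficiently subharmonic -/
theorem pf_nomax {P : MvPolynomial (Fin (n + 1)) ℂ} {e : ℕ} {A C1 : ℝ}
    (hloc : ∀ (W : Set ℂ) (φ : ℂ → Mat (n + 1)), HolP W φ →
      ∀ z0 ∈ W, pf P e A (φ z0) ≠ 0 → ∀ S : ℝ, ‖fderiv ℝ φ z0‖ ^ 2 < S →
      ∃ E : ℂ → ℂ, (∀ᶠ z in 𝓝 z0, DifferentiableAt ℂ E z) ∧ E z0 = 1 ∧
        ∀ᶠ z in 𝓝 z0, pf P e A (φ z0) * ‖E z‖ * Real.exp (-(C1 * S * ‖z - z0‖ ^ 2)) ≤
          pf P e A (φ z)) {W : Set ℂ} {φ : ℂ → Mat (n + 1)} (hφ : HolP W φ) {z0 : ℂ} (hz0 : z0 ∈ W)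
    (hp : 0 < pf P e A (φ z0)) {S c : ℝ} (hS : ‖fderiv ℝ φ z0‖ ^ 2 < S) (hc : C1 * S < c)
    {q : ℂ → ℝ} {G : ℂ → ℂ} (hG : ∀ᶠ z in 𝓝 z0, DifferentiableAt ℂ G z) (hG0 : G z0 = 0)
    (hq : ∀ᶠ z in 𝓝 z0, q z0 + (G z).re + c * ‖z - z0‖ ^ 2 ≤ q z)
    (hmax : ∀ᶠ z in 𝓝 z0, pf P e A (φ z) * Real.exp (q z) ≤ pf P e A (φ z0) * Real.exp (q z0)) :
    False := by
  obtain ⟨E, hE, hE0, hEl⟩ := hloc W φ hφ z0 hz0 hp.ne' S hS
  set f : ℂ → ℂ := fun z => E z * Complex.exp (G z) with hf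
  have hf0 : f z0 = 1 := by rw [hf]; simp only [hE0, hG0, Complex.exp_zero, mul_one]
  have hkey : ∀ᶠ z in 𝓝 z0, ‖f z‖ ≤ Real.exp (-((c - C1 * S) * ‖z - z0‖ ^ 2)) := by
    filter_upwards [hEl, hq, hmax] with z h1 h2 h3
    have h4 : pf P e A (φ z0) * ‖E z‖ * Real.exp (-(C1 * S * ‖z - z0‖ ^ 2)) *
        Real.exp (q z0 + (G z).re + c * ‖z - z0‖ ^ 2) ≤ pf P e A (φ z0) * Real.exp (q z0) := by
      refine le_trans ?_ h3
      exact mul_le_mul h1 (Real.exp_le_exp.2 h2) (Real.exp_pos _).le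
        ((by positivity : (0 : ℝ) ≤ pf P e A (φ z0) * ‖E z‖ *
          Real.exp (-(C1 * S * ‖z - z0‖ ^ 2))).trans h1)
    have h5 : pf P e A (φ z0) * ‖E z‖ * Real.exp (-(C1 * S * ‖z - z0‖ ^ 2)) *
        Real.exp (q z0 + (G z).re + c * ‖z - z0‖ ^ 2) =
        pf P e A (φ z0) * Real.exp (q z0) * (‖E z‖ * Real.exp (G z).re *
          Real.exp ((c - C1 * S) * ‖z - z0‖ ^ 2)) := by
      have e1 : Real.exp (q z0 + (G z).re + c * ‖z - z0‖ ^ 2) * Real.exp (-(C1 * S * ‖z - z0‖ ^ 2)) =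
          Real.exp (q z0) * Real.exp (G z).re * Real.exp ((c - C1 * S) * ‖z - z0‖ ^ 2) := by
        rw [← Real.exp_add, ← Real.exp_add, ← Real.exp_add]
        congr 1
        ring
      calc _ = pf P e A (φ z0) * ‖E z‖ * (Real.exp (q z0 + (G z).re + c * ‖z - z0‖ ^ 2) *
            Real.exp (-(C1 * S * ‖z - z0‖ ^ 2))) := by ring
        _ = _ := by rw [e1]; ring
    rw [h5] at h4
    have h6 : 0 < pf P e A (φ z0) * Real.exp (q z0) := by positivity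
    have h7 := le_of_mul_le_mul_left (h4.trans (mul_one _).symm.le) h6
    rw [hf]
    simp only
    rw [norm_mul, Complex.norm_exp, Real.exp_neg, ← one_div, le_div_iff₀ (Real.exp_pos _)]
    exact h7
  have hlm : IsLocalMax (norm ∘ f) z0 := by
    filter_upwards [hkey] with z hz
    change ‖f z‖ ≤ ‖f z0‖
    rw [hf0, norm_one]
    refine hz.trans (Real.exp_le_one_iff.2 ?_)
    have : 0 ≤ (c - C1 * S) * ‖z - z0‖ ^ 2 := mul_nonneg (by linarith) (by positivity)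
    linarith
  have hfd : ∀ᶠ z in 𝓝 z0, DifferentiableAt ℂ f z := by
    filter_upwards [hE, hG] with z h1 h2
    exact h1.mul h2.cexp
  have hconst := Complex.eventually_eq_of_isLocalMax_norm hfd hlm
  have hcomb := hconst.and hkey
  rw [Metric.eventually_nhds_iff] at hcomb
  obtain ⟨ε, hε, h8⟩ := hcomb
  have hz1 : dist (z0 + ((ε / 2 : ℝ) : ℂ)) z0 < ε := by
    rw [dist_eq_norm, add_sub_cancel_left, Complex.norm_real, Real.norm_of_nonneg (by positivity)]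
    linarith
  obtain ⟨h9, h10⟩ := h8 hz1
  rw [h9, hf0, norm_one, add_sub_cancel_left, Complex.norm_real,
    Real.norm_of_nonneg (by positivity)] at h10
  have h11 : Real.exp (-((c - C1 * S) * (ε / 2) ^ 2)) < 1 := by
    rw [Real.exp_lt_one_iff]
    have : 0 < (c - C1 * S) * (ε / 2) ^ 2 := mul_pos (by linarith) (by positivity)
    linarith
  linarith

end Pool.Agent.N155.QD
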