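import Pool.Agent.N155.Q.Har
import Pool.Agent.N155.Q.Loc

/-! An estimate of the derivative of a curve by the size of a form at the center. -/

set_option autoImplicit false

open Filter Topology Metric Set MvPolynomial

namespace Pool.Agent.N155.QD

open Pool.Agent.Y190.OP Pool.Agent.W602.GT Pool.Agent.TH143.GT Pool.Agent.N155
  Pool.Agent.N155.BB Pool.Agent.N155.GD

variable {N : ℕ}

/-- the values of the differentials control the derivative -/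
def Ctl (T : Set (Mat N)) {τ : Type} (Hv : τ → (ℂ → Mat N) → ℂ → ℂ) (k : ℕ) (c C : ℝ) : Prop :=
  ∀ (W : Set ℂ) (φ : ℂ → Mat N), IsOpen W → HolP W φ → (∀ z ∈ W, φ z ∈ T) →
    (∀ a, DifferentiableOn ℂ (Hv a φ) W) ∧ ∀ t ∈ W, (∀ a, ‖Hv a φ t‖ ≤ C * ‖fderiv ℝ φ t‖ ^ k) ∧
      ∃ a, c * ‖fderiv ℝ φ t‖ ^ k ≤ ‖Hv a φ t‖

/-- the properties of the size of a form -/
structure Siz (p : Mat N → ℝ) (C1 : ℝ) : Prop where
  pos : 0 < C1
  nonneg : ∀ M, 0 ≤ p M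
  le_one : ∀ M, p M ≤ 1
  cont : ∀ (W : Set ℂ) (φ : ℂ → Mat N), HolP W φ → ∀ z ∈ W, ContinuousAt (fun z => p (φ z)) z
  cp : ∀ (W : Set ℂ) (φ : ℂ → Mat N), HolP W φ → ∀ z0 ∈ W, 0 < p (φ z0) →
    CP (fun z => p (φ z)) z0 (C1 * ‖fderiv ℝ φ z0‖ ^ 2)

/-- the gauge -/
def Gau (p : Mat N → ℝ) (L ε : ℝ) (W : Set ℂ) (φ : ℂ → Mat N) : Prop :=
  ∀ z ∈ W, 0 < p (φ z) → ‖fderiv ℝ φ z‖ ^ 2 ≤ ε * (L - Real.log (p (φ z)))

variable {T : Set (Mat N)} {τ : Type} {Hv : τ → (ℂ → Mat N) → ℂ → ℂ} {k : ℕ} {c C C1 : ℝ}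
  {p : Mat N → ℝ}

theorem schw {H : ℂ → ℂ} {z1 : ℂ} {ρ B : ℝ} (hH : DifferentiableOn ℂ H (ball z1 ρ)) (hρ : 0 < ρ)
    (hB : ∀ z ∈ ball z1 ρ, ‖H z‖ ≤ B) {z : ℂ} (hz : z ∈ ball z1 ρ) :
    ‖H z - H z1‖ ≤ 2 * B / ρ * ‖z - z1‖ := by
  rw [← dist_eq_norm, ← dist_eq_norm]
  refine Complex.dist_le_div_mul_dist_of_mapsTo_ball hH (fun w hw => ?_) hz
  rw [mem_closedBall, dist_eq_norm]
  have h1 := norm_sub_le (H w) (H z1)
  have h2 := hB w hw
  have h3 := hB z1 (mem_ball_self hρ)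
  linarith

/-- the derivative is bounded below near points where it is comparable with its maximum -/
theorem disc_low (hT : Ctl T Hv k c C) (hc : 0 < c) (hC : 0 < C) (hk : 0 < k) :
    ∃ c0 l : ℝ, 0 < c0 ∧ c0 ≤ 1 ∧ 0 < l ∧ l ≤ 1 / 2 ∧ ∀ (φ : ℂ → Mat N) (z1 : ℂ) (ρ κ : ℝ), 0 < ρ →
      0 < κ → HolP (ball z1 ρ) φ → (∀ z ∈ ball z1 ρ, φ z ∈ T) →
      (∀ z ∈ ball z1 ρ, ‖fderiv ℝ φ z‖ ≤ 2 * κ) → ‖fderiv ℝ φ z1‖ = κ →
      ∀ z ∈ closedBall z1 (l * ρ), c0 * κ ≤ ‖fderiv ℝ φ z‖ := by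
  set c0 : ℝ := min 1 (c / (2 * C)) / 2 with hc0
  set l : ℝ := min (1 / 2) (c / (4 * C * 2 ^ k)) with hl
  have hm : 0 < min 1 (c / (2 * C)) := lt_min one_pos (by positivity)
  have hc0p : 0 < c0 := by positivity
  have hc01 : c0 ≤ 1 := by
    have := min_le_left 1 (c / (2 * C))
    rw [hc0]
    linarith
  have hlp : 0 < l := lt_min (by norm_num) (by positivity)
  refine ⟨c0, l, hc0p, hc01, hlp, min_le_left _ _, fun φ z1 ρ κ hρ hκ hφ hφT hbd hκ1 z hz => ?_⟩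
  have hl2 : l ≤ 1 / 2 := min_le_left _ _
  have hzn : ‖z - z1‖ ≤ l * ρ := by
    rw [← dist_eq_norm]
    exact hz
  have hzb : z ∈ ball z1 ρ := by
    rw [mem_ball, dist_eq_norm]
    nlinarith
  obtain ⟨h1, h2⟩ := hT (ball z1 ρ) φ isOpen_ball hφ hφT
  obtain ⟨-, a, ha⟩ := h2 z1 (mem_ball_self hρ)
  rw [hκ1] at ha
  have hB : ∀ w ∈ ball z1 ρ, ‖Hv a φ w‖ ≤ C * (2 * κ) ^ k := fun w hw =>
    ((h2 w hw).1 a).trans (mul_le_mul_of_nonneg_left
      (pow_le_pow_left₀ (norm_nonneg _) (hbd w hw) k) hC.le)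
  have h3 := schw (h1 a) hρ hB hzb
  have h4 : 2 * (C * (2 * κ) ^ k) / ρ * ‖z - z1‖ ≤ c * κ ^ k / 2 := by
    have h5 : 2 * (C * (2 * κ) ^ k) / ρ * ‖z - z1‖ ≤ 2 * (C * (2 * κ) ^ k) / ρ * (l * ρ) :=
      mul_le_mul_of_nonneg_left hzn (by positivity)
    have h6 : 2 * (C * (2 * κ) ^ k) / ρ * (l * ρ) = 2 * C * 2 ^ k * κ ^ k * l := by
      rw [mul_pow]
      field_simp
    have h7 : l ≤ c / (4 * C * 2 ^ k) := min_le_right _ _
    have h8 : 2 * C * 2 ^ k * κ ^ k * l ≤ 2 * C * 2 ^ k * κ ^ k * (c / (4 * C * 2 ^ k)) :=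
      mul_le_mul_of_nonneg_left h7 (by positivity)
    have h9 : 2 * C * 2 ^ k * κ ^ k * (c / (4 * C * 2 ^ k)) = c * κ ^ k / 2 := by
      field_simp
      ring
    linarith
  have h5 := norm_sub_norm_le (Hv a φ z1) (Hv a φ z)
  rw [norm_sub_rev] at h5
  have h6 := (h2 z hzb).1 a
  by_contra hcon
  push Not at hcon
  have h7 : ‖fderiv ℝ φ z‖ ^ k ≤ (c0 * κ) ^ k := pow_le_pow_left₀ (norm_nonneg _) hcon.le k
  have h8 : (c0 * κ) ^ k ≤ c0 * κ ^ k := by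
    rw [mul_pow]
    refine mul_le_mul_of_nonneg_right ?_ (by positivity)
    exact pow_le_of_le_one hc0p.le hc01 hk.ne'
  have h9 : C * ‖fderiv ℝ φ z‖ ^ k ≤ C * (c0 * κ ^ k) :=
    mul_le_mul_of_nonneg_left (h7.trans h8) hC.le
  have h10 : c0 ≤ c / (2 * C) / 2 := by
    rw [hc0]
    exact div_le_div_of_nonneg_right (min_le_right _ _) zero_le_two
  have h11 : C * (c0 * κ ^ k) ≤ C * (c / (2 * C) / 2 * κ ^ k) :=
    mul_le_mul_of_nonneg_left (mul_le_mul_of_nonneg_right h10 (by positivity)) hC.le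
  have h12 : C * (c / (2 * C) / 2 * κ ^ k) = c * κ ^ k / 4 := by
    field_simp
    ring
  have h13 : 0 < c * κ ^ k := by positivity
  linarith

theorem xlog {x : ℝ} (hx : 0 < x) (hx1 : x < 1) : x * Real.log (1 / x) ≤ 2 ∧
    x * Real.log (1 / x) ^ 2 ≤ 4 := by
  have hs := Real.sqrt_pos.2 hx
  have hss : √x * √x = x := Real.mul_self_sqrt hx.le
  have h0 : 0 ≤ Real.log (1 / x) := Real.log_nonneg (by rw [le_div_iff₀ hx]; linarith)
  have h1 : √x * Real.log (1 / x) ≤ 2 := by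
    have h2 : Real.log (1 / x) = 2 * Real.log (1 / √x) := by
      rw [one_div, one_div, Real.log_inv, Real.log_inv, Real.log_sqrt hx.le]
      ring
    have h3 : Real.log (1 / √x) ≤ 1 / √x := (Real.log_le_sub_one_of_pos (by positivity)).trans
      (by linarith)
    rw [h2]
    calc √x * (2 * Real.log (1 / √x)) ≤ √x * (2 * (1 / √x)) :=
          mul_le_mul_of_nonneg_left (by linarith) hs.le
      _ = 2 := by field_simp
  have hs1 : √x ≤ 1 := by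
    rw [Real.sqrt_le_one]
    exact hx1.le
  constructor
  · calc x * Real.log (1 / x) = √x * (√x * Real.log (1 / x)) := by rw [← mul_assoc, hss]
      _ ≤ 1 * 2 := mul_le_mul hs1 h1 (by positivity) zero_le_one
      _ = 2 := one_mul 2
  · calc x * Real.log (1 / x) ^ 2 = (√x * Real.log (1 / x)) ^ 2 := by
          rw [mul_pow, Real.sq_sqrt hx.le]
      _ ≤ 2 ^ 2 := pow_le_pow_left₀ (by positivity) h1 2
      _ = 4 := by norm_num

theorem arith_h {ρ l z c0 C1 κ μ V : ℝ} (hρp : 0 < ρ) (hρ4 : ρ ≤ 1 / 4) (hl : 0 < l)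
    (hl2 : l ≤ 1 / 2) (hc0 : 0 < c0) (hC1 : 0 < C1) (hκ : 0 < κ) (hz1ρ : z = 1 / 2 - 2 * ρ)
    (hcase : l * ρ < z) (hμρ : μ = 2 * ρ * κ)
    (hVA : c0 ^ 2 * κ ^ 2 / (c0 ^ 2 * l / (4 + 64 * C1)) * (Real.log ((1 / 2 - ρ) / z) /
      Real.log (2 * (1 / 2 - ρ) / (l * ρ))) - 5 * C1 * μ ^ 2 *
      Real.log ((1 / 2) ^ 2 / ((1 / 2) ^ 2 - (1 / 2 - ρ) ^ 2)) ≤ V) : μ ^ 2 ≤ V := by
  have hlρp : 0 < l * ρ := by positivity
  have hμ : 0 < μ := by rw [hμρ]; positivity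
  set ε0 : ℝ := c0 ^ 2 * l / (4 + 64 * C1) with hε0
  have hε0p : 0 < ε0 := by positivity
  set A : ℝ := c0 ^ 2 * κ ^ 2 / ε0 with hA
  have hA0 : 0 < A := by positivity
  set ℓ : ℝ := Real.log (1 / (l * ρ)) with hℓ
  have hx1 : l * ρ < 1 := by nlinarith
  obtain ⟨hx2, hx3⟩ := xlog hlρp hx1
  rw [← hℓ] at hx2 hx3
  have hℓp : 0 < ℓ := Real.log_pos (by rw [lt_div_iff₀ hlρp]; linarith)
  have hz1p : 0 < z := hlρp.trans hcase
  have hgain : 2 * ρ / ℓ ≤ Real.log ((1 / 2 - ρ) / z) /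
      Real.log (2 * (1 / 2 - ρ) / (l * ρ)) := by
    have ht : 0 < 1 / 2 - ρ := by linarith
    have g1 : 2 * ρ ≤ Real.log ((1 / 2 - ρ) / z) := by
      have g2 := Real.one_sub_inv_le_log_of_pos (show 0 < (1 / 2 - ρ) / z by positivity)
      refine le_trans ?_ g2
      rw [inv_div, hz1ρ]
      have g3 : 1 - (1 / 2 - 2 * ρ) / (1 / 2 - ρ) = ρ / (1 / 2 - ρ) := by
        rw [eq_div_iff ht.ne', sub_mul, div_mul_cancel₀ _ ht.ne']
        ring
      rw [g3, le_div_iff₀ ht]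
      nlinarith
    have g4 : Real.log (2 * (1 / 2 - ρ) / (l * ρ)) ≤ ℓ := by
      apply Real.log_le_log (by positivity)
      apply div_le_div_of_nonneg_right _ hlρp.le
      linarith
    have g5 : 0 < Real.log (2 * (1 / 2 - ρ) / (l * ρ)) := Real.log_pos (by
      rw [lt_div_iff₀ hlρp]
      nlinarith)
    exact div_le_div₀ (by linarith) g1 g5 g4
  have herr : Real.log ((1 / 2) ^ 2 / ((1 / 2) ^ 2 - (1 / 2 - ρ) ^ 2)) ≤ ℓ := by
    have g0 : 0 < (1 / 2 : ℝ) ^ 2 - (1 / 2 - ρ) ^ 2 := by nlinarith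
    apply Real.log_le_log (by positivity)
    rw [div_le_div_iff₀ g0 hlρp]
    nlinarith
  have h2 : A * (2 * ρ / ℓ) - 5 * C1 * μ ^ 2 * ℓ ≤ V := by
    have e1 := mul_le_mul_of_nonneg_left hgain hA0.le
    have e2 := mul_le_mul_of_nonneg_left herr (show 0 ≤ 5 * C1 * μ ^ 2 by positivity)
    linarith
  refine le_trans ?_ h2
  have h3 : A * (2 * ρ / ℓ) = μ ^ 2 * (c0 ^ 2 / (2 * ρ * ε0 * ℓ)) := by
    rw [hA, hμρ]
    have := hε0p.ne'
    have := hℓp.ne'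
    have := hρp.ne'
    field_simp
  have h4 : 1 + 5 * C1 * ℓ ≤ c0 ^ 2 / (2 * ρ * ε0 * ℓ) := by
    rw [le_div_iff₀ (by positivity)]
    have e1 : ε0 * (4 + 64 * C1) = c0 ^ 2 * l := by
      rw [hε0]
      field_simp
    have e2 : l * ((1 + 5 * C1 * ℓ) * (2 * ρ * ε0 * ℓ)) ≤ l * c0 ^ 2 := by
      have e3 : l * ((1 + 5 * C1 * ℓ) * (2 * ρ * ε0 * ℓ)) =
          ε0 * (2 * (l * ρ * ℓ) + 10 * C1 * (l * ρ * ℓ ^ 2)) := by ring
      rw [e3]
      have e4 : 2 * (l * ρ * ℓ) + 10 * C1 * (l * ρ * ℓ ^ 2) ≤ 4 + 64 * C1 := by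
        have := mul_le_mul_of_nonneg_left hx3 hC1.le
        linarith
      calc ε0 * (2 * (l * ρ * ℓ) + 10 * C1 * (l * ρ * ℓ ^ 2)) ≤ ε0 * (4 + 64 * C1) :=
            mul_le_mul_of_nonneg_left e4 hε0p.le
        _ = l * c0 ^ 2 := by rw [e1]; ring
    exact le_of_mul_le_mul_left e2 hl
  rw [h3]
  have h5 := mul_le_mul_of_nonneg_left h4 (show 0 ≤ μ ^ 2 by positivity)
  have h6 : μ ^ 2 * (1 + 5 * C1 * ℓ) = μ ^ 2 + 5 * C1 * μ ^ 2 * ℓ := by ring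
  linarith

/-- **The estimate.** -/
theorem hln (hT : Ctl T Hv k c C) (hc : 0 < c) (hC : 0 < C) (hk : 0 < k) (hp : Siz p C1) :
    ∃ ε0 : ℝ, 0 < ε0 ∧ ε0 ≤ 1 ∧ ∀ (φ : ℂ → Mat N) (L : ℝ), 0 ≤ L → HolP (ball 0 1) φ →
      (∀ z ∈ ball (0 : ℂ) 1, φ z ∈ T) → Gau p L ε0 (ball 0 1) φ → 0 < p (φ 0) →
      ∀ z ∈ closedBall (0 : ℂ) (1 / 4), ‖fderiv ℝ φ z‖ ^ 2 ≤ 16 * (L - Real.log (p (φ 0))) := by
  obtain ⟨c0, l, hc0, hc01, hl, hl2, hlow⟩ := disc_low hT hc hC hk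
  have hC1 := hp.pos
  set ε0 : ℝ := c0 ^ 2 * l / (4 + 64 * C1) with hε0
  have hε0p : 0 < ε0 := by positivity
  have hc02 : c0 ^ 2 ≤ 1 := pow_le_one₀ hc0.le hc01
  have hε01 : ε0 ≤ 1 := by
    rw [hε0, div_le_one (by positivity)]
    nlinarith
  refine ⟨ε0, hε0p, hε01, fun φ L hL hφ hφT hgau hp0 => ?_⟩
  have hsub : closedBall (0 : ℂ) (1 / 2) ⊆ ball 0 1 := closedBall_subset_ball (by norm_num)
  have hcont : ContinuousOn (fun z => (1 / 2 - ‖z‖) * ‖fderiv ℝ φ z‖) (closedBall (0 : ℂ) (1 / 2)) :=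
    fun z hz => ((continuousAt_const.sub continuousAt_id.norm).mul
      (hφ.continuousAt_fderiv (hsub hz)).norm).continuousWithinAt
  obtain ⟨z1, hz1, hmax⟩ := (isCompact_closedBall (0 : ℂ) (1 / 2)).exists_isMaxOn
    ⟨0, mem_closedBall_self (by norm_num)⟩ hcont
  have hmax' : ∀ z ∈ closedBall (0 : ℂ) (1 / 2), (1 / 2 - ‖z‖) * ‖fderiv ℝ φ z‖ ≤
      (1 / 2 - ‖z1‖) * ‖fderiv ℝ φ z1‖ := fun z hz => hmax hz
  set μ : ℝ := (1 / 2 - ‖z1‖) * ‖fderiv ℝ φ z1‖ with hμ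
  have hz1n : ‖z1‖ ≤ 1 / 2 := mem_closedBall_zero_iff.1 hz1
  have hμ0 : 0 ≤ μ := mul_nonneg (by linarith) (norm_nonneg _)
  set V : ℝ := L - Real.log (p (φ 0)) with hV
  have hV0 : 0 ≤ V := by
    have := Real.log_nonpos (hp.nonneg _) (hp.le_one (φ 0))
    rw [hV]
    linarith
  have key : μ ^ 2 ≤ V := by
    rcases hμ0.eq_or_lt with h0 | hμp
    · rw [← h0]
      simpa using hV0
    set κ : ℝ := ‖fderiv ℝ φ z1‖ with hκ
    have hκp : 0 < κ := by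
      by_contra hcon
      have : κ = 0 := le_antisymm (not_lt.1 hcon) (norm_nonneg _)
      rw [hμ, this, mul_zero] at hμp
      exact lt_irrefl _ hμp
    have hz1lt : ‖z1‖ < 1 / 2 := by
      by_contra hcon
      have : 1 / 2 - ‖z1‖ ≤ 0 := by linarith [not_lt.1 hcon]
      have := mul_nonpos_of_nonpos_of_nonneg this hκp.le
      linarith
    set ρ : ℝ := (1 / 2 - ‖z1‖) / 2 with hρ
    have hρp : 0 < ρ := by
      rw [hρ]
      linarith
    have hρ4 : ρ ≤ 1 / 4 := by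
      rw [hρ]
      linarith [norm_nonneg z1]
    have hz1ρ : ‖z1‖ = 1 / 2 - 2 * ρ := by
      rw [hρ]
      ring
    have hμρ : μ = 2 * ρ * κ := by
      rw [hμ, hρ]
      ring
    have hbz : ∀ z ∈ ball z1 ρ, ‖z‖ < 1 / 2 - ρ := by
      intro z hz
      rw [mem_ball, dist_eq_norm] at hz
      have := norm_add_le (z - z1) z1
      rw [sub_add_cancel] at this
      linarith
    have hb1 : ball z1 ρ ⊆ ball 0 1 := by
      intro z hz
      rw [mem_ball_zero_iff]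
      have := hbz z hz
      linarith
    have hlow' := hlow φ z1 ρ κ hρp hκp (hφ.mono hb1) (fun z hz => hφT z (hb1 hz)) (by
      intro z hz
      have h1 := hbz z hz
      have h2 := hmax' z (mem_closedBall_zero_iff.2 (by linarith))
      have h3 : ρ * ‖fderiv ℝ φ z‖ ≤ (1 / 2 - ‖z‖) * ‖fderiv ℝ φ z‖ :=
        mul_le_mul_of_nonneg_right (by linarith) (norm_nonneg _)
      rw [hμρ] at h2
      have h4 : ρ * ‖fderiv ℝ φ z‖ ≤ ρ * (2 * κ) := by linarith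
      exact le_of_mul_le_mul_left h4 hρp) rfl
    set A : ℝ := c0 ^ 2 * κ ^ 2 / ε0 with hA
    have hA0 : 0 < A := by positivity
    have hlρ : l * ρ < ρ := by nlinarith
    have hlρp : 0 < l * ρ := by positivity
    -- the function is small on the disc
    have huA : ∀ z ∈ closedBall z1 (l * ρ), p (φ z) ≤ Real.exp (L - A) := by
      intro z hz
      rcases (hp.nonneg (φ z)).eq_or_lt with h0 | h0
      · rw [← h0]
        exact (Real.exp_pos _).le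
      have hzb : z ∈ ball z1 ρ := closedBall_subset_ball hlρ hz
      have h1 := hgau z (hb1 hzb) h0
      have h2 := hlow' z hz
      have h3 : (c0 * κ) ^ 2 ≤ ‖fderiv ℝ φ z‖ ^ 2 := pow_le_pow_left₀ (by positivity) h2 2
      have h4 : A ≤ L - Real.log (p (φ z)) := by
        rw [hA, div_le_iff₀ hε0p, ← mul_pow, mul_comm _ ε0]
        exact h3.trans h1
      calc p (φ z) = Real.exp (Real.log (p (φ z))) := (Real.exp_log h0).symm
        _ ≤ Real.exp (L - A) := Real.exp_le_exp.2 (by linarith)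
    have hAμ : μ ^ 2 ≤ A := by
      have h1 : ε0 ≤ c0 ^ 2 := by
        rw [hε0, div_le_iff₀ (by positivity)]
        have : 0 < c0 ^ 2 := by positivity
        nlinarith
      have h2 : κ ^ 2 ≤ A := by
        rw [hA, le_div_iff₀ hε0p, mul_comm]
        exact mul_le_mul_of_nonneg_right h1 (by positivity)
      refine le_trans ?_ h2
      rw [hμρ]
      apply pow_le_pow_left₀ (by positivity)
      nlinarith
    rcases le_or_gt ‖z1‖ (l * ρ) with hcase | hcase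
    · have h1 := huA 0 (by rw [mem_closedBall, dist_eq_norm, zero_sub, norm_neg]; exact hcase)
      have h2 := Real.log_le_log hp0 h1
      rw [Real.log_exp] at h2
      rw [hV]
      linarith
    · have hμp2 : 0 < μ ^ 2 := by positivity
      have hhar := har (u := fun z => p (φ z)) (t := 1 / 2 - ρ) (R := 1 / 2) (h := l * ρ) (L := L)
        (A := A) (B := 5 * C1 * μ ^ 2) (z1 := z1) (by linarith) (by linarith) hlρp hcase
        (by rw [hz1ρ]; linarith) hA0.le (by positivity) (fun z => hp.nonneg _)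
        (fun z hz => (hp.cont _ φ hφ z (hsub (closedBall_subset_closedBall (by linarith) hz))
          ).continuousWithinAt) (fun z _ => (hp.le_one _).trans (Real.one_le_exp hL)) huA
        (fun z0 hz0 hu0 => by
          rw [mem_ball_zero_iff] at hz0
          have h0n := norm_nonneg z0
          refine ⟨C1 * ‖fderiv ℝ φ z0‖ ^ 2, ?_, hp.cp _ φ hφ z0
            (hsub (mem_closedBall_zero_iff.2 (by linarith))) hu0⟩
          have h1 := hmax' z0 (mem_closedBall_zero_iff.2 (by linarith))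
          have h2 : 0 < 1 / 2 - ‖z0‖ := by linarith
          have h3 : (1 / 2 - ‖z0‖) ^ 2 * ‖fderiv ℝ φ z0‖ ^ 2 ≤ μ ^ 2 := by
            rw [← mul_pow]
            exact pow_le_pow_left₀ (by positivity) h1 2
          have h4 : ((1 / 2 : ℝ) ^ 2 - ‖z0‖ ^ 2) ^ 2 ≤ (1 / 2 - ‖z0‖) ^ 2 := by
            have h5 : (1 / 2 : ℝ) ^ 2 - ‖z0‖ ^ 2 = (1 / 2 - ‖z0‖) * (1 / 2 + ‖z0‖) := by ring
            rw [h5, mul_pow]
            have h6 : (1 / 2 + ‖z0‖) ^ 2 ≤ 1 := pow_le_one₀ (by positivity) (by linarith)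
            have h7 : 0 ≤ (1 / 2 - ‖z0‖) ^ 2 := by positivity
            nlinarith
          have h5 : 0 < (1 / 2 : ℝ) ^ 2 - ‖z0‖ ^ 2 := by nlinarith
          rw [← mul_div_assoc, lt_div_iff₀ (by positivity)]
          have h6 : C1 * ‖fderiv ℝ φ z0‖ ^ 2 * ((1 / 2 : ℝ) ^ 2 - ‖z0‖ ^ 2) ^ 2 ≤
              C1 * ‖fderiv ℝ φ z0‖ ^ 2 * (1 / 2 - ‖z0‖) ^ 2 :=
            mul_le_mul_of_nonneg_left h4 (by positivity)
          have h7 : C1 * ‖fderiv ℝ φ z0‖ ^ 2 * (1 / 2 - ‖z0‖) ^ 2 ≤ C1 * μ ^ 2 := by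
            calc _ = C1 * ((1 / 2 - ‖z0‖) ^ 2 * ‖fderiv ℝ φ z0‖ ^ 2) := by ring
              _ ≤ _ := mul_le_mul_of_nonneg_left h3 hC1.le
          have h8 : 0 < C1 * μ ^ 2 := by positivity
          linarith)
      have h1 := Real.log_le_log hp0 hhar
      rw [Real.log_exp] at h1
      refine arith_h hρp hρ4 hl hl2 hc0 hC1 hκp hz1ρ hcase hμρ ?_
      rw [hV, ← hε0, ← hA]
      linarith
  intro z hz
  rw [mem_closedBall_zero_iff] at hz
  have h1 := hmax' z (mem_closedBall_zero_iff.2 (by linarith))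
  have h2 : 1 / 4 * ‖fderiv ℝ φ z‖ ≤ (1 / 2 - ‖z‖) * ‖fderiv ℝ φ z‖ :=
    mul_le_mul_of_nonneg_right (by linarith) (norm_nonneg _)
  have h3 : ‖fderiv ℝ φ z‖ ≤ 4 * μ := by linarith
  calc ‖fderiv ℝ φ z‖ ^ 2 ≤ (4 * μ) ^ 2 := pow_le_pow_left₀ (norm_nonneg _) h3 2
    _ = 16 * μ ^ 2 := by ring
    _ ≤ 16 * V := by linarith

end Pool.Agent.N155.QD
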