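import Mathlib

/-! A potential. -/

set_option autoImplicit false

open Filter Topology Metric Set

namespace Pool.Agent.N155.QD

theorem log_half {x : ℝ} (hx : 0 < x) : Real.log x ≤ (x ^ 2 - 1) / 2 := by
  have h1 := Real.log_le_sub_one_of_pos (show 0 < x ^ 2 by positivity)
  rw [Real.log_pow] at h1
  push_cast at h1
  linarith

/-- A superharmonic function with a holomorphic support function at each point. -/
theorem pot {r0 R κ : ℝ} (hr0 : 0 < r0) (hR : r0 < R) (hκ : 0 < κ) : ∃ q : ℂ → ℝ,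
    q 0 = κ * r0 ^ 2 * (1 / 2 + Real.log (R / r0)) ∧ (∀ z, q z ≤ q 0) ∧
    (∀ z, R ≤ ‖z‖ → q z ≤ 0) ∧ ∀ z, ∃ F : ℂ → ℂ, DifferentiableOn ℂ F (ball z (r0 / 2)) ∧
      ∀ z' ∈ ball z (r0 / 2), (F z').re - (F z).re ≤ q z' - q z +
        (if ‖z‖ ≤ 2 * r0 then 8 * κ * ‖z' - z‖ ^ 2 else 0) := by
  classical
  have hRp : 0 < R := hr0.trans hR
  set q : ℂ → ℝ := fun z => if ‖z‖ ≤ r0 then κ * (r0 ^ 2 - ‖z‖ ^ 2) / 2 +
    κ * r0 ^ 2 * Real.log (R / r0) else κ * r0 ^ 2 * Real.log (R / ‖z‖) with hq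
  have hq1 : ∀ z, ‖z‖ ≤ r0 → q z = κ * (r0 ^ 2 - ‖z‖ ^ 2) / 2 +
    κ * r0 ^ 2 * Real.log (R / r0) := fun z hz => by rw [hq]; simp only [if_pos hz]
  have hq2 : ∀ z, r0 < ‖z‖ → q z = κ * r0 ^ 2 * Real.log (R / ‖z‖) := fun z hz => by
    rw [hq]; simp only [if_neg (not_le.2 hz)]
  have hq0 : q 0 = κ * r0 ^ 2 * (1 / 2 + Real.log (R / r0)) := by
    rw [hq1 0 (by rw [norm_zero]; exact hr0.le), norm_zero]
    ring
  have hκr : 0 < κ * r0 ^ 2 := by positivity
  refine ⟨q, hq0, fun z => ?_, fun z hz => ?_, fun z => ?_⟩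
  · rw [hq0]
    rcases le_or_gt ‖z‖ r0 with h | h
    · rw [hq1 z h]
      have : 0 ≤ κ * ‖z‖ ^ 2 := by positivity
      nlinarith
    · rw [hq2 z h]
      have h1 : Real.log (R / ‖z‖) ≤ Real.log (R / r0) :=
        Real.log_le_log (div_pos hRp (hr0.trans h)) (div_le_div_of_nonneg_left hRp.le hr0 h.le)
      exact mul_le_mul_of_nonneg_left (by linarith) hκr.le
  · rw [hq2 z (hR.trans_le hz)]
    have h1 : Real.log (R / ‖z‖) ≤ 0 := Real.log_nonpos (by positivity)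
      (div_le_one_of_le₀ hz (norm_nonneg _))
    nlinarith
  · rcases le_or_gt ‖z‖ r0 with h | h
    · refine ⟨fun w => -(κ : ℂ) * ((starRingEnd ℂ) z * w), by fun_prop, fun z' hz' => ?_⟩
      rw [if_pos (by linarith)]
      have h1 : (-(κ : ℂ) * ((starRingEnd ℂ) z * z')).re - (-(κ : ℂ) * ((starRingEnd ℂ) z * z)).re =
          κ * (r0 ^ 2 - ‖z'‖ ^ 2) / 2 - κ * (r0 ^ 2 - ‖z‖ ^ 2) / 2 + κ * ‖z' - z‖ ^ 2 / 2 := by
        rw [← Complex.normSq_eq_norm_sq, ← Complex.normSq_eq_norm_sq, ← Complex.normSq_eq_norm_sq]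
        simp only [Complex.normSq_apply, Complex.sub_re, Complex.sub_im, Complex.mul_re,
          Complex.mul_im, Complex.conj_re, Complex.conj_im, Complex.neg_re, Complex.neg_im,
          Complex.ofReal_re, Complex.ofReal_im]
        ring
      rw [h1, hq1 z h]
      have h2 : κ * (r0 ^ 2 - ‖z'‖ ^ 2) / 2 + κ * r0 ^ 2 * Real.log (R / r0) ≤ q z' := by
        rcases le_or_gt ‖z'‖ r0 with h' | h'
        · rw [hq1 z' h']
        · rw [hq2 z' h']
          have hz'p : 0 < ‖z'‖ := hr0.trans h'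
          have h3 := log_half (show 0 < ‖z'‖ / r0 by positivity)
          rw [Real.log_div hz'p.ne' hr0.ne'] at h3
          rw [Real.log_div hRp.ne' hr0.ne', Real.log_div hRp.ne' hz'p.ne']
          have h4 := mul_le_mul_of_nonneg_left h3 hκr.le
          have h5 : κ * r0 ^ 2 * (((‖z'‖ / r0) ^ 2 - 1) / 2) = κ * (‖z'‖ ^ 2 - r0 ^ 2) / 2 := by
            field_simp
          rw [h5] at h4
          linarith
      have h3 : 0 ≤ κ * ‖z' - z‖ ^ 2 := by positivity
      linarith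
    · have hzp : 0 < ‖z‖ := hr0.trans h
      have hz0 : z ≠ 0 := norm_pos_iff.1 hzp
      have hsl : ∀ w ∈ ball z (r0 / 2), w / z ∈ Complex.slitPlane := by
        intro w hw
        rw [mem_ball, dist_eq_norm] at hw
        have h1 : w / z = 1 + (w - z) / z := by
          field_simp
          ring
        rw [h1]
        apply Complex.mem_slitPlane_of_norm_lt_one
        rw [norm_div, div_lt_one hzp]
        linarith
      refine ⟨fun w => -((κ * r0 ^ 2 : ℝ) : ℂ) * Complex.log (w / z), fun w hw => ?_, fun z' hz' => ?_⟩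
      · exact (((differentiableAt_id.div_const z).clog (hsl w hw)).const_mul _).differentiableWithinAt
      have hz'n : ‖z' - z‖ < r0 / 2 := by
        rw [← dist_eq_norm]
        exact hz'
      have htri : ‖z‖ ≤ ‖z'‖ + ‖z' - z‖ := by
        have := norm_sub_le z' (z' - z)
        rwa [sub_sub_cancel] at this
      have hz'p : 0 < ‖z'‖ := by linarith
      have h1 : ∀ w : ℂ, (-((κ * r0 ^ 2 : ℝ) : ℂ) * Complex.log (w / z)).re =
          -(κ * r0 ^ 2) * Real.log (‖w‖ / ‖z‖) := by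
        intro w
        rw [← Complex.ofReal_neg, Complex.re_ofReal_mul, Complex.log_re, norm_div]
      rw [h1, h1, div_self hzp.ne', Real.log_one, mul_zero, sub_zero,
        Real.log_div hz'p.ne' hzp.ne', hq2 z h, Real.log_div hRp.ne' hzp.ne']
      rcases le_or_gt ‖z'‖ r0 with h' | h'
      · rw [hq1 z' h', if_pos (by linarith), Real.log_div hRp.ne' hr0.ne']
        have h3 := log_half (show 0 < r0 / ‖z'‖ by positivity)
        rw [Real.log_div hr0.ne' hz'p.ne'] at h3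
        have h4 := mul_le_mul_of_nonneg_left h3 hκr.le
        have h5 : κ * r0 ^ 2 * (((r0 / ‖z'‖) ^ 2 - 1) / 2) ≤
            κ * (r0 ^ 2 - ‖z'‖ ^ 2) / 2 + 8 * κ * ‖z' - z‖ ^ 2 := by
          have e1 : κ * r0 ^ 2 * (((r0 / ‖z'‖) ^ 2 - 1) / 2) =
              κ * (r0 ^ 2 - ‖z'‖ ^ 2) / 2 + κ * (r0 ^ 2 - ‖z'‖ ^ 2) ^ 2 / ‖z'‖ ^ 2 / 2 := by
            field_simp
            ring
          rw [e1]
          have e2 : (r0 ^ 2 - ‖z'‖ ^ 2) ^ 2 ≤ 16 * ‖z'‖ ^ 2 * ‖z' - z‖ ^ 2 := by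
            have e3 : 0 ≤ r0 ^ 2 - ‖z'‖ ^ 2 := by nlinarith
            have e4 : r0 ^ 2 - ‖z'‖ ^ 2 ≤ 4 * ‖z'‖ * ‖z' - z‖ := by
              have e5 : r0 ^ 2 - ‖z'‖ ^ 2 = (r0 + ‖z'‖) * (r0 - ‖z'‖) := by ring
              rw [e5]
              exact mul_le_mul (by linarith) (by linarith) (by linarith) (by linarith)
            calc (r0 ^ 2 - ‖z'‖ ^ 2) ^ 2 ≤ (4 * ‖z'‖ * ‖z' - z‖) ^ 2 := pow_le_pow_left₀ e3 e4 2
              _ = _ := by ring
          have e6 : κ * (r0 ^ 2 - ‖z'‖ ^ 2) ^ 2 / ‖z'‖ ^ 2 ≤ 16 * κ * ‖z' - z‖ ^ 2 := by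
            rw [div_le_iff₀ (by positivity)]
            have := mul_le_mul_of_nonneg_left e2 hκ.le
            linarith
          linarith
        linarith
      · rw [hq2 z' h', Real.log_div hRp.ne' hz'p.ne']
        have h3 : 0 ≤ (if ‖z‖ ≤ 2 * r0 then 8 * κ * ‖z' - z‖ ^ 2 else 0) := by
          split_ifs
          · positivity
          · exact le_rfl
        linarith

end Pool.Agent.N155.QD
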