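import Pool.Agent.N155.Q.Ctc

/-! Two curves in the class which are close on a large disc have the same image near the center. -/

set_option autoImplicit false

open Filter Topology Metric Set MvPolynomial

namespace Pool.Agent.N155.QD

open Pool.Agent.Y190.OP Pool.Agent.W602.GT Pool.Agent.TH143.GT Pool.Agent.N155
  Pool.Agent.N155.BB Pool.Agent.N155.GD

variable {N : ℕ} {T Z : Set (Mat N)} {κ : Type}
  {ω : κ → (Fin N → ℂ) → (Fin N → ℂ) → (Fin N → ℂ) → ℂ} {c0 c1 r K : ℝ}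

theorem bcw_aff {φ : ℂ → Mat N} (h : BCw T c0 φ) {ρ c : ℝ} (hρ : 0 ≤ ρ) (hρ1 : ρ ≤ 1)
    (hc : c ≤ ρ * c0) : BCw T c (fun z => φ (aff 0 ρ z)) := by
  have hn : ∀ z, ‖fderiv ℝ (fun z => φ (aff 0 ρ z)) z‖ = ρ * ‖fderiv ℝ φ (aff 0 ρ z)‖ :=
    fun z => norm_fderiv_aff hρ (h.hol.differentiableAt (mem_univ _))
  refine ⟨?_, fun z => h.mem _, fun z => ?_, fun z => ?_⟩
  · have := h.hol.aff 0 ρ
    rwa [preimage_univ] at this
  · rw [hn]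
    have h1 := h.bd (aff 0 ρ z)
    have h2 := norm_nonneg (fderiv ℝ φ (aff 0 ρ z))
    nlinarith
  · rw [hn]
    exact hc.trans (mul_le_mul_of_nonneg_left (h.low _) hρ)

theorem uniq_e (hG : GW T Z ω) (hT : IsCompact T) (hTP : T ⊆ PM)
    (hZ : ∀ c : ℝ, 0 < c → ∀ φ, BCw T c φ → ∃ z, φ z ∉ Z) (hc0 : 0 < c0) (hK : 1 ≤ K)
    (hr : 0 < r) (hc1 : 0 < c1) (hi : Inj r c1 (BCw T c0)) :
    ∃ δ ρ1 : ℝ, 0 < δ ∧ 0 < ρ1 ∧ ∀ (P Q Q' : ℂ → Mat N) (τ : ℝ), 1 / K ≤ τ → τ ≤ K →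
      BCw T c0 Q → BCw T c0 Q' → (∀ z ∈ closedBall (0 : ℂ) ρ1, ‖P z - Q (τ * z)‖ ≤ δ) →
      (∀ z ∈ closedBall (0 : ℂ) ρ1, ‖P z - Q' z‖ ≤ δ) → ∀ v : ℂ, ‖v‖ ≤ r → ‖P 0 - Q' v‖ ≤ δ →
      ∃ w : ℂ, ‖w‖ ≤ r ∧ Q w = Q' v := by
  by_contra hcon
  push Not at hcon
  have hK0 : 0 < K := one_pos.trans_le hK
  have hseq : ∀ m : ℕ, ∃ (P Q Q' : ℂ → Mat N) (τ : ℝ) (v : ℂ), 1 / K ≤ τ ∧ τ ≤ K ∧
      BCw T c0 Q ∧ BCw T c0 Q' ∧
      (∀ z ∈ closedBall (0 : ℂ) (m + 1), ‖P z - Q (τ * z)‖ ≤ 1 / (m + 1 : ℝ)) ∧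
      (∀ z ∈ closedBall (0 : ℂ) (m + 1), ‖P z - Q' z‖ ≤ 1 / (m + 1 : ℝ)) ∧ ‖v‖ ≤ r ∧
      ‖P 0 - Q' v‖ ≤ 1 / (m + 1 : ℝ) ∧ ∀ w : ℂ, ‖w‖ ≤ r → Q w ≠ Q' v := by
    intro m
    obtain ⟨P, Q, Q', τ, h1, h2, h3, h4, h5, h6, v, h7, h8, h9⟩ :=
      hcon (1 / (m + 1)) (m + 1) (by positivity) (by positivity)
    exact ⟨P, Q, Q', τ, v, h1, h2, h3, h4, h5, h6, h7, h8, h9⟩
  choose P Q Q' τ v hτ1 hτ2 hQ hQ' hcl hcl' hv hPv hex using hseq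
  set 𝓤 : Ultrafilter ℕ := hyperfilter ℕ with h𝓤
  have hzero : Tendsto (fun m : ℕ => 1 / (m + 1 : ℝ)) 𝓤 (𝓝 0) := hyp_inv
  have hcls := BCw.cls hT hTP hc0
  obtain ⟨χ, hχ, hcQ⟩ := hcls.lim 𝓤 _ hQ
  obtain ⟨χ', hχ', hcQ'⟩ := hcls.lim 𝓤 _ hQ'
  obtain ⟨τ0, hτ0, hτt⟩ : ∃ τ0 ∈ Icc (1 / K) K, Tendsto τ 𝓤 (𝓝 τ0) := by
    have h1 : (𝓤.map τ : Filter ℝ) ≤ 𝓟 (Icc (1 / K) K) := by
      rw [Ultrafilter.coe_map, le_principal_iff, mem_map]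
      exact Eventually.of_forall fun m => ⟨hτ1 m, hτ2 m⟩
    obtain ⟨y, hy, hy'⟩ := isCompact_Icc.ultrafilter_le_nhds (𝓤.map τ) h1
    exact ⟨y, hy, hy'⟩
  have hτc : Tendsto (fun m => ((τ m : ℝ) : ℂ)) 𝓤 (𝓝 (τ0 : ℂ)) :=
    (Complex.continuous_ofReal.tendsto τ0).comp hτt
  have hlim : ∀ z, χ (τ0 * z) = χ' z := by
    intro z
    have h1 : Tendsto (fun m => ‖Q m (τ m * z) - Q' m z‖) 𝓤 (𝓝 ‖χ (τ0 * z) - χ' z‖) :=
      ((CConv.seq hcQ (mem_univ _) (hτc.mul_const z)).sub (hcQ'.pointwise (mem_univ z))).norm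
    have h2 : ‖χ (τ0 * z) - χ' z‖ ≤ 0 := by
      have h3 := hzero.const_mul 2
      rw [mul_zero] at h3
      refine le_of_tendsto_of_tendsto h1 h3 ?_
      filter_upwards [hyp_ge ‖z‖] with m hm
      have hz : z ∈ closedBall (0 : ℂ) (m + 1 : ℝ) := by
        rw [mem_closedBall_zero_iff]
        linarith
      have h4 := norm_sub_le (P m z - Q' m z) (P m z - Q m (τ m * z))
      have h5 : P m z - Q' m z - (P m z - Q m (τ m * z)) = Q m (τ m * z) - Q' m z := by abel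
      rw [h5] at h4
      have := hcl m z hz
      have := hcl' m z hz
      linarith
    exact sub_eq_zero.1 (norm_eq_zero.1 (le_antisymm h2 (norm_nonneg _)))
  -- the rescaled curves
  set c2 : ℝ := c0 / K ^ 2 with hc2
  have hc2p : 0 < c2 := by positivity
  have hA : ∀ m, BCw T c2 (fun z => Q' m (aff 0 (1 / K) z)) := fun m => by
    refine bcw_aff (hQ' m) (by positivity) (by rw [div_le_one hK0]; exact hK) ?_
    rw [hc2, one_div_mul_eq_div]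
    apply div_le_div_of_nonneg_left hc0.le hK0
    nlinarith
  have hτ0' : ∀ m, 0 < τ m := fun m => lt_of_lt_of_le (by positivity) (hτ1 m)
  have hB : ∀ m, BCw T c2 (fun z => Q m (aff 0 (τ m / K) z)) := fun m => by
    refine bcw_aff (hQ m) (div_nonneg (hτ0' m).le hK0.le)
      (by rw [div_le_one hK0]; exact hτ2 m) ?_
    rw [hc2]
    have h1 : c0 / K ^ 2 = 1 / K / K * c0 := by
      field_simp
    rw [h1]
    exact mul_le_mul_of_nonneg_right (div_le_div_of_nonneg_right (hτ1 m) hK0.le) hc0.le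
  have hcA : CConv (𝓤 : Filter ℕ) univ (fun m z => Q' m (aff 0 (1 / K) z))
      (fun z => χ' (aff 0 (1 / K) z)) := by
    intro z _
    have h3 : Tendsto (fun p : ℕ × ℂ => (p.1, aff 0 (1 / K) p.2)) ((𝓤 : Filter ℕ) ×ˢ 𝓝 z)
        ((𝓤 : Filter ℕ) ×ˢ 𝓝 (aff 0 (1 / K) z)) :=
      tendsto_fst.prodMk (((aff_diff 0 (1 / K)).continuous.tendsto z).comp tendsto_snd)
    exact (hcQ' _ (mem_univ _)).comp h3
  have hcB : CConv (𝓤 : Filter ℕ) univ (fun m z => Q m (aff 0 (τ m / K) z))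
      (fun z => χ' (aff 0 (1 / K) z)) := by
    intro z _
    have h2 : Tendsto (fun p : ℕ × ℂ => aff 0 (τ p.1 / K) p.2) ((𝓤 : Filter ℕ) ×ˢ 𝓝 z)
        (𝓝 ((τ0 : ℂ) * aff 0 (1 / K) z)) := by
      have h4 : Tendsto (fun p : ℕ × ℂ => ((τ p.1 : ℝ) : ℂ) * ((1 / K : ℝ) * p.2))
          ((𝓤 : Filter ℕ) ×ˢ 𝓝 z) (𝓝 ((τ0 : ℂ) * ((1 / K : ℝ) * z))) :=
        (hτc.comp tendsto_fst).mul (tendsto_snd.const_mul _)
      have h5 : (τ0 : ℂ) * aff 0 (1 / K) z = (τ0 : ℂ) * ((1 / K : ℝ) * z) := by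
        unfold aff
        rw [zero_add]
      rw [h5]
      refine h4.congr fun p => ?_
      unfold aff
      push_cast
      ring
    have h3 : Tendsto (fun p : ℕ × ℂ => (p.1, aff 0 (τ p.1 / K) p.2)) ((𝓤 : Filter ℕ) ×ˢ 𝓝 z)
        ((𝓤 : Filter ℕ) ×ˢ 𝓝 ((τ0 : ℂ) * aff 0 (1 / K) z)) := tendsto_fst.prodMk h2
    have h4 := (hcQ _ (mem_univ _)).comp h3
    rw [hlim] at h4
    exact h4
  have hcls2 := BCw.cls hT hTP hc2p
  obtain ⟨r', c1', hr', -, hc1', hi', hsep⟩ := sep_class hG (hZ c2 hc2p) hcls2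
  have hev := hsep _ _ hA hB _ hcA hcB
  have hsmall : ∀ᶠ m : ℕ in (𝓤 : Filter ℕ),
      2 / c2 * K * (2 * (1 / (m + 1 : ℝ)) / c1) + 2 * (1 / (m + 1 : ℝ)) / c1' < r := by
    have h1 := ((hzero.const_mul 2).div_const c1).const_mul (2 / c2 * K)
    have h2 := (hzero.const_mul 2).div_const c1'
    have h3 := h1.add h2
    simp only [mul_zero, zero_div, add_zero] at h3
    exact h3.eventually_lt_const hr
  obtain ⟨m, ⟨α, β, hβ, hαβ⟩, hm⟩ := (hev.and hsmall).exists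
  obtain ⟨-, hα⟩ := hcls2.alpha (hA m) (hB m) hαβ
  have e0 : ∀ ρ : ℝ, aff 0 ρ 0 = 0 := fun ρ => by simp [aff]
  have h0 : (0 : ℂ) ∈ closedBall (0 : ℂ) (m + 1 : ℝ) := mem_closedBall_self (by positivity)
  have hβ2 : ‖β‖ ≤ 2 * (1 / (m + 1 : ℝ)) / c1' := by
    have h1 := hi' _ (hB m) 0 β (hβ.trans (by linarith))
    have h2 := hαβ 0
    rw [mul_zero, zero_add, e0] at h2
    simp only [zero_add, e0] at h1
    rw [← h2] at h1
    have h3 := norm_sub_le (P m 0 - Q m 0) (P m 0 - Q' m 0)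
    have h4 : P m 0 - Q m 0 - (P m 0 - Q' m 0) = Q' m 0 - Q m 0 := by abel
    rw [h4] at h3
    have h5 := hcl m 0 h0
    rw [mul_zero] at h5
    have h6 := hcl' m 0 h0
    rw [le_div_iff₀ hc1']
    linarith
  have hv2 : ‖v m‖ ≤ 2 * (1 / (m + 1 : ℝ)) / c1 := by
    have h1 := hi _ (hQ' m) 0 (v m) ((hv m).trans (by linarith))
    rw [zero_add] at h1
    have h3 := norm_sub_le (P m 0 - Q' m 0) (P m 0 - Q' m (v m))
    have h4 : P m 0 - Q' m 0 - (P m 0 - Q' m (v m)) = Q' m (v m) - Q' m 0 := by abel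
    rw [h4] at h3
    have h6 := hcl' m 0 h0
    have h7 := hPv m
    rw [le_div_iff₀ hc1]
    linarith
  apply hex m (aff 0 (τ m / K) (α * (K * v m) + β))
  · unfold aff
    rw [zero_add, norm_mul, Complex.norm_real, Real.norm_of_nonneg
      (div_nonneg (hτ0' m).le hK0.le)]
    have h1 : τ m / K ≤ 1 := by rw [div_le_one hK0]; exact hτ2 m
    have h2 : ‖α * (K * v m) + β‖ ≤ 2 / c2 * K * (2 * (1 / (m + 1 : ℝ)) / c1) +
        2 * (1 / (m + 1 : ℝ)) / c1' := by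
      refine (norm_add_le _ _).trans (add_le_add ?_ hβ2)
      rw [norm_mul, norm_mul, Complex.norm_real, Real.norm_of_nonneg hK0.le, ← mul_assoc]
      exact mul_le_mul (mul_le_mul_of_nonneg_right hα hK0.le) hv2 (norm_nonneg _) (by positivity)
    have h3 := norm_nonneg (α * (K * v m) + β)
    have h4 := mul_le_mul_of_nonneg_right h1 h3
    rw [one_mul] at h4
    linarith
  · rw [← hαβ (K * v m)]
    congr 1
    unfold aff
    rw [zero_add]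
    have : (K : ℂ) ≠ 0 := by exact_mod_cast hK0.ne'
    push_cast
    field_simp

end Pool.Agent.N155.QD
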