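import Pool.Agent.N155.Q.Chn
import Pool.Agent.N155.Q.Uni
import Pool.Agent.N155.Q.Pot

/-! The iteration of the contraction. -/

set_option autoImplicit false

open Filter Topology Metric Set MvPolynomial

namespace Pool.Agent.N155.QD

open Pool.Agent.Y190.OP Pool.Agent.W602.GT Pool.Agent.TH143.GT Pool.Agent.N155
  Pool.Agent.N155.BB Pool.Agent.N155.GD

variable {N : ℕ} {T : Set (Mat N)} {τ : Type} {Hv : τ → (ℂ → Mat N) → ℂ → ℂ} {k : ℕ}
  {c C C1 : ℝ} {p : Mat N → ℝ}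

theorem root_le {x s M : ℝ} {k : ℕ} (hx0 : 0 < x) (hx1 : x ≤ 1) (hk : 0 < k) (hs : 0 ≤ s)
    (hM : 0 ≤ M) (h : x * M ^ k ≤ s ^ k) : x * M ≤ s := by
  by_contra hcon
  push Not at hcon
  have h1 : s ^ k < (x * M) ^ k := pow_lt_pow_left₀ hcon hs hk.ne'
  rw [mul_pow] at h1
  have h2 : x ^ k ≤ x := pow_le_of_le_one hx0.le hx1 hk.ne'
  have h3 := mul_le_mul_of_nonneg_right h2 (pow_nonneg hM k)
  linarith

theorem low_of {x s M : ℝ} {k : ℕ} (hC : 0 < C) (hk : 0 < k) (hs : 0 ≤ s)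
    (hM : 0 ≤ M) (hx : 0 < x) (hx1 : x ≤ 1) (hxc : x ≤ c / C) (h : c * M ^ k ≤ C * s ^ k) :
    x * M ≤ s := by
  refine root_le hx hx1 hk hs hM ?_
  have h1 : c / C * M ^ k ≤ s ^ k := by
    rw [div_mul_eq_mul_div, div_le_iff₀ hC]
    linarith
  exact (mul_le_mul_of_nonneg_right hxc (by positivity)).trans h1

/-- the behaviour near a point where the derivative is not small -/
theorem resc (hT : Ctl T Hv k c C) (hc : 0 < c) (hC : 0 < C) (hk : 0 < k) {φ : ℂ → Mat N} {z : ℂ}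
    {ρ B : ℝ} (hρ : 0 < ρ) (hφ : HolP (ball z ρ) φ) (hφT : ∀ w ∈ ball z ρ, φ w ∈ T)
    (hB : ∀ w ∈ ball z ρ, ‖fderiv ℝ φ w‖ ≤ B) {w : ℂ} (hw : w ∈ ball z ρ)
    (hs : 2 * (C * B ^ k) / ρ * ‖w - z‖ ≤ min (c / 2) C * ‖fderiv ℝ φ z‖ ^ k) :
    ‖fderiv ℝ φ w‖ ≤ max 1 (2 * C / c) * ‖fderiv ℝ φ z‖ ∧
      min 1 (c / 2 / C) * ‖fderiv ℝ φ z‖ ≤ ‖fderiv ℝ φ w‖ := by
  obtain ⟨h1, h2⟩ := hT (ball z ρ) φ isOpen_ball hφ hφT
  have hzb := mem_ball_self (x := z) hρ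
  have hsch : ∀ b, ‖Hv b φ w - Hv b φ z‖ ≤ min (c / 2) C * ‖fderiv ℝ φ z‖ ^ k := fun b =>
    (schw (h1 b) hρ (fun x hx => ((h2 x hx).1 b).trans (mul_le_mul_of_nonneg_left
      (pow_le_pow_left₀ (norm_nonneg _) (hB x hx) k) hC.le)) hw).trans hs
  have hzn := norm_nonneg (fderiv ℝ φ z)
  have hwn := norm_nonneg (fderiv ℝ φ w)
  constructor
  · obtain ⟨-, b, hb⟩ := h2 w hw
    have h3 := (h2 z hzb).1 b
    have h4 := norm_sub_norm_le (Hv b φ w) (Hv b φ z)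
    have h5 := (hsch b).trans (mul_le_mul_of_nonneg_right (min_le_right (c / 2) C) (by positivity))
    have h6 : c * ‖fderiv ℝ φ w‖ ^ k ≤ 2 * C * ‖fderiv ℝ φ z‖ ^ k := by linarith
    have hK : 0 < max 1 (2 * C / c) := one_pos.trans_le (le_max_left _ _)
    have h7 := low_of (x := 1 / max 1 (2 * C / c)) (mul_pos two_pos hC) hk hzn hwn (by positivity)
      (by rw [div_le_one hK]; exact le_max_left _ _) (by
        rw [div_le_div_iff₀ hK (by positivity), one_mul, ← div_le_iff₀' hc]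
        exact le_max_right _ _) h6
    rwa [one_div_mul_eq_div, div_le_iff₀' hK] at h7
  · obtain ⟨-, b, hb⟩ := h2 z hzb
    have h3 := (h2 w hw).1 b
    have h4 := norm_sub_norm_le (Hv b φ z) (Hv b φ w)
    rw [norm_sub_rev] at h4
    have h5 := (hsch b).trans (mul_le_mul_of_nonneg_right (min_le_left (c / 2) C) (by positivity))
    have h6 : c / 2 * ‖fderiv ℝ φ z‖ ^ k ≤ C * ‖fderiv ℝ φ w‖ ^ k := by linarith
    exact low_of hC hk hwn hzn (lt_min one_pos (by positivity)) (min_le_left _ _)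
      (min_le_right _ _) h6

theorem aff0 (z : ℂ) (g : ℝ) : aff z g 0 = z := by simp [aff]

/-- the comparison of the distances to the leaves at a point -/
theorem cmp_e {c0 K ρ δ ρ1 r : ℝ} (hT : IsCompact T) (hTP : T ⊆ PM) (hc0 : 0 < c0)
    (hu : ∀ (P Q Q' : ℂ → Mat N) (τ : ℝ), 1 / K ≤ τ → τ ≤ K →
      BCw T c0 Q → BCw T c0 Q' → (∀ z ∈ closedBall (0 : ℂ) ρ1, ‖P z - Q (τ * z)‖ ≤ δ) →
      (∀ z ∈ closedBall (0 : ℂ) ρ1, ‖P z - Q' z‖ ≤ δ) → ∀ v : ℂ, ‖v‖ ≤ r → ‖P 0 - Q' v‖ ≤ δ →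
      ∃ w : ℂ, ‖w‖ ≤ r ∧ Q w = Q' v) (hr : 0 < r) (hK : 1 ≤ K) (hρ : 0 < ρ) (hρ1 : 0 < ρ1)
    {φ : ℂ → Mat N} {z z' ζ : ℂ} {g g' : ℝ} (hg : 0 < g) (hg' : 0 < g') (h1 : 1 / K ≤ g' / g)
    (h2 : g' / g ≤ K) (hz' : z' = aff z g ζ) (hζ : ‖ζ‖ ≤ ρ) {Q Q' : ℂ → Mat N} (hQ : BCw T c0 Q)
    (hQ' : BCw T c0 Q')
    (hcl : ∀ x ∈ closedBall (0 : ℂ) (ρ + K * ρ1), ‖φ (aff z g x) - Q x‖ ≤ δ)
    (hcl' : ∀ x ∈ closedBall (0 : ℂ) (ρ + K * ρ1), ‖φ (aff z' g' x) - Q' x‖ ≤ δ) :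
    EN r (fun x => φ (aff z g x)) Q ζ ζ ≤ EN r (fun x => φ (aff z' g' x)) Q' 0 0 := by
  have hcls := BCw.cls hT hTP hc0
  have hKρ : 0 ≤ K * ρ1 := by positivity
  have h0 : (0 : ℂ) ∈ closedBall (0 : ℂ) (ρ + K * ρ1) := mem_closedBall_self (by linarith)
  obtain ⟨v, hv, hvE⟩ := EN_spec (P := fun x => φ (aff z' g' x)) hr.le (hcls.cont hQ') 0 0
  rw [sub_zero] at hv
  have hle : EN r (fun x => φ (aff z' g' x)) Q' 0 0 ≤ δ :=
    (EN_le (w := 0) (by rw [sub_self, norm_zero]; exact hr.le)).trans (hcl' 0 h0)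
  obtain ⟨w, hw, hwQ⟩ := hu (fun x => φ (aff z' g' x)) (fun x => Q (ζ + x)) Q' (g' / g) h1 h2
    (hcls.shift Q hQ ζ) hQ' (fun x hx => by
      rw [mem_closedBall_zero_iff] at hx
      have e1 : aff z' g' x = aff z g (ζ + ((g' / g : ℝ) : ℂ) * x) := by
        rw [hz']
        unfold aff
        have : (g : ℂ) ≠ 0 := by exact_mod_cast hg.ne'
        push_cast
        field_simp
        ring
      simp only [e1]
      apply hcl
      rw [mem_closedBall_zero_iff]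
      refine (norm_add_le _ _).trans (add_le_add hζ ?_)
      rw [norm_mul, Complex.norm_real, Real.norm_of_nonneg (div_pos hg' hg).le]
      exact mul_le_mul h2 hx (norm_nonneg _) (by linarith)) (fun x hx => by
      apply hcl'
      rw [mem_closedBall_zero_iff] at hx ⊢
      nlinarith) v hv (by rw [← hvE]; exact hle)
  rw [hvE, ← hwQ]
  have e2 : φ (aff z' g' 0) = φ (aff z g ζ) := by rw [aff0, hz']
  rw [e2]
  exact EN_le (P := fun x => φ (aff z g x)) (by rwa [add_sub_cancel_left])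

/-- **The iteration.** -/
theorem iter_e {Ω : Set ℂ} {D : ℂ → ℝ} {q : ℂ → ℝ} {H : ℂ → ℂ} {m : ℕ} {v δ B R t : ℝ} (hδ : 0 < δ)
    (hB : 1 ≤ B) (hv : 0 ≤ v) (ht : 0 ≤ t) (hDδ : ∀ z ∈ Ω, D z ≤ δ)
    (hΩ : ∀ z, z ∈ Ω ↔ ‖z‖ ≤ R ∧ t ≤ ‖H z‖) (hHB : ∀ z ∈ Ω, ‖H z‖ ≤ B)
    (hq : ∀ z, q z ≤ q 0) (hqR : ∀ z, R ≤ ‖z‖ → q z ≤ 0)
    (htm : t ^ m * Real.exp (v * q 0) ≤ 1)
    (hstep : ∀ z ∈ Ω, ∃ (z' : ℂ) (E : ℝ), 0 ≤ E ∧ E ≤ δ ∧ (z' ∈ Ω → E ≤ D z') ∧ ‖H z'‖ ≤ B ∧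
      D z * ‖H z‖ ^ m * Real.exp (v * q z) ≤ 1 / 2 * (E * ‖H z'‖ ^ m * Real.exp (v * q z'))) :
    ∀ z ∈ Ω, D z * ‖H z‖ ^ m * Real.exp (v * q z) ≤ δ * B ^ m := by
  have hBm : 1 ≤ B ^ m := one_le_pow₀ hB
  set M : ℝ := δ * B ^ m * Real.exp (v * q 0) with hM
  have hM0 : 0 < M := by positivity
  have key : ∀ (n : ℕ), ∀ z ∈ Ω, D z * ‖H z‖ ^ m * Real.exp (v * q z) ≤
      max (M * (1 / 2) ^ n) (δ * B ^ m) := by
    intro n
    induction n with
    | zero =>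
      intro z hz
      refine le_trans ?_ (le_max_left _ _)
      rw [pow_zero, mul_one]
      have h1 : ‖H z‖ ^ m ≤ B ^ m := pow_le_pow_left₀ (norm_nonneg _) (hHB z hz) m
      have h2 : Real.exp (v * q z) ≤ Real.exp (v * q 0) :=
        Real.exp_le_exp.2 (mul_le_mul_of_nonneg_left (hq z) hv)
      exact mul_le_mul (mul_le_mul (hDδ z hz) h1 (by positivity) hδ.le) h2 (Real.exp_pos _).le
        (by positivity)
    | succ n ih =>
      intro z hz
      obtain ⟨z', E, hE0, hEδ, hE, hHz', h1⟩ := hstep z hz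
      have hHm : ‖H z'‖ ^ m ≤ B ^ m := pow_le_pow_left₀ (norm_nonneg _) hHz' m
      by_cases hz'Ω : z' ∈ Ω
      · have h2 : E * ‖H z'‖ ^ m * Real.exp (v * q z') ≤
            D z' * ‖H z'‖ ^ m * Real.exp (v * q z') :=
          mul_le_mul_of_nonneg_right (mul_le_mul_of_nonneg_right (hE hz'Ω) (by positivity))
            (Real.exp_pos _).le
        have h3 := h1.trans (mul_le_mul_of_nonneg_left (h2.trans (ih z' hz'Ω)) (by norm_num))
        refine h3.trans ?_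
        rcases le_total (M * (1 / 2) ^ n) (δ * B ^ m) with h4 | h4
        · rw [max_eq_right h4]
          refine le_trans ?_ (le_max_right _ _)
          have : 0 < δ * B ^ m := by positivity
          linarith
        · rw [max_eq_left h4]
          refine le_trans (le_of_eq ?_) (le_max_left _ _)
          rw [pow_succ]
          ring
      · refine le_trans h1 (le_trans ?_ (le_max_right _ _))
        have h5 : E * ‖H z'‖ ^ m * Real.exp (v * q z') ≤ δ * B ^ m := by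
          rcases le_or_gt ‖z'‖ R with h6 | h6
          · have h7 : ‖H z'‖ < t := by
              by_contra hcon
              exact hz'Ω ((hΩ z').2 ⟨h6, not_lt.1 hcon⟩)
            have h8 : ‖H z'‖ ^ m ≤ t ^ m := pow_le_pow_left₀ (norm_nonneg _) h7.le m
            have h9 : Real.exp (v * q z') ≤ Real.exp (v * q 0) :=
              Real.exp_le_exp.2 (mul_le_mul_of_nonneg_left (hq z') hv)
            calc E * ‖H z'‖ ^ m * Real.exp (v * q z') ≤ δ * t ^ m * Real.exp (v * q 0) :=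
                  mul_le_mul (mul_le_mul hEδ h8 (by positivity) hδ.le) h9 (Real.exp_pos _).le
                    (by positivity)
              _ = δ * (t ^ m * Real.exp (v * q 0)) := by ring
              _ ≤ δ * 1 := mul_le_mul_of_nonneg_left htm hδ.le
              _ ≤ δ * B ^ m := mul_le_mul_of_nonneg_left hBm hδ.le
          · have h7 : Real.exp (v * q z') ≤ 1 := by
              rw [Real.exp_le_one_iff]
              exact mul_nonpos_of_nonneg_of_nonpos hv (hqR z' h6.le)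
            calc E * ‖H z'‖ ^ m * Real.exp (v * q z') ≤ δ * B ^ m * 1 :=
                  mul_le_mul (mul_le_mul hEδ hHm (by positivity) hδ.le) h7 (Real.exp_pos _).le
                    (by positivity)
              _ = δ * B ^ m := mul_one _
        have : 0 < δ * B ^ m := by positivity
        linarith
  intro z hz
  have h1 : Tendsto (fun n : ℕ => max (M * (1 / 2) ^ n) (δ * B ^ m)) atTop
      (𝓝 (max (M * 0) (δ * B ^ m))) :=
    ((tendsto_pow_atTop_nhds_zero_of_lt_one (by norm_num) (by norm_num)).const_mul M).max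
      tendsto_const_nhds
  rw [mul_zero, max_eq_right (by positivity)] at h1
  exact ge_of_tendsto' h1 fun n => key n z hz

end Pool.Agent.N155.QD
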