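import Pool.Agent.N155.Q.Sv

/-! The lower bound for the values of symmetric differentials without common zeros. -/

set_option autoImplicit false

open Filter Topology Metric Set MvPolynomial LinearAlgebra.Projectivization

namespace Pool.Agent.N155.QD

open Pool.Agent.Y190.OP Pool.Agent.W602.GT Pool.Agent.TH143.GT Pool.Agent.N155
  Pool.Agent.N155.BB Pool.Agent.N155.GD

variable {n : ℕ} {ι ι' : Type} {F : ι → MvPolynomial (Fin (n + 1)) ℂ} {d k : ℕ}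
  {τ : Type} {σ : τ → (Fin (n + 1) → ℂ) → (Fin (n + 1) → ℂ) → ℂ}

/-- The symmetric differentials `σ a` on the projective manifold with the cone `X` have no common
zeros: at each nonzero tangent vector of the manifold some `σ a` is not zero. -/
def NoCommonZero (X : Set (Fin (n + 1) → ℂ)) (d : ℕ)
    (σ : τ → (Fin (n + 1) → ℂ) → (Fin (n + 1) → ℂ) → ℂ) : Prop :=
  ∀ (U : Set (Fin d → ℂ)) (Ψ : (Fin d → ℂ) → Fin (n + 1) → ℂ), IsOpen U →
    AnalyticOnNhd ℂ Ψ U → (∀ z ∈ U, Ψ z ∈ X) → ∀ z ∈ U, ∀ v : Fin d → ℂ,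
    LinearIndependent ℂ ![Ψ z, fderiv ℂ Ψ z v] → ∃ a, σ a (Ψ z) (fderiv ℂ Ψ z v) ≠ 0

/-- the local graphs -/
theorem graph_of2 (hX : ProjManifold F d) {M0 : Mat (n + 1)} (hM0 : M0 ∈ TF F) :
    ∃ (i : Fin (n + 1)) (J : Fin d → Fin (n + 1)) (O : Set (Mat (n + 1)))
      (U : Set (Fin d → ℂ)) (Ψ : (Fin d → ℂ) → Fin (n + 1) → ℂ), IsOpen O ∧ M0 ∈ O ∧ IsOpen U ∧
      AnalyticOnNhd ℂ Ψ U ∧ (∀ z ∈ U, Ψ z ∈ Cone F ∧ Ψ z i = 1 ∧ ∀ k, Ψ z (J k) = z k) ∧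
      ∀ M ∈ O, M i i ≠ 0 ∧ (fun k => chart i M (J k)) ∈ U ∧ (M ∈ TF F →
        chart i M = Ψ (fun k => chart i M (J k))) := by
  obtain ⟨x0, hx0, rfl⟩ := hM0
  obtain ⟨i, J, U, Ψ, hxi, hU, hxU, hΨ, hΨX, hev⟩ := hX.smooth x0 hx0
  have hi : Phi x0 i i ≠ 0 := (Phi_diag_ne hx0.1).2 hxi
  have hch : chart i (Phi x0) = (x0 i)⁻¹ • x0 := chart_Phi hx0.1 hxi
  have hξ0 : (fun k => chart i (Phi x0) (J k)) = fun k => x0 (J k) / x0 i := by
    funext k
    rw [hch, Pi.smul_apply, smul_eq_mul]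
    ring
  have hU0 : (fun k => chart i (Phi x0) (J k)) ∈ U := by rwa [hξ0]
  have hcξ : ContinuousAt (fun (M : Mat (n + 1)) k => chart i M (J k)) (Phi x0) := by
    rw [continuousAt_pi]
    intro k
    exact (continuous_apply (J k)).continuousAt.comp (continuousAt_chart hi)
  have h2 : ∀ᶠ M : Mat (n + 1) in 𝓝 (Phi x0), M i i ≠ 0 ∧
      (fun k => chart i M (J k)) ∈ U ∧
      (x0 i • chart i M ∈ Cone F → x0 i • chart i M =
        (x0 i • chart i M) i • Ψ (fun k => (x0 i • chart i M) (J k) / (x0 i • chart i M) i)) := by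
    refine ((continuous_apply_apply i i).continuousAt.eventually_ne hi).and
      ((hcξ.eventually (hU.mem_nhds hU0)).and ?_)
    have h3 : Tendsto (fun M : Mat (n + 1) => x0 i • chart i M) (𝓝 (Phi x0)) (𝓝 x0) := by
      have h4 := (continuousAt_chart hi).tendsto.const_smul (x0 i)
      rwa [hch, smul_smul, mul_inv_cancel₀ hxi, one_smul] at h4
    exact h3.eventually hev
  obtain ⟨O, hOs, hO, hMO⟩ := _root_.mem_nhds_iff.1 h2
  refine ⟨i, J, O, U, Ψ, hO, hMO, hU, hΨ, fun z hz => hΨX z hz, fun M hM => ?_⟩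
  obtain ⟨e1, e3, e4⟩ := hOs hM
  refine ⟨e1, e3, fun hMT => ?_⟩
  have hcone := chart_cone hX.form hMT e1
  have h5 := e4 (cone_smul hX.form hcone hxi)
  have h7 : (fun k => (x0 i • chart i M) (J k) / (x0 i • chart i M) i) =
      fun k => chart i M (J k) := by
    funext k
    rw [Pi.smul_apply, Pi.smul_apply, smul_eq_mul, smul_eq_mul, PM.chart_self e1, mul_one,
      mul_div_cancel_left₀ _ hxi]
  rw [h7, Pi.smul_apply, smul_eq_mul, PM.chart_self e1, mul_one] at h5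
  exact smul_right_injective _ hxi h5


theorem graph_der {U : Set (Fin d → ℂ)} {Ψ : (Fin d → ℂ) → Fin (n + 1) → ℂ} (hU : IsOpen U)
    (hΨ : AnalyticOnNhd ℂ Ψ U) {i : Fin (n + 1)} {J : Fin d → Fin (n + 1)}
    (hΨX : ∀ z ∈ U, Ψ z ∈ Cone F ∧ Ψ z i = 1 ∧ ∀ k, Ψ z (J k) = z k) {z : Fin d → ℂ} (hz : z ∈ U)
    {v : Fin d → ℂ} (hv : v ≠ 0) : LinearIndependent ℂ ![Ψ z, fderiv ℂ Ψ z v] := by
  have hd1 := (hΨ z hz).differentiableAt.hasFDerivAt
  have hdi : fderiv ℂ Ψ z v i = 0 := by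
    have h3 : HasFDerivAt (fun z => Ψ z i) ((ContinuousLinearMap.proj (R := ℂ)
      (φ := fun _ : Fin (n + 1) => ℂ) i).comp (fderiv ℂ Ψ z)) z :=
      (ContinuousLinearMap.proj (R := ℂ) (φ := fun _ : Fin (n + 1) => ℂ) i).hasFDerivAt.comp z hd1
    have h4 : HasFDerivAt (fun z => Ψ z i) (0 : (Fin d → ℂ) →L[ℂ] ℂ) z :=
      (hasFDerivAt_const (1 : ℂ) z).congr_of_eventuallyEq (by
        filter_upwards [hU.mem_nhds hz] with z' hz'
        exact (hΨX z' hz').2.1)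
    exact DFunLike.congr_fun (h3.unique h4) v
  have hdJ : ∀ k, fderiv ℂ Ψ z v (J k) = v k := by
    intro k
    have h3 : HasFDerivAt (fun z => Ψ z (J k)) ((ContinuousLinearMap.proj (R := ℂ)
      (φ := fun _ : Fin (n + 1) => ℂ) (J k)).comp (fderiv ℂ Ψ z)) z :=
      (ContinuousLinearMap.proj (R := ℂ) (φ := fun _ : Fin (n + 1) => ℂ)
        (J k)).hasFDerivAt.comp z hd1
    have h4 : HasFDerivAt (fun z => Ψ z (J k)) (ContinuousLinearMap.proj (R := ℂ)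
      (φ := fun _ : Fin d => ℂ) k) z :=
      ((ContinuousLinearMap.proj (R := ℂ)
        (φ := fun _ : Fin d => ℂ) k).hasFDerivAt).congr_of_eventuallyEq (by
        filter_upwards [hU.mem_nhds hz] with z' hz'
        exact (hΨX z' hz').2.2 k)
    exact DFunLike.congr_fun (h3.unique h4) v
  rw [LinearIndependent.pair_iff]
  intro a b hab
  have ha : a = 0 := by
    have h3 := congrFun hab i
    simp only [Pi.add_apply, Pi.smul_apply, smul_eq_mul, hdi, (hΨX z hz).2.1, mul_zero,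
      add_zero, mul_one, Pi.zero_apply] at h3
    exact h3
  refine ⟨ha, ?_⟩
  by_contra hb
  apply hv
  funext k
  have h3 := congrFun hab (J k)
  simp only [Pi.add_apply, Pi.smul_apply, smul_eq_mul, hdJ, ha, zero_mul, zero_add,
    Pi.zero_apply] at h3
  exact (mul_eq_zero.1 h3).resolve_left hb

/-- the local lower bound -/
theorem low_loc [Fintype τ] [Nonempty τ] (hX : ProjManifold F d) (hσ : ∀ a, SymDiff (Cone F) d k (σ a))
    (hk : 0 < k) (hn : NoCommonZero (Cone F) d σ) {M0 : Mat (n + 1)} (hM0 : M0 ∈ TF F) :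
    ∃ (O : Set (Mat (n + 1))) (c : ℝ), IsOpen O ∧ M0 ∈ O ∧ 0 < c ∧
    ∀ (W : Set ℂ) (φ : ℂ → Mat (n + 1)), IsOpen W → HolP W φ → (∀ z ∈ W, φ z ∈ TF F) →
      ∀ t ∈ W, φ t ∈ O → ∃ a, c * ‖fderiv ℝ φ t‖ ^ k ≤ ‖hv (σ a) φ t‖ := by
  classical
  obtain ⟨i, J, O, U, Ψ, hO, hMO, hU, hΨ, hΨX, hloc⟩ := graph_of2 hX hM0
  obtain ⟨hi0, hU0, -⟩ := hloc M0 hMO
  set f : τ → (Fin d → ℂ) × (Fin d → ℂ) → ℂ :=
    fun a p => σ a (Ψ p.1) (fderiv ℂ Ψ p.1 p.2) with hfdef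
  have hF : ∀ a, AnalyticOnNhd ℂ (f a) (U ×ˢ univ) := fun a =>
    (hσ a).hol U Ψ hU hΨ fun z hz => (hΨX z hz).1
  set ξ : Mat (n + 1) → Fin d → ℂ := fun M k => chart i M (J k) with hξ
  have hcξ : ContinuousAt ξ M0 := by
    rw [continuousAt_pi]
    intro k
    exact (continuous_apply (J k)).continuousAt.comp (continuousAt_chart hi0)
  obtain ⟨ε, hε, hεU⟩ := Metric.isOpen_iff.1 hU _ hU0
  have hev1 : ∀ᶠ M in 𝓝 M0, ξ M ∈ closedBall (ξ M0) (ε / 2) :=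
    hcξ.eventually (closedBall_mem_nhds _ (by positivity))
  obtain ⟨O2, hO2s, hO2, hMO2⟩ := _root_.mem_nhds_iff.1 (hev1.and (hO.mem_nhds hMO))
  have hsubU : closedBall (ξ M0) (ε / 2) ⊆ U :=
    (closedBall_subset_ball (by linarith)).trans hεU
  set Kc : Set ((Fin d → ℂ) × (Fin d → ℂ)) :=
    closedBall (ξ M0) (ε / 2) ×ˢ sphere (0 : Fin d → ℂ) 1 with hKc
  have hcomp : IsCompact Kc := (isCompact_closedBall _ _).prod (isCompact_sphere _ _)
  -- the lower bound on the compact set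
  obtain ⟨c1, hc1, hc1b⟩ : ∃ c1 : ℝ, 0 < c1 ∧ ∀ p ∈ Kc, c1 ≤ ∑ a, ‖f a p‖ := by
    rcases Kc.eq_empty_or_nonempty with hem | hne
    · exact ⟨1, one_pos, fun p hp => absurd hp (by rw [hem]; exact notMem_empty _)⟩
    obtain ⟨p0, hp0, hmin⟩ := hcomp.exists_isMinOn hne (f := fun p => ∑ a, ‖f a p‖)
      (continuousOn_finsetSum _ fun a _ => fun p hp =>
        ((hF a p ⟨hsubU hp.1, mem_univ _⟩).continuousAt.norm).continuousWithinAt)
    refine ⟨∑ a, ‖f a p0‖, ?_, fun p hp => hmin hp⟩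
    have hv : p0.2 ≠ 0 := by
      intro h0
      have := mem_sphere_zero_iff_norm.1 hp0.2
      rw [h0, norm_zero] at this
      exact zero_ne_one this
    obtain ⟨a, ha⟩ := hn U Ψ hU hΨ (fun z hz => (hΨX z hz).1) p0.1 (hsubU hp0.1) p0.2
      (graph_der hU hΨ hΨX (hsubU hp0.1) hv)
    exact Finset.sum_pos' (fun _ _ => norm_nonneg _) ⟨a, Finset.mem_univ a, norm_pos_iff.2 ha⟩
  -- the bound for the derivative
  obtain ⟨A1, hA1⟩ := (isCompact_closedBall (ξ M0) (ε / 2)).exists_bound_of_continuousOn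
    (f := fun z => fderiv ℝ (Phi : (Fin (n + 1) → ℂ) → Mat (n + 1)) (Ψ z)) (fun z hz => by
      have hzU := hsubU hz
      have h0 : Ψ z ≠ 0 := (hΨX z hzU).1.1
      have h1 : ContinuousAt (fderiv ℝ (Phi : (Fin (n + 1) → ℂ) → Mat (n + 1))) (Ψ z) :=
        ((contDiffAt_Phi h0).fderiv_right (m := 0) (by norm_num)).continuousAt
      exact (ContinuousAt.comp (f := Ψ) h1 (hΨ z hzU).continuousAt).continuousWithinAt)
  obtain ⟨A2, hA2⟩ := (isCompact_closedBall (ξ M0) (ε / 2)).exists_bound_of_continuousOn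
    (f := fun z => fderiv ℂ Ψ z) (fun z hz =>
      ((hΨ z (hsubU hz)).fderiv).continuousAt.continuousWithinAt)
  have hmem0 : ξ M0 ∈ closedBall (ξ M0) (ε / 2) := mem_closedBall_self (by positivity)
  have hA1n : 0 ≤ A1 := (norm_nonneg _).trans (hA1 _ hmem0)
  have hA2n : 0 ≤ A2 := (norm_nonneg _).trans (hA2 _ hmem0)
  set A : ℝ := A1 * A2 + 1 with hA
  have hApos : 0 < A := by positivity
  set cd : ℝ := (Fintype.card τ : ℝ) + 1 with hcd
  have hcdpos : 0 < cd := by positivity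
  refine ⟨O2, c1 / cd / A ^ k, hO2, hMO2, by positivity, fun W φ hW hφ hφT t htW ht => ?_⟩
  have hOt := (hO2s ht).2
  obtain ⟨hit, hUt, ht3⟩ := hloc _ hOt
  have hΨt := ht3 (hφT _ htW)
  have hξt := (hO2s ht).1
  have hev : ∀ᶠ s in 𝓝 t, φ s ∈ O := (hφ.continuousAt htW).eventually (hO.mem_nhds hOt)
  have hd := (an_chartOn hW hφ i htW hit).differentiableAt.hasDerivAt
  set v : Fin d → ℂ := fun k => deriv (fun s => chart i (φ s)) t (J k) with hvdef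
  have hdξ : HasDerivAt (fun s => ξ (φ s)) v t :=
    hasDerivAt_pi.2 fun k => (hasDerivAt_pi.1 hd) (J k)
  have h2 : (fun s => chart i (φ s)) =ᶠ[𝓝 t] Ψ ∘ fun s => ξ (φ s) := by
    filter_upwards [hev, hW.mem_nhds htW] with s hs hsW
    exact (hloc _ hs).2.2 (hφT s hsW)
  have f1 : deriv (fun s => chart i (φ s)) t = fderiv ℂ Ψ (ξ (φ t)) v := by
    have h1 := (hΨ _ hUt).differentiableAt.hasFDerivAt.comp_hasDerivAt t hdξ
    rw [← h1.deriv, ← h2.deriv_eq]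
  have hsv : ∀ a, hv (σ a) φ t = f a (ξ (φ t), v) := by
    intro a
    rw [hv_eq hX (hσ a) hW hφ hφT htW hit]
    unfold sv
    rw [hfdef]
    simp only
    rw [← f1, ← hΨt]
  -- the derivative of the curve
  have hfd : ‖fderiv ℝ φ t‖ ≤ A * ‖v‖ := by
    have k1 : HasFDerivAt (fun s => ξ (φ s))
        ((ContinuousLinearMap.toSpanSingleton ℂ v).restrictScalars ℝ) t :=
      hdξ.hasFDerivAt.restrictScalars ℝ
    have k2 := ((hΨ _ hUt).differentiableAt.hasFDerivAt.restrictScalars ℝ).comp t k1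
    have k3 : HasFDerivAt (Phi : (Fin (n + 1) → ℂ) → Mat (n + 1))
        (fderiv ℝ Phi (Ψ (ξ (φ t)))) (Ψ (ξ (φ t))) :=
      ((contDiffAt_Phi (hΨX _ hUt).1.1).differentiableAt (by norm_num)).hasFDerivAt
    have k4 := k3.comp t k2
    have k5 : φ =ᶠ[𝓝 t] (Phi : (Fin (n + 1) → ℂ) → Mat (n + 1)) ∘ (Ψ ∘ fun s => ξ (φ s)) := by
      filter_upwards [h2, hev, hW.mem_nhds htW] with s hs hsO hsW
      change φ s = Phi ((Ψ ∘ fun s => ξ (φ s)) s)
      rw [← hs, PM.Phi_chart (TF_PM (hφT s hsW)) (hloc _ hsO).1]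
    have k6 := (k4.congr_of_eventuallyEq k5).fderiv
    rw [k6]
    refine (ContinuousLinearMap.opNorm_comp_le _ _).trans ?_
    have k7 : ‖(ContinuousLinearMap.restrictScalars ℝ (fderiv ℂ Ψ (ξ (φ t)))).comp
        ((ContinuousLinearMap.toSpanSingleton ℂ v).restrictScalars ℝ)‖ ≤ A2 * ‖v‖ := by
      refine (ContinuousLinearMap.opNorm_comp_le _ _).trans ?_
      rw [ContinuousLinearMap.norm_restrictScalars, ContinuousLinearMap.norm_restrictScalars,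
        ContinuousLinearMap.norm_toSpanSingleton]
      exact mul_le_mul_of_nonneg_right (hA2 _ hξt) (norm_nonneg _)
    have k8 := hA1 _ hξt
    calc _ ≤ A1 * (A2 * ‖v‖) := mul_le_mul k8 k7 (norm_nonneg _) hA1n
      _ ≤ A * ‖v‖ := by
        rw [hA]
        nlinarith [norm_nonneg v]
  by_cases hv0 : v = 0
  · rw [hv0, norm_zero, mul_zero] at hfd
    have h0 : ‖fderiv ℝ φ t‖ = 0 := le_antisymm hfd (norm_nonneg _)
    -- some index exists
    obtain ⟨a⟩ := ‹Nonempty τ›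
    exact ⟨a, by rw [h0, zero_pow hk.ne', mul_zero]; exact norm_nonneg _⟩
  · have hvpos : 0 < ‖v‖ := norm_pos_iff.2 hv0
    have hvn : (‖v‖ : ℂ) ≠ 0 := by exact_mod_cast hvpos.ne'
    set w : Fin d → ℂ := (‖v‖ : ℂ)⁻¹ • v with hw
    have hwK : (ξ (φ t), w) ∈ Kc := by
      refine ⟨hξt, ?_⟩
      rw [mem_sphere_zero_iff_norm, hw, norm_smul, norm_inv, Complex.norm_real, norm_norm]
      exact inv_mul_cancel₀ hvpos.ne'
    obtain ⟨a, ha⟩ : ∃ a, c1 / cd ≤ ‖f a (ξ (φ t), w)‖ := by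
      by_contra hcon
      push Not at hcon
      have h3 := hc1b _ hwK
      have h4 : ∑ a, ‖f a (ξ (φ t), w)‖ ≤ ∑ _a : τ, c1 / cd :=
        Finset.sum_le_sum fun a _ => (hcon a).le
      rw [Finset.sum_const, Finset.card_univ, nsmul_eq_mul] at h4
      have h5 : (Fintype.card τ : ℝ) * (c1 / cd) < c1 := by
        rw [← mul_div_assoc, div_lt_iff₀ hcdpos, hcd]
        nlinarith
      linarith
    refine ⟨a, ?_⟩
    have e1 : v = (‖v‖ : ℂ) • w := by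
      rw [hw, smul_smul, mul_inv_cancel₀ hvn, one_smul]
    have e2 : f a (ξ (φ t), v) = (‖v‖ : ℂ) ^ k * f a (ξ (φ t), w) := by
      rw [hfdef]
      simp only
      conv_lhs => rw [e1, map_smul]
      exact (hσ a).deg (Ψ _) (hΨX _ hUt).1 _ _
    rw [hsv, e2, norm_mul, norm_pow, Complex.norm_real, norm_norm]
    calc c1 / cd / A ^ k * ‖fderiv ℝ φ t‖ ^ k ≤ c1 / cd / A ^ k * (A * ‖v‖) ^ k :=
          mul_le_mul_of_nonneg_left (pow_le_pow_left₀ (norm_nonneg _) hfd k) (by positivity)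
      _ = ‖v‖ ^ k * (c1 / cd) := by
          rw [mul_pow]
          field_simp
      _ ≤ _ := mul_le_mul_of_nonneg_left ha (by positivity)

/-- **The lower bound.** -/
theorem hv_low [Fintype τ] [Nonempty τ] (hX : ProjManifold F d)
    (hσ : ∀ a, SymDiff (Cone F) d k (σ a)) (hk : 0 < k) (hn : NoCommonZero (Cone F) d σ) :
    ∃ c : ℝ, 0 < c ∧ ∀ (W : Set ℂ) (φ : ℂ → Mat (n + 1)), IsOpen W → HolP W φ →
      (∀ z ∈ W, φ z ∈ TF F) → ∀ t ∈ W, ∃ a, c * ‖fderiv ℝ φ t‖ ^ k ≤ ‖hv (σ a) φ t‖ := by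
  have hbd : ∃ c : ℝ, 0 < c ∧ ∀ M ∈ TF F, ∀ (W : Set ℂ) (φ : ℂ → Mat (n + 1)), IsOpen W →
      HolP W φ → (∀ z ∈ W, φ z ∈ TF F) → ∀ t ∈ W, φ t = M →
      ∃ a, c * ‖fderiv ℝ φ t‖ ^ k ≤ ‖hv (σ a) φ t‖ := by
    refine (isCompact_TF hX.form).induction_on (p := fun s => ∃ c : ℝ, 0 < c ∧ ∀ M ∈ s,
      ∀ (W : Set ℂ) (φ : ℂ → Mat (n + 1)), IsOpen W → HolP W φ →
      (∀ z ∈ W, φ z ∈ TF F) → ∀ t ∈ W, φ t = M →
      ∃ a, c * ‖fderiv ℝ φ t‖ ^ k ≤ ‖hv (σ a) φ t‖) ?_ ?_ ?_ ?_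
    · exact ⟨1, one_pos, fun M hM => absurd hM (notMem_empty _)⟩
    · rintro s s' hss ⟨c, hc, hC⟩
      exact ⟨c, hc, fun M hM => hC M (hss hM)⟩
    · rintro s s' ⟨c, hc, hC⟩ ⟨c', hc', hC'⟩
      refine ⟨min c c', lt_min hc hc', fun M hM W φ hW hφ hφT t ht hi => ?_⟩
      rcases hM with hM | hM
      · obtain ⟨a, ha⟩ := hC M hM W φ hW hφ hφT t ht hi
        exact ⟨a, (mul_le_mul_of_nonneg_right (min_le_left _ _) (by positivity)).trans ha⟩
      · obtain ⟨a, ha⟩ := hC' M hM W φ hW hφ hφT t ht hi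
        exact ⟨a, (mul_le_mul_of_nonneg_right (min_le_right _ _) (by positivity)).trans ha⟩
    · intro M hM
      obtain ⟨O, c, hO, hMO, hc, h1⟩ := low_loc hX hσ hk hn hM
      exact ⟨O, mem_nhdsWithin_of_mem_nhds (hO.mem_nhds hMO), c, hc,
        fun M' hM' W φ hW hφ hφT t ht he => h1 W φ hW hφ hφT t ht (by rwa [he])⟩
  obtain ⟨c, hc, hC⟩ := hbd
  exact ⟨c, hc, fun W φ hW hφ hφT t ht => hC _ (hφT t ht) W φ hW hφ hφT t ht rfl⟩

/-- **The values**: the common upper and lower bounds. -/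
theorem hv_main [Fintype τ] [Nonempty τ] (hX : ProjManifold F d)
    (hσ : ∀ a, SymDiff (Cone F) d k (σ a)) (hk : 0 < k) (hn : NoCommonZero (Cone F) d σ) :
    ∃ c C : ℝ, 0 < c ∧ 0 < C ∧ ∀ (W : Set ℂ) (φ : ℂ → Mat (n + 1)), IsOpen W → HolP W φ →
      (∀ z ∈ W, φ z ∈ TF F) → (∀ a, DifferentiableOn ℂ (hv (σ a) φ) W) ∧
      ∀ t ∈ W, (∀ a, ‖hv (σ a) φ t‖ ≤ C * ‖fderiv ℝ φ t‖ ^ k) ∧
        ∃ a, c * ‖fderiv ℝ φ t‖ ^ k ≤ ‖hv (σ a) φ t‖ := by
  classical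
  obtain ⟨c, hc, hlow⟩ := hv_low hX hσ hk hn
  choose C hC hup using fun a => hv_bound hX (hσ a) hk
  refine ⟨c, ∑ a, C a, hc, Finset.sum_pos (fun a _ => hC a) Finset.univ_nonempty,
    fun W φ hW hφ hφT => ⟨fun a => hv_diff hX (hσ a) hk hW hφ hφT, fun t ht => ⟨fun a => ?_,
      hlow W φ hW hφ hφT t ht⟩⟩⟩
  refine (hup a W φ hW hφ hφT t ht).trans (mul_le_mul_of_nonneg_right ?_ (by positivity))
  exact Finset.single_le_sum (f := C) (fun b _ => (hC b).le) (Finset.mem_univ a)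

end Pool.Agent.N155.QD
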