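import Pool.Agent.N155.Q.Itr

/-! The maximum principle. -/

set_option autoImplicit false

open Filter Topology Metric Set MvPolynomial

namespace Pool.Agent.N155.QD

open Pool.Agent.Y190.OP Pool.Agent.W602.GT Pool.Agent.TH143.GT Pool.Agent.N155
  Pool.Agent.N155.BB Pool.Agent.N155.GD

variable {N : ℕ} {T Z : Set (Mat N)} {τ κ : Type} {Hv : τ → (ℂ → Mat N) → ℂ → ℂ} {k : ℕ}
  {c C C1 : ℝ} {p : Mat N → ℝ} {ω : κ → (Fin N → ℂ) → (Fin N → ℂ) → (Fin N → ℂ) → ℂ}

theorem maxp (hG : GW T Z ω) (hTc : IsCompact T) (hTP : T ⊆ PM)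
    (hZ : ∀ c : ℝ, 0 < c → ∀ φ, BCw T c φ → ∃ z, φ z ∉ Z) (hT : Ctl T Hv k c C) (hc : 0 < c)
    (hC : 0 < C) (hk : 0 < k) :
    ∃ c0 : ℝ, 0 < c0 ∧ c0 = 2 * min 1 (c / 2 / C) / max 1 (2 * C / c) ∧
      ∀ β : ℕ → ℝ, (∀ j, 0 < β j) → ∀ A : ℝ, 0 < A → ∃ (j : ℕ) (N0 : ℝ), 0 < N0 ∧
      ∀ φ : ℂ → Mat N, HolP (ball 0 (j + 2)) φ → (∀ z ∈ ball (0 : ℂ) (j + 2), φ z ∈ T) →
      (∀ i : ℕ, i ≤ j → ∀ z ∈ closedBall (0 : ℂ) (1 / 4 + i / 8),
        ‖fderiv ℝ φ z‖ ≤ β i * ‖fderiv ℝ φ 0‖) → N0 ≤ ‖fderiv ℝ φ 0‖ →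
      ∃ (Q : ℂ → Mat N) (w : ℂ), BCw T c0 Q ∧
        ‖φ 0 - Q w‖ ≤ Real.exp (-(A * ‖fderiv ℝ φ 0‖ ^ 2)) := by
  classical
  set K1 : ℝ := max 1 (2 * C / c) with hK1
  set c2 : ℝ := min 1 (c / 2 / C) with hc2
  have hK11 : 1 ≤ K1 := le_max_left _ _
  have hK1p : 0 < K1 := one_pos.trans_le hK11
  have hc2p : 0 < c2 := lt_min one_pos (by positivity)
  have hc21 : c2 ≤ 1 := min_le_left _ _
  set c0 : ℝ := 2 * c2 / K1 with hc0
  have hc0p : 0 < c0 := by positivity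
  set K : ℝ := K1 / c2 with hK
  have hKK1 : K1 ≤ K := by
    rw [hK, le_div_iff₀ hc2p]
    nlinarith
  have hKc2 : 1 / c2 ≤ K := div_le_div_of_nonneg_right hK11 hc2p.le
  have hK1' : 1 ≤ K := hK11.trans hKK1
  have hKp : 0 < K := one_pos.trans_le hK1'
  have hcls := BCw.cls hTc hTP hc0p
  have hd := dcl_of hTc hTP hc0p
  obtain ⟨r, ci, hr, hci, hi⟩ := hcls.inj
  obtain ⟨δ1, ρ1, hδ1, hρ1, huniq⟩ := uniq_e hG hTc hTP hZ hc0p hK1' hr hci hi
  obtain ⟨ρ, δ2, hρ, hδ2, hcontr⟩ := contr_e hG (hZ c0 hc0p) hd hi hr hci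
    (θ := 1 / 4) (by norm_num)
  set δ : ℝ := min (min δ1 δ2) 1 with hδ
  have hδp : 0 < δ := by positivity
  have hδ1' : δ ≤ δ1 := (min_le_left _ _).trans (min_le_left _ _)
  have hδ2' : δ ≤ δ2 := (min_le_left _ _).trans (min_le_right _ _)
  have hδ1'' : δ ≤ 1 := min_le_right _ _
  have huniq' : ∀ (P Q Q' : ℂ → Mat N) (τ : ℝ), 1 / K ≤ τ → τ ≤ K →
      BCw T c0 Q → BCw T c0 Q' → (∀ z ∈ closedBall (0 : ℂ) ρ1, ‖P z - Q (τ * z)‖ ≤ δ) →
      (∀ z ∈ closedBall (0 : ℂ) ρ1, ‖P z - Q' z‖ ≤ δ) → ∀ v : ℂ, ‖v‖ ≤ r → ‖P 0 - Q' v‖ ≤ δ →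
      ∃ w : ℂ, ‖w‖ ≤ r ∧ Q w = Q' v := fun P Q Q' τ h1 h2 h3 h4 h5 h6 v h7 h8 =>
    huniq P Q Q' τ h1 h2 h3 h4 (fun z hz => (h5 z hz).trans hδ1') (fun z hz => (h6 z hz).trans hδ1')
      v h7 (h8.trans hδ1')
  obtain ⟨Rc, hclose⟩ := close_e hd (ρ := ρ + K * ρ1) hδp
  set Rb : ℝ := max Rc (ρ + 1) with hRb
  have hRbρ : ρ + 1 ≤ Rb := le_max_right _ _
  have hRbp : 0 < Rb := by linarith
  set κ : ℝ := Real.log 2 * (K1 * c2) ^ 2 / (32 * ρ ^ 2) with hκ
  have hl2 : 0 < Real.log 2 := Real.log_pos one_lt_two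
  have hκp : 0 < κ := by positivity
  refine ⟨c0, hc0p, hc0, fun β hβ A hA => ?_⟩
  set b0 : ℝ := C * β 6 ^ k with hb0
  have hb0p : 0 < b0 := by have := hβ 6; positivity
  set r0 : ℝ := min (1 / 4) (c / (8 * b0)) with hr0
  have hr0p : 0 < r0 := by positivity
  have hr04 : r0 ≤ 1 / 4 := min_le_left _ _
  have hr0b : 8 * b0 * r0 ≤ c := by
    have := min_le_right (1 / 4) (c / (8 * b0))
    rw [← hr0, le_div_iff₀ (by positivity)] at this
    linarith
  set R : ℝ := r0 * Real.exp ((A + 2) / (κ * r0 ^ 2)) with hR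
  have hRr0 : r0 < R := by
    rw [hR]
    have : 1 < Real.exp ((A + 2) / (κ * r0 ^ 2)) := Real.one_lt_exp_iff.2 (by positivity)
    nlinarith
  have hRp : 0 < R := hr0p.trans hRr0
  obtain ⟨q, hq0, hqm, hqR, hqF⟩ := pot hr0p hRr0 hκp
  have hq0A : A + 2 ≤ q 0 := by
    rw [hq0, hR, mul_div_cancel_left₀ _ hr0p.ne', Real.log_exp]
    have h1 : κ * r0 ^ 2 * (1 / 2 + (A + 2) / (κ * r0 ^ 2)) = κ * r0 ^ 2 / 2 + (A + 2) := by
      field_simp
    rw [h1]
    have : 0 < κ * r0 ^ 2 := by positivity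
    linarith
  have hq0p : 0 < q 0 := by linarith
  set j : ℕ := max 6 ⌈8 * R⌉₊ with hj
  have hj6 : 6 ≤ j := le_max_left _ _
  have hjR : 8 * R ≤ j := (Nat.le_ceil _).trans (by exact_mod_cast le_max_right _ _)
  set β' : ℝ := β j with hβ'
  have hβ'p : 0 < β' := hβ j
  set B : ℝ := max 1 (C * β' ^ k) with hB
  have hB1 : 1 ≤ B := le_max_left _ _
  have hBp : 0 < B := one_pos.trans_le hB1
  set B2 : ℝ := max 1 (B / c) with hB2
  have hB21 : 1 ≤ B2 := le_max_left _ _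
  have hB2p : 0 < B2 := one_pos.trans_le hB21
  set b : ℝ := Real.log B2 with hb
  have hb0' : 0 ≤ b := Real.log_nonneg hB21
  set Tt : ℝ := max (max 1 (b * q 0)) (max (-Real.log c) (-Real.log C)) with hTt
  have hTt1 : 1 ≤ Tt := (le_max_left _ _).trans (le_max_left _ _)
  have hTtp : 0 < Tt := one_pos.trans_le hTt1
  have hTtb : b * q 0 ≤ Tt := (le_max_right _ _).trans (le_max_left _ _)
  have hTtc : -Real.log c ≤ Tt := (le_max_left _ _).trans (le_max_right _ _)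
  set t : ℝ := Real.exp (-Tt) with ht
  have htp : 0 < t := Real.exp_pos _
  have htc : t ≤ c := by
    rw [← Real.exp_log hc, ht]
    exact Real.exp_le_exp.2 (by linarith)
  set ε : ℝ := q 0 / Tt with hε
  have hεp : 0 < ε := by positivity
  set η : ℝ := min (c / 2) C with hη
  have hηp : 0 < η := by positivity
  set ϖ : ℝ := min (1 / 8) (η * t / (16 * C ^ 2 * β' ^ k)) with hϖ
  have hϖp : 0 < ϖ := by positivity
  have hϖ8 : ϖ ≤ 1 / 8 := min_le_left _ _
  have hϖη : 16 * C ^ 2 * β' ^ k * ϖ ≤ η * t := by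
    have := min_le_right (1 / 8) (η * t / (16 * C ^ 2 * β' ^ k))
    rw [← hϖ, le_div_iff₀ (by positivity)] at this
    linarith
  set x : ℝ := min 1 (t / C) with hx
  have hxp : 0 < x := by positivity
  have hx1 : x ≤ 1 := min_le_left _ _
  set N0 : ℝ := max (max 1 b) (max (2 * Rb / (x * ϖ)) (4 * (ρ + 1) / (x * r0))) with hN0
  have hN01 : 1 ≤ N0 := (le_max_left _ _).trans (le_max_left _ _)
  have hN0b : b ≤ N0 := (le_max_right _ _).trans (le_max_left _ _)
  have hN02 : 2 * Rb / (x * ϖ) ≤ N0 := (le_max_left _ _).trans (le_max_right _ _)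
  have hN03 : 4 * (ρ + 1) / (x * r0) ≤ N0 := (le_max_right _ _).trans (le_max_right _ _)
  refine ⟨j, N0, one_pos.trans_le hN01, fun φ hφ hφT hβφ hN => ?_⟩
  set M : ℝ := ‖fderiv ℝ φ 0‖ with hM
  have hM1 : 1 ≤ M := hN01.trans hN
  have hMp : 0 < M := one_pos.trans_le hM1
  have hMk : 0 < M ^ k := by positivity
  have hj0 : (6 : ℝ) ≤ j := by exact_mod_cast hj6
  obtain ⟨hd1, hd2⟩ := hT (ball 0 (j + 2)) φ isOpen_ball hφ hφT
  have h0b : (0 : ℂ) ∈ ball (0 : ℂ) (j + 2) := mem_ball_self (by linarith)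
  obtain ⟨-, a, ha⟩ := hd2 0 h0b
  rw [← hM] at ha
  set H : ℂ → ℂ := fun z => Hv a φ z / ((M ^ k : ℝ) : ℂ) with hH
  have hHn : ∀ z, ‖H z‖ = ‖Hv a φ z‖ / M ^ k := fun z => by
    rw [hH]
    simp only
    rw [norm_div, Complex.norm_real, Real.norm_of_nonneg hMk.le]
  have hH0 : c ≤ ‖H 0‖ := by
    rw [hHn, le_div_iff₀ hMk]
    exact ha
  have hHd : DifferentiableOn ℂ H (ball 0 (j + 2)) := (hd1 a).div_const _
  have hβj : ∀ z : ℂ, ‖z‖ ≤ R + 1 / 4 → ‖fderiv ℝ φ z‖ ≤ β' * M := fun z hz =>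
    hβφ j le_rfl z (mem_closedBall_zero_iff.2 (by linarith))
  have hRj : R + 1 / 4 < j + 2 := by linarith
  have hHB : ∀ z : ℂ, ‖z‖ ≤ R + 1 / 4 → ‖H z‖ ≤ B := by
    intro z hz
    refine le_trans ?_ (le_max_right _ _)
    rw [hHn, div_le_iff₀ hMk, mul_assoc, ← mul_pow]
    exact ((hd2 z (mem_ball_zero_iff.2 (by linarith))).1 a).trans
      (mul_le_mul_of_nonneg_left (pow_le_pow_left₀ (norm_nonneg _) (hβj z hz) k) hC.le)
  have hH6 : ∀ z ∈ ball (0 : ℂ) 1, ‖H z‖ ≤ b0 := by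
    intro z hz
    rw [mem_ball_zero_iff] at hz
    rw [hHn, div_le_iff₀ hMk, hb0, mul_assoc, ← mul_pow]
    exact ((hd2 z (mem_ball_zero_iff.2 (by linarith))).1 a).trans
      (mul_le_mul_of_nonneg_left (pow_le_pow_left₀ (norm_nonneg _)
        (hβφ 6 hj6 z (mem_closedBall_zero_iff.2 (by push_cast; linarith))) k) hC.le)
  have hHlow : ∀ z : ℂ, ‖z‖ ≤ 2 * r0 → c / 2 ≤ ‖H z‖ := by
    intro z hz
    have h1 := schw (hHd.mono (ball_subset_ball (by linarith))) one_pos hH6 (z := z)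
      (mem_ball_zero_iff.2 (by linarith))
    rw [sub_zero, div_one] at h1
    have h2 : 2 * b0 * ‖z‖ ≤ 2 * b0 * (2 * r0) := mul_le_mul_of_nonneg_left hz (by positivity)
    have h3 := norm_sub_norm_le (H 0) (H z)
    rw [norm_sub_rev] at h3
    linarith
  set Ω : Set ℂ := {z | ‖z‖ ≤ R ∧ t ≤ ‖H z‖} with hΩ
  have hΩR : ∀ z ∈ Ω, ‖z‖ ≤ R := fun z hz => hz.1
  have h0Ω : (0 : ℂ) ∈ Ω := ⟨by rw [norm_zero]; exact hRp.le, htc.trans hH0⟩
  have hst : ∀ z ∈ Ω, t * M ^ k ≤ C * ‖fderiv ℝ φ z‖ ^ k := by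
    intro z hz
    have h1 := hz.2
    rw [hHn, le_div_iff₀ hMk] at h1
    exact h1.trans ((hd2 z (mem_ball_zero_iff.2 (by linarith [hΩR z hz]))).1 a)
  have hsx : ∀ z ∈ Ω, x * M ≤ ‖fderiv ℝ φ z‖ := fun z hz =>
    low_of hC hk (norm_nonneg _) hMp.le hxp hx1 (min_le_right _ _) (hst z hz)
  have hsp : ∀ z ∈ Ω, 0 < ‖fderiv ℝ φ z‖ := fun z hz => lt_of_lt_of_le (by positivity) (hsx z hz)
  set g : ℂ → ℝ := fun z => 2 / (K1 * ‖fderiv ℝ φ z‖) with hg
  have hgp : ∀ z ∈ Ω, 0 < g z := fun z hz => by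
    have := hsp z hz
    rw [hg]
    positivity
  have hgx : ∀ z ∈ Ω, g z ≤ 2 / (x * M) := by
    intro z hz
    have h1 := hsp z hz
    have h2 := hsx z hz
    rw [hg]
    apply div_le_div_of_nonneg_left zero_le_two (by positivity)
    nlinarith
  have hgRb : ∀ z ∈ Ω, g z * Rb ≤ ϖ := by
    intro z hz
    have h1 := mul_le_mul_of_nonneg_right (hgx z hz) hRbp.le
    refine h1.trans ?_
    have h2 := hN02.trans hN
    rw [div_le_iff₀ (by positivity)] at h2
    rw [div_mul_eq_mul_div, div_le_iff₀ (by positivity)]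
    linarith
  have hgr0 : ∀ z ∈ Ω, g z * (ρ + 1) ≤ r0 / 2 := by
    intro z hz
    have h1 := mul_le_mul_of_nonneg_right (hgx z hz) (by linarith : 0 ≤ ρ + 1)
    refine h1.trans ?_
    have h2 := hN03.trans hN
    rw [div_le_iff₀ (by positivity)] at h2
    rw [div_mul_eq_mul_div, div_le_div_iff₀ (by positivity) two_pos]
    linarith
  -- the behaviour near points of Ω
  have hloc : ∀ z ∈ Ω, ∀ w : ℂ, ‖w - z‖ < ϖ → ‖fderiv ℝ φ w‖ ≤ K1 * ‖fderiv ℝ φ z‖ ∧
      c2 * ‖fderiv ℝ φ z‖ ≤ ‖fderiv ℝ φ w‖ := by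
    intro z hz w hw
    have hzR := hΩR z hz
    have hbn : ∀ y ∈ ball z (1 / 8), ‖y‖ ≤ R + 1 / 4 := by
      intro y hy
      rw [mem_ball, dist_eq_norm] at hy
      have := norm_add_le (y - z) z
      rw [sub_add_cancel] at this
      linarith
    have hb : ball z (1 / 8) ⊆ ball 0 ((j : ℝ) + 2) := fun y hy =>
      mem_ball_zero_iff.2 ((hbn y hy).trans_lt hRj)
    refine resc hT hc hC hk (ρ := 1 / 8) (B := β' * M) (by norm_num) (hφ.mono hb)
      (fun y hy => hφT y (hb hy)) (fun y hy => hβj y (hbn y hy))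
      (by rw [mem_ball, dist_eq_norm]; linarith) ?_
    have h1 : 2 * (C * (β' * M) ^ k) / (1 / 8) * ‖w - z‖ ≤ 2 * (C * (β' * M) ^ k) / (1 / 8) * ϖ :=
      mul_le_mul_of_nonneg_left hw.le (by positivity)
    have h2 : 2 * (C * (β' * M) ^ k) / (1 / 8) * ϖ = 16 * C ^ 2 * β' ^ k * ϖ * (M ^ k / C) := by
      rw [mul_pow]
      field_simp
      ring
    have h3 : 16 * C ^ 2 * β' ^ k * ϖ * (M ^ k / C) ≤ η * t * (M ^ k / C) :=
      mul_le_mul_of_nonneg_right hϖη (by positivity)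
    have h4 : η * t * (M ^ k / C) ≤ η * ‖fderiv ℝ φ z‖ ^ k := by
      have h5 : t * M ^ k / C ≤ ‖fderiv ℝ φ z‖ ^ k := by
        rw [div_le_iff₀ hC]
        have := hst z hz
        linarith
      calc η * t * (M ^ k / C) = η * (t * M ^ k / C) := by ring
        _ ≤ _ := mul_le_mul_of_nonneg_left h5 hηp.le
    linarith
  have haffn : ∀ z ∈ Ω, ∀ ζ : ℂ, ‖aff z (g z) ζ - z‖ = g z * ‖ζ‖ := by
    intro z hz ζ
    unfold aff
    rw [add_sub_cancel_left, norm_mul, Complex.norm_real, Real.norm_of_nonneg (hgp z hz).le]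
  have haffb : ∀ z ∈ Ω, ∀ ζ ∈ ball (0 : ℂ) Rb, ‖aff z (g z) ζ - z‖ < ϖ := by
    intro z hz ζ hζ
    rw [mem_ball_zero_iff] at hζ
    rw [haffn z hz]
    exact (mul_lt_mul_of_pos_left hζ (hgp z hz)).trans_le (hgRb z hz)
  have hin : ∀ z ∈ Ω, ∀ w : ℂ, ‖w - z‖ < ϖ → w ∈ ball (0 : ℂ) (j + 2) ∧ ‖w‖ ≤ R + 1 / 4 := by
    intro z hz w hw
    have h1 := norm_add_le (w - z) z
    rw [sub_add_cancel] at h1
    have h2 := hΩR z hz
    exact ⟨mem_ball_zero_iff.2 (by linarith), by linarith⟩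
  have hD : ∀ z ∈ Ω, Dw T c0 Rb (fun ζ => φ (aff z (g z) ζ)) := by
    intro z hz
    have hs := hsp z hz
    have hfd : ∀ ζ ∈ ball (0 : ℂ) Rb, ‖fderiv ℝ (fun ζ => φ (aff z (g z) ζ)) ζ‖ =
        g z * ‖fderiv ℝ φ (aff z (g z) ζ)‖ := fun ζ hζ =>
      norm_fderiv_aff (hgp z hz).le (hφ.differentiableAt (hin z hz _ (haffb z hz ζ hζ)).1)
    refine ⟨(hφ.aff z (g z)).mono fun ζ hζ => (hin z hz _ (haffb z hz ζ hζ)).1,
      fun ζ hζ => hφT _ (hin z hz _ (haffb z hz ζ hζ)).1, fun ζ hζ => ?_, fun ζ hζ => ?_⟩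
    · rw [hfd ζ hζ]
      have h1 := (hloc z hz _ (haffb z hz ζ hζ)).1
      have h2 := mul_le_mul_of_nonneg_left h1 (hgp z hz).le
      have h3 : g z * (K1 * ‖fderiv ℝ φ z‖) = 2 := by
        rw [hg]
        field_simp
      linarith
    · rw [hfd ζ hζ]
      have h1 := (hloc z hz _ (haffb z hz ζ hζ)).2
      have h2 := mul_le_mul_of_nonneg_left h1 (hgp z hz).le
      have h3 : g z * (c2 * ‖fderiv ℝ φ z‖) = c0 := by
        rw [hg, hc0]
        field_simp
      linarith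
  have hQex : ∀ z : ℂ, ∃ Q : ℂ → Mat N, z ∈ Ω → BCw T c0 Q ∧
      ∀ y ∈ closedBall (0 : ℂ) (ρ + K * ρ1), ‖φ (aff z (g z) y) - Q y‖ ≤ δ := by
    intro z
    by_cases hz : z ∈ Ω
    · obtain ⟨Q, h1, h2⟩ := hclose Rb _ (le_max_left _ _) (hD z hz)
      exact ⟨Q, fun _ => ⟨h1, h2⟩⟩
    · exact ⟨φ, fun h => absurd h hz⟩
  choose Q hQ using hQex
  set v : ℝ := M ^ 2 with hv
  have hvp : 0 < v := by positivity
  set m : ℕ := ⌈ε * v⌉₊ with hm
  have hm1 : ε * v ≤ m := Nat.le_ceil _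
  have hm2 : (m : ℝ) ≤ ε * v + 1 := (Nat.ceil_lt_add_one (by positivity)).le
  have hKρ1 : 0 < K * ρ1 := by positivity
  have main := iter_e (Ω := Ω) (D := fun z => EN r (fun ζ => φ (aff z (g z) ζ)) (Q z) 0 0) (q := q)
    (H := H) (m := m) (v := v) (δ := δ) (B := B) (R := R) (t := t) hδp hB1 hvp.le htp.le
    (fun z hz => by
      refine (EN_le (w := 0) (by rw [sub_self, norm_zero]; exact hr.le)).trans ?_
      exact (hQ z hz).2 0 (mem_closedBall_self (by linarith)))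
    (fun z => Iff.rfl) (fun z hz => hHB z (by linarith [hΩR z hz])) hqm hqR
    (by
      rw [ht, ← Real.exp_nat_mul, ← Real.exp_add, Real.exp_le_one_iff]
      have h1 : v * q 0 = ε * v * Tt := by
        rw [hε]
        field_simp
      rw [h1]
      have := mul_le_mul_of_nonneg_right hm1 hTtp.le
      linarith)
    (fun z hz => by
      obtain ⟨F, hFd, hFl⟩ := hqF z
      have hgz := hgp z hz
      have hHz : 0 < ‖H z‖ := htp.trans_le hz.2
      set W : ℂ → ℂ := fun ζ => H (aff z (g z) ζ) ^ m * Complex.exp (v * F (aff z (g z) ζ)) with hW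
      have hbz : ∀ ζ ∈ ball (0 : ℂ) (ρ + 1), aff z (g z) ζ ∈ ball z (r0 / 2) := by
        intro ζ hζ
        rw [mem_ball_zero_iff] at hζ
        rw [mem_ball, dist_eq_norm, haffn z hz]
        exact (mul_lt_mul_of_pos_left hζ hgz).trans_le (hgr0 z hz)
      have hρb : ∀ ζ ∈ ball (0 : ℂ) (ρ + 1), ζ ∈ ball (0 : ℂ) Rb := fun ζ hζ =>
        ball_subset_ball hRbρ hζ
      have haffd : Differentiable ℂ (aff z (g z)) := aff_diff z (g z)
      have hWd : DifferentiableOn ℂ W (ball 0 (ρ + 1)) := by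
        refine DifferentiableOn.mul (DifferentiableOn.pow ?_ m) (DifferentiableOn.cexp ?_)
        · exact hHd.comp haffd.differentiableOn
            (fun ζ hζ => (hin z hz _ (haffb z hz ζ (hρb ζ hζ))).1)
        · exact (hFd.comp haffd.differentiableOn (fun ζ hζ => hbz ζ hζ)).const_mul _
      have hW0 : W 0 ≠ 0 := by
        rw [hW]
        simp only [aff0]
        exact mul_ne_zero (pow_ne_zero _ (norm_pos_iff.1 hHz)) (Complex.exp_ne_zero _)
      have hWn : ∀ ζ, ‖W ζ‖ = ‖H (aff z (g z) ζ)‖ ^ m * Real.exp (v * (F (aff z (g z) ζ)).re) := by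
        intro ζ
        rw [hW]
        simp only
        rw [norm_mul, norm_pow, Complex.norm_exp, Complex.re_ofReal_mul]
      have hDρ : Dw T c0 (ρ + 1) (fun ζ => φ (aff z (g z) ζ)) :=
        ⟨(hD z hz).hol.mono (ball_subset_ball hRbρ), fun y hy => (hD z hz).mem y (hρb y hy),
          fun y hy => (hD z hz).bd y (hρb y hy), fun y hy => (hD z hz).low y (hρb y hy)⟩
      obtain ⟨ζ, hζ, hle⟩ := hcontr (fun ζ => φ (aff z (g z) ζ)) (Q z) (hQ z hz).1 hDρ
        (fun y hy => ((hQ z hz).2 y (closedBall_subset_closedBall (by linarith) hy)).trans hδ2')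
        W hWd hW0
      have hζρ : ‖ζ‖ ≤ ρ := mem_closedBall_zero_iff.1 hζ
      have hζb : ζ ∈ ball (0 : ℂ) (ρ + 1) := mem_ball_zero_iff.2 (by linarith)
      have hz'1 := haffb z hz ζ (hρb ζ hζb)
      have hz'2 := hin z hz _ hz'1
      refine ⟨aff z (g z) ζ, EN r (fun ζ => φ (aff z (g z) ζ)) (Q z) ζ ζ, EN_nonneg _ _, ?_, ?_,
        hHB _ hz'2.2, ?_⟩
      · refine (EN_le (w := ζ) (by rw [sub_self, norm_zero]; exact hr.le)).trans ?_
        exact (hQ z hz).2 ζ (closedBall_subset_closedBall (by linarith) hζ)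
      · intro hz'
        obtain ⟨h1, h2⟩ := hloc z hz _ hz'1
        have hs := hsp z hz
        have hs' := hsp _ hz'
        have hratio : g (aff z (g z) ζ) / g z =
            ‖fderiv ℝ φ z‖ / ‖fderiv ℝ φ (aff z (g z) ζ)‖ := by
          simp only [hg]
          field_simp
        refine cmp_e hTc hTP hc0p huniq' hr hK1' hρ hρ1 hgz (hgp _ hz') ?_ ?_ rfl hζρ (hQ z hz).1
          (hQ _ hz').1 (hQ z hz).2 (hQ _ hz').2
        · rw [hratio, div_le_div_iff₀ hKp hs', one_mul]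
          exact h1.trans (by rw [mul_comm]; exact mul_le_mul_of_nonneg_left hKK1 hs.le)
        · rw [hratio, div_le_iff₀ hs']
          refine le_trans ?_ (mul_le_mul_of_nonneg_right hKc2 hs'.le)
          rw [one_div_mul_eq_div, le_div_iff₀ hc2p, mul_comm]
          exact h2
      · rw [hWn, hWn, aff0] at hle
        have hFl' := hFl _ (hbz ζ hζb)
        have herr : v * (if ‖z‖ ≤ 2 * r0 then 8 * κ * ‖aff z (g z) ζ - z‖ ^ 2 else 0) ≤
            Real.log 2 := by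
          split_ifs with hzr
          · have h1 := hHlow z hzr
            rw [hHn, le_div_iff₀ hMk] at h1
            have h2 : c / 2 * M ^ k ≤ C * ‖fderiv ℝ φ z‖ ^ k :=
              h1.trans ((hd2 z (mem_ball_zero_iff.2 (by linarith [hΩR z hz]))).1 a)
            have h3 : c2 * M ≤ ‖fderiv ℝ φ z‖ :=
              low_of hC hk (norm_nonneg _) hMp.le hc2p hc21 (min_le_right _ _) h2
            rw [haffn z hz]
            have h4 : g z * ‖ζ‖ ≤ 2 / (K1 * (c2 * M)) * ρ := by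
              apply mul_le_mul _ hζρ (norm_nonneg _) (by positivity)
              rw [hg]
              apply div_le_div_of_nonneg_left zero_le_two (by positivity)
              exact mul_le_mul_of_nonneg_left h3 hK1p.le
            have h5 : (g z * ‖ζ‖) ^ 2 ≤ (2 / (K1 * (c2 * M)) * ρ) ^ 2 :=
              pow_le_pow_left₀ (by positivity) h4 2
            have h6 : v * (8 * κ * (2 / (K1 * (c2 * M)) * ρ) ^ 2) = Real.log 2 := by
              rw [hv, hκ]
              field_simp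
              ring
            rw [← h6]
            exact mul_le_mul_of_nonneg_left (mul_le_mul_of_nonneg_left h5 (by positivity)) hvp.le
          · rw [mul_zero]
            exact hl2.le
        have hv1 := mul_le_mul_of_nonneg_left hFl' hvp.le
        set z' := aff z (g z) ζ with hz'
        set E := EN r (fun ζ => φ (aff z (g z) ζ)) (Q z) ζ ζ with hE
        have hE0 : 0 ≤ E := EN_nonneg _ _
        set D0 := EN r (fun ζ => φ (aff z (g z) ζ)) (Q z) 0 0 with hD0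
        have h7 : D0 * ‖H z‖ ^ m * Real.exp (v * q z) =
            D0 * (‖H z‖ ^ m * Real.exp (v * (F z).re)) * Real.exp (v * (q z - (F z).re)) := by
          have e1 : Real.exp (v * q z) = Real.exp (v * (F z).re) *
              Real.exp (v * (q z - (F z).re)) := by
            rw [← Real.exp_add]
            congr 1
            ring
          rw [e1]
          ring
        rw [h7]
        have h8 : E * ‖H z'‖ ^ m * Real.exp (v * (F z').re) * Real.exp (v * (q z - (F z).re)) ≤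
            2 * (E * ‖H z'‖ ^ m * Real.exp (v * q z')) := by
          have e1 : Real.exp (v * (F z').re) * Real.exp (v * (q z - (F z).re)) ≤
              2 * Real.exp (v * q z') := by
            calc Real.exp (v * (F z').re) * Real.exp (v * (q z - (F z).re)) =
                  Real.exp (v * (F z').re + v * (q z - (F z).re)) := by rw [Real.exp_add]
              _ ≤ Real.exp (Real.log 2 + v * q z') := Real.exp_le_exp.2 (by linarith)
              _ = 2 * Real.exp (v * q z') := by rw [Real.exp_add, Real.exp_log two_pos]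
          calc E * ‖H z'‖ ^ m * Real.exp (v * (F z').re) * Real.exp (v * (q z - (F z).re)) =
                E * ‖H z'‖ ^ m * (Real.exp (v * (F z').re) * Real.exp (v * (q z - (F z).re))) := by
                ring
            _ ≤ E * ‖H z'‖ ^ m * (2 * Real.exp (v * q z')) :=
                mul_le_mul_of_nonneg_left e1 (by positivity)
            _ = _ := by ring
        have h9 := mul_le_mul_of_nonneg_right hle (Real.exp_pos (v * (q z - (F z).re))).le
        calc D0 * (‖H z‖ ^ m * Real.exp (v * (F z).re)) * Real.exp (v * (q z - (F z).re)) ≤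
              1 / 4 * (E * (‖H z'‖ ^ m * Real.exp (v * (F z').re))) *
                Real.exp (v * (q z - (F z).re)) := h9
          _ = 1 / 4 * (E * ‖H z'‖ ^ m * Real.exp (v * (F z').re) *
                Real.exp (v * (q z - (F z).re))) := by ring
          _ ≤ 1 / 4 * (2 * (E * ‖H z'‖ ^ m * Real.exp (v * q z'))) :=
              mul_le_mul_of_nonneg_left h8 (by norm_num)
          _ = 1 / 2 * (E * ‖H z'‖ ^ m * Real.exp (v * q z')) := by ring) 0 h0Ω
  -- the conclusion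
  obtain ⟨w, hw, hwE⟩ := EN_spec (P := fun ζ => φ (aff 0 (g 0) ζ)) hr.le
    (hcls.cont (hQ 0 h0Ω).1) 0 0
  refine ⟨Q 0, w, (hQ 0 h0Ω).1, ?_⟩
  simp only [aff0] at hwE
  rw [← hwE]
  set D0 := EN r (fun ζ => φ (aff 0 (g 0) ζ)) (Q 0) 0 0 with hD0
  have hD00 : 0 ≤ D0 := EN_nonneg _ _
  have h1 : D0 * c ^ m * Real.exp (v * q 0) ≤ δ * B ^ m := by
    refine le_trans ?_ main
    refine mul_le_mul_of_nonneg_right (mul_le_mul_of_nonneg_left ?_ hD00) (Real.exp_pos _).le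
    exact pow_le_pow_left₀ hc.le hH0 m
  have h2 : B ^ m ≤ c ^ m * Real.exp (b * m) := by
    have e1 : B ≤ c * B2 := by
      rw [← div_le_iff₀' hc]
      exact le_max_right _ _
    have e2 : Real.exp (b * m) = B2 ^ m := by
      rw [mul_comm, Real.exp_nat_mul, hb, Real.exp_log hB2p]
    rw [e2, ← mul_pow]
    exact pow_le_pow_left₀ hBp.le e1 m
  have h3 : D0 * Real.exp (v * q 0) ≤ Real.exp (b * m) := by
    have hcm : 0 < c ^ m := by positivity
    have h4 : c ^ m * (D0 * Real.exp (v * q 0)) ≤ c ^ m * Real.exp (b * m) := by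
      calc c ^ m * (D0 * Real.exp (v * q 0)) = D0 * c ^ m * Real.exp (v * q 0) := by ring
        _ ≤ δ * B ^ m := h1
        _ ≤ 1 * B ^ m := mul_le_mul_of_nonneg_right hδ1'' (by positivity)
        _ ≤ _ := by rw [one_mul]; exact h2
    exact le_of_mul_le_mul_left h4 hcm
  have h5 : D0 ≤ Real.exp (b * m - v * q 0) := by
    rw [Real.exp_sub, le_div_iff₀ (Real.exp_pos _)]
    exact h3
  refine h5.trans (Real.exp_le_exp.2 ?_)
  have h6 : b * m ≤ b * (ε * v + 1) := mul_le_mul_of_nonneg_left hm2 hb0'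
  have h7 : b * ε ≤ 1 := by
    rw [hε, ← mul_div_assoc, div_le_one hTtp]
    exact hTtb
  have h8 : b * ε * v ≤ v := by
    have := mul_le_mul_of_nonneg_right h7 hvp.le
    linarith
  have h9 : b ≤ v := by
    have : M ≤ v := by rw [hv]; nlinarith
    linarith
  have h10 : v * (A + 2) ≤ v * q 0 := mul_le_mul_of_nonneg_left hq0A hvp.le
  have h11 : b * (ε * v + 1) = b * ε * v + b := by ring
  rw [h11] at h6
  linarith

end Pool.Agent.N155.QD
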