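import Pool.Agent.N155.Q.Grw
import Pool.Agent.N155.L.Pic

/-! Curves on the punctured disc. -/

set_option autoImplicit false

open Filter Topology Metric Set MvPolynomial

namespace Pool.Agent.N155.QD

open Pool.Agent.Y190.OP Pool.Agent.W602.GT Pool.Agent.TH143.GT Pool.Agent.N155
  Pool.Agent.N155.BB Pool.Agent.N155.GD

variable {N : ℕ} {T : Set (Mat N)} {τ : Type} {Hv : τ → (ℂ → Mat N) → ℂ → ℂ} {k : ℕ}
  {c C C1 D0 : ℝ} {p : Mat N → ℝ} {φ : ℂ → Mat N}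

theorem exp_mem {ζ : ℂ} (h : ζ.re < 0) : Complex.exp ζ ∈ ball (0 : ℂ) 1 \ {0} := by
  refine ⟨?_, Complex.exp_ne_zero ζ⟩
  rw [mem_ball_zero_iff, Complex.norm_exp]
  exact Real.exp_lt_one_iff.2 h

theorem isOpen_pun : IsOpen (ball (0 : ℂ) 1 \ {0}) := isOpen_ball.sdiff isClosed_singleton

/-- the differentials have limits at the puncture -/
theorem pun_lim (hT : Ctl T Hv k c C) (hc : 0 < c) (hC : 0 < C) (hk : 0 < k) (hp : Siz p C1)
    (hD0 : 0 < D0) (hDE : DE T p D0) (hφ : HolP (ball 0 1 \ {0}) φ)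
    (hφT : ∀ z ∈ ball (0 : ℂ) 1 \ {0}, φ z ∈ T) {z0 : ℂ} (hz0 : z0 ∈ ball (0 : ℂ) 1 \ {0})
    (hp0 : 0 < p (φ z0)) :
    (∀ a, ∃ ℓ : ℂ, Tendsto (fun z => z ^ k * Hv a φ z) (𝓝[≠] 0) (𝓝 ℓ)) ∧
      ∀ e : ℝ, 0 < e → ∃ z : ℂ, z ≠ 0 ∧ ‖z‖ < e ∧ 0 < p (φ z) := by
  obtain ⟨l, D, q, hl, hD, hq, hgr⟩ := growth hT hc hC hk hp hD0 hDE
  have hz0n : z0 ≠ 0 := hz0.2
  have hz0p : 0 < ‖z0‖ := norm_pos_iff.2 hz0n
  have hz01 : ‖z0‖ < 1 := mem_ball_zero_iff.1 hz0.1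
  have hζ0 : (Complex.log z0).re < 0 := by
    rw [Complex.log_re]
    exact Real.log_neg hz0p hz01
  have hp0' : 0 < p (φ (Complex.exp (Complex.log z0))) := by rwa [Complex.exp_log hz0n]
  set t0 : ℝ := -(Complex.log z0).re with ht0
  have ht0p : 0 < t0 := by
    rw [ht0]
    linarith
  have hgr' := hgr (fun ζ => φ (Complex.exp ζ))
    (holP_comp hφ Complex.differentiable_exp fun z hz => exp_mem hz)
    (fun z hz => hφT _ (exp_mem hz)) (Complex.log z0) hζ0 hp0'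
  choose ζ h1 h2 h3 using hgr'
  set W0 : ℝ := 1 - Real.log (p (φ (Complex.exp (Complex.log z0)))) with hW0
  have hW01 : 1 ≤ W0 := by
    have := Real.log_nonpos hp0'.le (hp.le_one (φ (Complex.exp (Complex.log z0))))
    rw [hW0]
    linarith
  have htn : ∀ n, q ^ n * t0 ≤ -(ζ n).re := fun n => by
    have := h1 n
    rw [ht0]
    linarith
  have hqn : ∀ n : ℕ, 0 < q ^ n := fun n => by positivity
  have hneg : ∀ n, (ζ n).re < 0 := fun n => by
    have := htn n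
    have := mul_pos (hqn n) ht0p
    linarith
  have hexp : ∀ n, Real.exp (ζ n).re ≤ Real.exp (-(q ^ n * t0)) := fun n =>
    Real.exp_le_exp.2 (by linarith [htn n])
  have hlim0 : Tendsto (fun n : ℕ => Real.exp (-(q ^ n * t0))) atTop (𝓝 0) := by
    have := exp_pow_lim ht0p hq one_pos
    simpa only [one_pow, mul_one] using this
  constructor
  · intro a
    obtain ⟨n0, hn0⟩ := (tendsto_pow_atTop_atTop_of_one_lt hq).eventually_ge_atTop
      (4 * Real.pi / (l * t0)) |>.exists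
    have hbig : ∀ n, n0 ≤ n → 4 * Real.pi ≤ l * -(ζ n).re := by
      intro n hn
      have h4 : q ^ n0 ≤ q ^ n := pow_le_pow_right₀ hq.le hn
      rw [div_le_iff₀ (by positivity)] at hn0
      have h5 : q ^ n0 * (l * t0) ≤ q ^ n * (l * t0) :=
        mul_le_mul_of_nonneg_right h4 (by positivity)
      have h6 := mul_le_mul_of_nonneg_left (htn n) hl.le
      linarith
    have hpi : 3 < Real.pi := Real.pi_gt_three
    set D' : ℝ := max D 1 with hD'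
    have hD'1 : 1 ≤ D' := le_max_right _ _
    have hcirc : ∀ n, n0 ≤ n → ∀ z : ℂ, ‖z‖ = Real.exp (ζ n).re →
        ‖z‖ * ‖fderiv ℝ φ z‖ ≤ 16 * W0 * D' ^ n := by
      intro n hn z hz
      obtain ⟨w, hw1, hw2, hw3⟩ := circ_log hz
      have hb := hbig n hn
      have h4 := h3 n w (by linarith)
      have hzmem : Complex.exp w ∈ ball (0 : ℂ) 1 \ {0} := exp_mem (by rw [hw2]; exact hneg n)
      have h5 := exp_fderiv (hφ.differentiableAt hzmem)
      rw [h5, hw1] at h4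
      set X : ℝ := ‖z‖ * ‖fderiv ℝ φ z‖ with hX
      have hX0 : 0 ≤ X := by positivity
      have h6 : X ^ 2 ≤ (l * -(ζ n).re * X) ^ 2 := by
        apply pow_le_pow_left₀ hX0
        nlinarith
      have h7 : D ^ n ≤ D' ^ n := pow_le_pow_left₀ hD.le (le_max_left _ _) n
      have h8 : X ^ 2 ≤ 16 * W0 * D' ^ n := by
        refine (h6.trans h4).trans ?_
        have := mul_le_mul_of_nonneg_right h7 (show 0 ≤ W0 by linarith)
        linarith
      have h9 : 1 ≤ 16 * W0 * D' ^ n := by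
        have : 1 ≤ D' ^ n := one_le_pow₀ hD'1
        nlinarith
      by_contra hcon
      push Not at hcon
      nlinarith
    refine rem_sing (h := fun z => z ^ k * Hv a φ z) ?_ ?_
      (ρ := fun n => Real.exp (ζ (n + n0)).re)
      (ε := fun n => C * (16 * W0) ^ k * (Real.exp (-(q ^ (n + n0) * t0)) * (D' ^ k) ^ (n + n0)))
      (fun n => ⟨Real.exp_pos _, Real.exp_lt_one_iff.2 (hneg _)⟩) ?_ ?_ ?_
    · exact (differentiableOn_pow k).mul ((hT _ φ isOpen_pun hφ hφT).1 a)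
    · simp only [zero_pow hk.ne', zero_mul]
    · have h4 := hlim0.comp (tendsto_add_atTop_nat n0)
      exact squeeze_zero (fun n => (Real.exp_pos _).le) (fun n => hexp (n + n0)) h4
    · have h4 := ((exp_pow_lim ht0p hq (show 0 < D' ^ k by positivity)).comp
        (tendsto_add_atTop_nat n0)).const_mul (C * (16 * W0) ^ k)
      rw [mul_zero] at h4
      exact h4
    · intro n z hz
      have hzmem : z ∈ ball (0 : ℂ) 1 \ {0} := by
        refine ⟨mem_ball_zero_iff.2 ?_, ?_⟩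
        · rw [hz]
          exact Real.exp_lt_one_iff.2 (hneg _)
        · intro h4
          rw [mem_singleton_iff.1 h4, norm_zero] at hz
          exact (Real.exp_pos _).ne hz
      have h4 := hcirc (n + n0) (Nat.le_add_left _ _) z hz
      have h5 := ((hT _ φ isOpen_pun hφ hφT).2 z hzmem).1 a
      have h6 : ‖z ^ k * Hv a φ z‖ ≤ C * (‖z‖ * ‖fderiv ℝ φ z‖) ^ k := by
        rw [norm_mul, norm_pow, mul_pow]
        calc ‖z‖ ^ k * ‖Hv a φ z‖ ≤ ‖z‖ ^ k * (C * ‖fderiv ℝ φ z‖ ^ k) :=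
              mul_le_mul_of_nonneg_left h5 (by positivity)
          _ = _ := by ring
      have h7 : (‖z‖ * ‖fderiv ℝ φ z‖) ^ k ≤ (16 * W0 * D' ^ (n + n0)) ^ k :=
        pow_le_pow_left₀ (by positivity) h4 k
      have h8 : (16 * W0 * D' ^ (n + n0)) ^ k = (16 * W0) ^ k * (D' ^ k) ^ (n + n0) := by
        rw [mul_pow, ← pow_mul, ← pow_mul, mul_comm k]
      rw [norm_mul]
      have h9 : ‖z‖ ≤ Real.exp (-(q ^ (n + n0) * t0)) := by
        rw [hz]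
        exact hexp _
      calc ‖z‖ * ‖z ^ k * Hv a φ z‖ ≤ Real.exp (-(q ^ (n + n0) * t0)) *
            (C * ((16 * W0) ^ k * (D' ^ k) ^ (n + n0))) := by
            refine mul_le_mul h9 ?_ (norm_nonneg _) (Real.exp_pos _).le
            rw [← h8]
            exact h6.trans (mul_le_mul_of_nonneg_left h7 hC.le)
        _ = _ := by ring
  · intro e he
    obtain ⟨n, hn⟩ := (hlim0.eventually_lt_const he).exists
    refine ⟨Complex.exp (ζ n), Complex.exp_ne_zero _, ?_, h2 n⟩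
    rw [Complex.norm_exp]
    exact (hexp n).trans_lt hn

/-- the differentials vanish at the puncture -/
theorem pun_small [Finite τ] (hT : Ctl T Hv k c C) (hc : 0 < c)
    (hφ : HolP (ball 0 1 \ {0}) φ) (hφT : ∀ z ∈ ball (0 : ℂ) 1 \ {0}, φ z ∈ T)
    (hl : ∀ a, Tendsto (fun z => z ^ k * Hv a φ z) (𝓝[≠] 0) (𝓝 0)) :
    ∀ e : ℝ, 0 < e → ∃ δ : ℝ, 0 < δ ∧ δ ≤ 1 ∧ ∀ z : ℂ, z ≠ 0 → ‖z‖ < δ →
      ‖z‖ * ‖fderiv ℝ φ z‖ < e := by
  intro e he
  have h1 : ∀ᶠ z in 𝓝[≠] (0 : ℂ), ∀ a, ‖z ^ k * Hv a φ z‖ < c * e ^ k := by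
    rw [eventually_all]
    intro a
    have h2 := (hl a).norm
    rw [norm_zero] at h2
    exact h2.eventually_lt_const (by positivity)
  rw [eventually_nhdsWithin_iff, Metric.eventually_nhds_iff] at h1
  obtain ⟨δ, hδ, h2⟩ := h1
  refine ⟨min δ 1, by positivity, min_le_right _ _, fun z hz0 hz => ?_⟩
  have hzm : z ∈ ball (0 : ℂ) 1 \ {0} :=
    ⟨mem_ball_zero_iff.2 (hz.trans_le (min_le_right _ _)), hz0⟩
  have h3 := h2 (y := z) (by rw [dist_zero_right]; exact hz.trans_le (min_le_left _ _)) hz0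
  obtain ⟨-, a, ha⟩ := (hT _ φ isOpen_pun hφ hφT).2 z hzm
  have h4 := h3 a
  rw [norm_mul, norm_pow] at h4
  refine lt_of_pow_lt_pow_left₀ k he.le ?_
  rw [mul_pow]
  have h5 : c * (‖z‖ ^ k * ‖fderiv ℝ φ z‖ ^ k) ≤ ‖z‖ ^ k * ‖Hv a φ z‖ := by
    have := mul_le_mul_of_nonneg_left ha (show 0 ≤ ‖z‖ ^ k by positivity)
    linarith
  exact lt_of_mul_lt_mul_left (h5.trans_lt h4) hc.le

/-- bounded distortion near the puncture -/
theorem pun_dist [Fintype τ] (hT : Ctl T Hv k c C) (hc : 0 < c) (hC : 0 < C) (hk : 0 < k)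
    (hφ : HolP (ball 0 1 \ {0}) φ) (hφT : ∀ z ∈ ball (0 : ℂ) 1 \ {0}, φ z ∈ T) {ℓ : τ → ℂ}
    (hl : ∀ a, Tendsto (fun z => z ^ k * Hv a φ z) (𝓝[≠] 0) (𝓝 (ℓ a))) {a0 : τ}
    (ha0 : ℓ a0 ≠ 0) : ∃ m1 m2 δ : ℝ, 0 < m1 ∧ 0 < m2 ∧ 0 < δ ∧ δ ≤ 1 ∧ ∀ z : ℂ, z ≠ 0 → ‖z‖ < δ →
      m1 ≤ ‖z‖ * ‖fderiv ℝ φ z‖ ∧ ‖z‖ * ‖fderiv ℝ φ z‖ ≤ m2 := by
  set M : ℝ := ∑ b, ‖ℓ b‖ + 1 with hM
  have hMp : 0 < M := by positivity
  have h1 : ∀ᶠ z in 𝓝[≠] (0 : ℂ), ∀ a, ‖z ^ k * Hv a φ z‖ < M := by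
    rw [eventually_all]
    intro a
    refine (hl a).norm.eventually_lt_const ?_
    have := Finset.single_le_sum (f := fun b => ‖ℓ b‖) (fun _ _ => norm_nonneg _)
      (Finset.mem_univ a)
    linarith
  have hℓp : 0 < ‖ℓ a0‖ := norm_pos_iff.2 ha0
  have h2 : ∀ᶠ z in 𝓝[≠] (0 : ℂ), ‖ℓ a0‖ / 2 < ‖z ^ k * Hv a0 φ z‖ :=
    (hl a0).norm.eventually_const_lt (by linarith)
  have h12 := h1.and h2
  rw [eventually_nhdsWithin_iff, Metric.eventually_nhds_iff] at h12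
  obtain ⟨δ, hδ, h3⟩ := h12
  have hm1 : 0 < min 1 (‖ℓ a0‖ / (2 * C)) := lt_min one_pos (by positivity)
  refine ⟨min 1 (‖ℓ a0‖ / (2 * C)), max 1 (M / c), min δ 1, hm1,
    one_pos.trans_le (le_max_left _ _), by positivity, min_le_right _ _, fun z hz0 hz => ?_⟩
  have hzm : z ∈ ball (0 : ℂ) 1 \ {0} :=
    ⟨mem_ball_zero_iff.2 (hz.trans_le (min_le_right _ _)), hz0⟩
  obtain ⟨h4, h5⟩ := h3 (y := z) (by rw [dist_zero_right]; exact hz.trans_le (min_le_left _ _)) hz0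
  obtain ⟨h6, b, hb⟩ := (hT _ φ isOpen_pun hφ hφT).2 z hzm
  set X : ℝ := ‖z‖ * ‖fderiv ℝ φ z‖ with hX
  have hX0 : 0 ≤ X := by positivity
  have hzk : 0 ≤ ‖z‖ ^ k := by positivity
  constructor
  · by_contra hcon
    push Not at hcon
    have h7 := h6 a0
    rw [norm_mul, norm_pow] at h5
    have h8 := mul_le_mul_of_nonneg_left h7 hzk
    have h9 : ‖z‖ ^ k * (C * ‖fderiv ℝ φ z‖ ^ k) = C * X ^ k := by
      rw [hX, mul_pow]
      ring
    rw [h9] at h8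
    have h10 : X ^ k ≤ X := pow_le_of_le_one hX0 (hcon.le.trans (min_le_left _ _)) hk.ne'
    have h11 : X < ‖ℓ a0‖ / (2 * C) := hcon.trans_le (min_le_right _ _)
    rw [lt_div_iff₀ (by positivity)] at h11
    have h12 := mul_le_mul_of_nonneg_left h10 hC.le
    linarith
  · by_contra hcon
    push Not at hcon
    have h7 := h4 b
    rw [norm_mul, norm_pow] at h7
    have h8 := mul_le_mul_of_nonneg_left hb hzk
    have h9 : ‖z‖ ^ k * (c * ‖fderiv ℝ φ z‖ ^ k) = c * X ^ k := by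
      rw [hX, mul_pow]
      ring
    rw [h9] at h8
    have hX1 : 1 ≤ X := (le_max_left _ _).trans hcon.le
    have h10 : X ≤ X ^ k := le_self_pow₀ hX1 hk.ne'
    have h11 : M / c < X := (le_max_right _ _).trans_lt hcon
    rw [div_lt_iff₀ hc] at h11
    have h12 := mul_le_mul_of_nonneg_left h10 hc.le
    linarith

/-- small circles -/
theorem small_ext (hTc : IsCompact T) (hTP : T ⊆ PM)
    (hφ : HolP (ball 0 1 \ {0}) φ) (hφT : ∀ z ∈ ball (0 : ℂ) 1 \ {0}, φ z ∈ T)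
    (hs : ∀ e : ℝ, 0 < e → ∃ δ : ℝ, 0 < δ ∧ δ ≤ 1 ∧ ∀ z : ℂ, z ≠ 0 → ‖z‖ < δ →
      ‖z‖ * ‖fderiv ℝ φ z‖ < e) : ∃ M ∈ T, Tendsto φ (𝓝[≠] 0) (𝓝 M) := by
  obtain ⟨B, hB⟩ := hTc.isBounded.exists_norm_le
  have hbd : ∀ r : ℝ, 0 < r → r < 1 → ∀ x ∈ {x : ℝ | ∃ z1 z2 : ℂ, ‖z1‖ = r ∧ ‖z2‖ = r ∧
      x = ‖φ z2 - φ z1‖}, x ≤ 2 * B := by
    rintro r hr hr1 _ ⟨z1, z2, h1, h2, rfl⟩
    have hm : ∀ z : ℂ, ‖z‖ = r → z ∈ ball (0 : ℂ) 1 \ {0} := fun z hz =>
      ⟨mem_ball_zero_iff.2 (by rw [hz]; exact hr1), fun h => by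
        rw [mem_singleton_iff.1 h, norm_zero] at hz
        linarith⟩
    have h3 := norm_sub_le (φ z2) (φ z1)
    have h4 := hB _ (hφT z1 (hm z1 h1))
    have h5 := hB _ (hφT z2 (hm z2 h2))
    linarith
  refine exists_puncture hTc hTP hφ hφT (osc := fun r => sSup {x : ℝ | ∃ z1 z2 : ℂ, ‖z1‖ = r ∧
    ‖z2‖ = r ∧ x = ‖φ z2 - φ z1‖}) ?_ ?_
  · rw [Metric.tendsto_nhds]
    intro e he
    obtain ⟨δ, hδ, hδ1, hs'⟩ := hs (e / 4) (by positivity)
    have h1 : ∀ᶠ r : ℝ in 𝓝[>] 0, r < δ := nhdsWithin_le_nhds (Iio_mem_nhds hδ)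
    filter_upwards [h1, self_mem_nhdsWithin] with r hr hr0
    have hr0' : 0 < r := hr0
    have hnn : 0 ≤ sSup {x : ℝ | ∃ z1 z2 : ℂ, ‖z1‖ = r ∧ ‖z2‖ = r ∧ x = ‖φ z2 - φ z1‖} := by
      apply Real.sSup_nonneg
      rintro _ ⟨z1, z2, -, -, rfl⟩
      exact norm_nonneg _
    rw [Real.dist_eq, sub_zero, abs_of_nonneg hnn]
    have hne : {x : ℝ | ∃ z1 z2 : ℂ, ‖z1‖ = r ∧ ‖z2‖ = r ∧ x = ‖φ z2 - φ z1‖}.Nonempty :=
      ⟨_, (r : ℂ), (r : ℂ), by rw [Complex.norm_real, Real.norm_of_nonneg hr0'.le],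
        by rw [Complex.norm_real, Real.norm_of_nonneg hr0'.le], rfl⟩
    refine lt_of_le_of_lt (b := e / 4 * Real.pi) (csSup_le hne ?_) (by
      have := Real.pi_lt_four
      nlinarith)
    rintro _ ⟨z1, z2, h2, h3, rfl⟩
    have hz1 : z1 ≠ 0 := by
      rw [← norm_pos_iff, h2]
      exact hr0'
    have hlog : (Complex.log z1).re = Real.log r := by rw [Complex.log_re, h2]
    obtain ⟨w, hw1, hw2, hw3⟩ := circ_log (ζ := Complex.log z1) (z := z2) (by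
      rw [hlog, Real.exp_log hr0', h3])
    have hr1 : r < 1 := hr.trans_le hδ1
    have hneg : (Complex.log z1).re < 0 := by
      rw [hlog]
      exact Real.log_neg hr0' hr1
    have hconv : Convex ℝ {v : ℂ | v.re = (Complex.log z1).re} :=
      convex_hyperplane ⟨Complex.add_re, fun c x => by simp⟩ _
    have hv : ∀ v ∈ {v : ℂ | v.re = (Complex.log z1).re}, Complex.exp v ∈ ball (0 : ℂ) 1 \ {0} ∧
        ‖Complex.exp v‖ = r := fun v hv => by
      have hv' : v.re = (Complex.log z1).re := hv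
      refine ⟨exp_mem (by rw [hv']; exact hneg), ?_⟩
      rw [Complex.norm_exp, hv', hlog, Real.exp_log hr0']
    have hmv := hconv.norm_image_sub_le_of_norm_fderiv_le (𝕜 := ℝ)
      (f := fun v => φ (Complex.exp v)) (C := e / 4) (fun v hv' => by
        have h4 := hφ.differentiableAt (hv v hv').1
        exact DifferentiableAt.comp (f := Complex.exp) v h4
          (((Complex.differentiable_exp (𝕜 := ℂ)) v).restrictScalars ℝ)) (fun v hv' => by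
        rw [exp_fderiv (hφ.differentiableAt (hv v hv').1)]
        exact (hs' _ (Complex.exp_ne_zero v) (by rw [(hv v hv').2]; exact hr)).le)
      (show Complex.log z1 ∈ {v : ℂ | v.re = (Complex.log z1).re} from rfl) hw2
    rw [hw1, Complex.exp_log hz1] at hmv
    exact hmv.trans (mul_le_mul_of_nonneg_left hw3 (by positivity))
  · intro z1 z2 h1 h2 h3
    exact le_csSup ⟨2 * B, fun x hx => hbd ‖z1‖ (norm_pos_iff.2 h2) h3 x hx⟩ ⟨z1, z2, rfl, h1, rfl⟩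

end Pool.Agent.N155.QD
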