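import Pool.Agent.N155.Q.Defs
import Pool.Agent.N155.Q.Kob

/-! Manifolds with positive 2-forms and symmetric differentials without common zeros. -/

set_option autoImplicit false

open Filter Topology Metric Set MvPolynomial LinearAlgebra.Projectivization

namespace Pool.Agent.N155.QD

open Pool.Agent.Y190.OP Pool.Agent.W602.GT Pool.Agent.TH143.GT Pool.Agent.N155
  Pool.Agent.N155.BB Pool.Agent.N155.GD

variable {n : ℕ} {ι ι' : Type} {F : ι → MvPolynomial (Fin (n + 1)) ℂ}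
  {G : ι' → MvPolynomial (Fin (n + 1)) ℂ} {d k : ℕ}
  {κ : Type} {η : κ → (Fin (n + 1) → ℂ) → (Fin (n + 1) → ℂ) → (Fin (n + 1) → ℂ) → ℂ}
  {τ : Type} {σ : τ → (Fin (n + 1) → ℂ) → (Fin (n + 1) → ℂ) → ℂ}

theorem siz_pf {P : MvPolynomial (Fin (n + 1)) ℂ} {e : ℕ} (hP : P.IsHomogeneous e) {A : ℝ}
    (hA : 0 < A) (hPA : ∀ x : Fin (n + 1) → ℂ, ‖eval x P‖ ≤ A * nr x ^ e) :
    ∃ C1 : ℝ, Siz (pf P e A) C1 := by
  obtain ⟨C1, hC1, hloc⟩ := pf_loc hP hA
  refine ⟨C1, hC1, fun M => pf_nonneg P e hA.le M, fun M => pf_le_one hA hPA M,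
    fun W φ hφ z hz => pf_cont hP hA hφ hz, fun W φ hφ z0 hz0 hpos c hc q G hG hG0 hq hmax => ?_⟩
  have h1 : ‖fderiv ℝ φ z0‖ ^ 2 < c / C1 := by
    rw [lt_div_iff₀ hC1]
    linarith
  obtain ⟨S, hS1, hS2⟩ := exists_between h1
  rw [lt_div_iff₀ hC1] at hS2
  exact pf_nomax hloc hφ hz0 hpos hS1 (by linarith) hG hG0 hq hmax

theorem zero_fderiv_const {φ : ℂ → Mat (n + 1)} {z0 : ℂ} {ε : ℝ}
    (hd : ∀ z ∈ ball z0 ε, DifferentiableAt ℝ φ z) (h0 : ∀ z ∈ ball z0 ε, fderiv ℝ φ z = 0)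
    (hε : 0 < ε) : ∀ z ∈ ball z0 ε, φ z = φ z0 := by
  intro z hz
  have h1 := (convex_ball z0 ε).norm_image_sub_le_of_norm_fderiv_le (𝕜 := ℝ) (f := φ) (C := 0) hd
    (fun x hx => by rw [h0 x hx, norm_zero]) (mem_ball_self hε) hz
  rw [zero_mul] at h1
  exact sub_eq_zero.1 (norm_le_zero_iff.1 h1)

theorem holP_const {φ : ℂ → Mat (n + 1)} {z0 : ℂ} (h : HolP univ φ) :
    HolP univ (fun _ => φ z0) := by
  obtain ⟨V, g, -, hzV, -, hg⟩ := h z0 (mem_univ _)
  intro z _
  exact ⟨univ, fun _ => g z0, isOpen_univ, mem_univ _, differentiableOn_const _,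
    fun w _ => hg z0 hzV⟩

/-- **Symmetric differentials without common zeros.** -/
theorem sym_main (hX : ProjManifold F d) (hG : ∀ i, IsForm (G i))
    (hη : PositiveTwoForms (Cone F) (Cone G) d η) (hZ : NoBC F G) [Fintype τ] [Nonempty τ]
    (hσ : ∀ a, SymDiff (Cone F) d k (σ a)) (hk : 0 < k) (hn : NoCommonZero (Cone F) d σ) :
    ∃ S : Finset (ℂ → ℙ ℂ (Fin (n + 1) → ℂ)), (∀ g ∈ S, HolIn F g ∧ DoublyPeriodic g) ∧
      (∀ (f : ℂ → ℙ ℂ (Fin (n + 1) → ℂ)) (B : ℝ), HolIn F f → DerBetween 0 B f →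
        (∀ z w, f z = f w) ∨ ∃ g ∈ S, ∃ a b : ℂ, a ≠ 0 ∧ ∀ z, f z = g (a * z + b)) ∧
      ∀ (P : MvPolynomial (Fin (n + 1)) ℂ) (e : ℕ), P.IsHomogeneous e →
        (∀ g ∈ S, ∀ z, eval (g z).rep P = 0) →
        (∀ f : ℂ → ℙ ℂ (Fin (n + 1) → ℂ), HolIn F f → (∃ z w, f z ≠ f w) →
          ∀ z, eval (f z).rep P = 0) ∧
        ∃ A C : ℝ, 0 < A ∧ 0 < C ∧ (∀ x, absAt P e A x ≤ 1) ∧
          ∀ (a : ℂ) (r s : ℝ) (f : ℂ → ℙ ℂ (Fin (n + 1) → ℂ)), HolTo F (ball a r) f → 0 < r →
            HasSpeed f a s → eval (f a).rep P ≠ 0 →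
            (r * s) ^ 2 ≤ C * (1 + Real.log (1 / absAt P e A (f a))) := by
  classical
  obtain ⟨c, C, hc, hC, hT⟩ := hv_main hX hσ hk hn
  have hT' : Ctl (TF F) (fun a => hv (σ a)) k c C := hT
  set c0 : ℝ := 2 * min 1 (c / 2 / C) / max 1 (2 * C / c) with hc0
  have hm : 0 < min 1 (c / 2 / C) := lt_min one_pos (by positivity)
  have hM : 0 < max 1 (2 * C / c) := one_pos.trans_le (le_max_left _ _)
  have hc0p : 0 < c0 := by positivity
  have hgw := gw_of hX hG hη
  have hTc := isCompact_TF hX.form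
  have hcls := BCw.cls hTc (TF_PM (F := F)) hc0p
  have hout : ∀ c : ℝ, 0 < c → ∀ φ, BCw (TF F) c φ → ∃ z, φ z ∉ TF G :=
    fun c hc φ hφ => hZ.out hX.form hG hc hφ
  obtain ⟨S, hS1, hS2⟩ := finite_class hgw (hout c0 hc0p) hcls
  refine ⟨S.image fun φ z => toProj (φ z), fun g hg => ?_, fun f B hf hb => ?_,
    fun P e hP hPS => ?_⟩
  · obtain ⟨φ, hφ, rfl⟩ := Finset.mem_image.1 hg
    obtain ⟨p, q, hind, hp, hq⟩ := two_periods hgw (hout c0 hc0p) hcls (hS1 φ hφ)
    have h1 := hS1 φ hφ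
    refine ⟨⟨holMap_of h1.hol, fun z => rep_toProj hX.form (h1.mem z)⟩, ?_⟩
    obtain ⟨L, hL⟩ := pair_periods hind hp hq
    exact ⟨L, fun l hl z => by
      change toProj (φ (z + l)) = toProj (φ z)
      rw [hL l hl z]⟩
  · obtain ⟨B', hB'⟩ := bounded_of_between hf.1 hb
    have hhol := holP_of_map hf.1
    by_cases hcase : ∃ z0, fderiv ℝ (fun z => Phi (f z).rep) z0 ≠ 0
    · right
      obtain ⟨z0, hz0⟩ := hcase
      obtain ⟨ρ, hρ, hmem⟩ := brody_in hT' hc hC hk hhol (fun z => mem_TF (hf.2 z)) hB' hz0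
      obtain ⟨g, hg, α, β, hαβ⟩ := hS2 _ hmem
      obtain ⟨hα, -⟩ := hcls.alpha hmem (hS1 g hg) hαβ
      have hα0 : α ≠ 0 := by
        intro h0
        rw [h0, norm_zero] at hα
        linarith
      have hρc : (ρ : ℂ) ≠ 0 := by exact_mod_cast hρ.ne'
      refine ⟨_, Finset.mem_image_of_mem _ hg, α / ρ, β, div_ne_zero hα0 hρc, fun z => ?_⟩
      have h1 := hαβ (z / ρ)
      rw [N155.aff0 hρ.ne'] at h1
      have h2 : α / ρ * z + β = α * (z / ρ) + β := by ring
      rw [h2, ← h1, toProj_Phi_rep]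
    · left
      push Not at hcase
      intro z w
      have h1 : ∀ z, Phi (f z).rep = Phi (f 0).rep := fun z =>
        zero_fderiv_const (z0 := 0) (ε := ‖z‖ + 1) (fun x _ => hhol.differentiableAt (mem_univ x))
          (fun x _ => hcase x) (by positivity) z (by
            rw [mem_ball_zero_iff]
            linarith)
      exact proj_ext ((h1 z).trans (h1 w).symm)
  · obtain ⟨A, hA, hPA⟩ := form_le hP
    obtain ⟨C1, hsiz⟩ := siz_pf hP hA hPA
    obtain ⟨Cl, hCl, hlip⟩ := pf_lip hP hA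
    have habs : ∀ x : ℙ ℂ (Fin (n + 1) → ℂ), pf P e A (Phi x.rep) = absAt P e A x := fun x =>
      pf_Phi hP A x.rep_nonzero
    obtain ⟨D, hD, hKob⟩ := kob_mat hgw hTc (TF_PM (F := F)) hout hT' hc hC hk hsiz hCl
      (fun M hM Q w hQ => by
        refine hlip M (Q w) (TF_PM hM) (TF_PM (hQ.mem w)) ?_
        obtain ⟨g, hg, α, β, hαβ⟩ := hS2 _ hQ
        have h1 := hPS _ (Finset.mem_image_of_mem _ hg) (α * w + β)
        rw [hαβ w, ← Phi_rep_toProj (TF_PM ((hS1 g hg).mem (α * w + β))), habs]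
        unfold absAt
        rw [h1, norm_zero, zero_div])
    -- the estimate for discs, in terms of matrices
    have hdisc : ∀ (a : ℂ) (r : ℝ) (φ : ℂ → Mat (n + 1)), 0 < r → HolP (ball a r) φ →
        (∀ z ∈ ball a r, φ z ∈ TF F) → 0 < pf P e A (φ a) →
        (r * ‖fderiv ℝ φ a‖) ^ 2 ≤ D * (1 - Real.log (pf P e A (φ a))) := by
      intro a r φ hr hφ hφT hpos
      have haff : ∀ z ∈ ball (0 : ℂ) 1, aff a r z ∈ ball a r := by
        intro z hz
        rw [mem_ball_zero_iff] at hz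
        unfold aff
        rw [mem_ball, dist_eq_norm, add_sub_cancel_left, norm_mul, Complex.norm_real,
          Real.norm_of_nonneg hr.le]
        nlinarith
      have h1 := hKob (fun z => φ (aff a r z)) ((hφ.aff a r).mono haff)
        (fun z hz => hφT _ (haff z hz)) (by simpa only [aff0] using hpos)
      have h2 : ‖fderiv ℝ (fun z => φ (aff a r z)) 0‖ = r * ‖fderiv ℝ φ a‖ := by
        have h3 := norm_fderiv_aff (Ψ := φ) (a := a) (ρ := r) hr.le (z := 0) (by
          rw [QD.aff0]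
          exact hφ.differentiableAt (mem_ball_self hr))
        rwa [QD.aff0] at h3
      rw [h2] at h1
      simpa only [QD.aff0] using h1
    refine ⟨fun f hf hne z1 => ?_, ?_⟩
    · by_contra hcon
      have hhol := holP_of_map hf.1
      have hu1 : 0 < pf P e A (Phi (f z1).rep) := by
        rw [habs]
        unfold absAt
        have h1 := nr_pos (f z1).rep_nonzero
        have h2 := norm_pos_iff.2 hcon
        have h3 : √(∑ k, ‖(f z1).rep k‖ ^ 2) = nr (f z1).rep := rfl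
        rw [h3]
        positivity
      have hev : ∀ᶠ z in 𝓝 z1, 0 < pf P e A (Phi (f z).rep) :=
        (hsiz.cont univ _ hhol z1 (mem_univ _)).eventually_const_lt hu1
      obtain ⟨ε, hε, hε2⟩ := Metric.eventually_nhds_iff.1 hev
      have hz : ∀ z ∈ ball z1 ε, fderiv ℝ (fun z => Phi (f z).rep) z = 0 := by
        intro z hz
        by_contra h0
        have hpos : 0 < ‖fderiv ℝ (fun z => Phi (f z).rep) z‖ := norm_pos_iff.2 h0
        set X : ℝ := D * (1 - Real.log (pf P e A (Phi (f z).rep))) with hX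
        have hX0 : 0 ≤ X := by
          have h1 := Real.log_nonpos (hsiz.nonneg (Phi (f z).rep)) (hsiz.le_one _)
          have : 0 ≤ 1 - Real.log (pf P e A (Phi (f z).rep)) := by linarith
          positivity
        have h1 := hdisc z ((X + 1) / ‖fderiv ℝ (fun z => Phi (f z).rep) z‖) _ (by positivity)
          (hhol.mono fun x _ => mem_univ x) (fun x _ => mem_TF (hf.2 x)) (hε2 hz)
        rw [div_mul_cancel₀ _ hpos.ne'] at h1
        nlinarith
      have hc1 := zero_fderiv_const (fun z _ => hhol.differentiableAt (mem_univ z)) hz hε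
      have hall := holP_ext hhol (holP_const (z0 := z1) hhol) (z0 := z1) (by
        filter_upwards [ball_mem_nhds z1 hε] with z hz
        exact hc1 z hz)
      obtain ⟨z, w, hzw⟩ := hne
      exact hzw (proj_ext ((hall z).trans (hall w).symm))
    · obtain ⟨B, hB, hw⟩ := wedge_fderivOn n
      refine ⟨A, B ^ 2 * D, hA, by positivity, fun x => ?_, fun a r s f hf hr hs hPa => ?_⟩
      · rw [← habs]
        exact hsiz.le_one _
      · obtain ⟨V, g, hV, haV, hg, hfg, hsg⟩ := hs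
        have hhol := holP_of_mapOn hf.1
        have hu1 : 0 < pf P e A (Phi (f a).rep) := by
          rw [habs]
          unfold absAt
          have h1 := nr_pos (f a).rep_nonzero
          have h2 := norm_pos_iff.2 hPa
          have h3 : √(∑ k, ‖(f a).rep k‖ ^ 2) = nr (f a).rep := rfl
          rw [h3]
          positivity
        have h1 := hdisc a r _ hr hhol (fun z hz => mem_TF (hf.2 z hz)) hu1
        obtain ⟨-, h2⟩ := hw f V g hV hg hfg a haV
        have hS := BB.sum_pos (hfg a haV).1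
        rw [← hsg] at h2
        have h3 : s ≤ B * ‖fderiv ℝ (fun z => Phi (f z).rep) a‖ := le_of_mul_le_mul_right h2 hS
        have hs0 : 0 ≤ s := by
          have h4 := BB.wedge_nonneg (g a) (deriv g a)
          rw [← hsg] at h4
          exact nonneg_of_mul_nonneg_left h4 hS
        rw [one_div, Real.log_inv, ← habs, ← sub_eq_add_neg]
        calc (r * s) ^ 2 ≤ (r * (B * ‖fderiv ℝ (fun z => Phi (f z).rep) a‖)) ^ 2 :=
              pow_le_pow_left₀ (by positivity) (mul_le_mul_of_nonneg_left h3 hr.le) 2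
          _ = B ^ 2 * (r * ‖fderiv ℝ (fun z => Phi (f z).rep) a‖) ^ 2 := by ring
          _ ≤ B ^ 2 * (D * (1 - Real.log (pf P e A (Phi (f a).rep)))) :=
              mul_le_mul_of_nonneg_left h1 (by positivity)
          _ = B ^ 2 * D * (1 - Real.log (pf P e A (Phi (f a).rep))) := by ring

end Pool.Agent.N155.QD
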