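import Pool.Agent.N155.G.Res
import Pool.Agent.N155.Q.Res
import Pool.Agent.N155.Q.Pun

/-! The big Picard theorem for manifolds with positive 2-forms and symmetric differentials without
common zeros. -/

set_option autoImplicit false

open Filter Topology Metric Set MvPolynomial LinearAlgebra.Projectivization

namespace Pool.Agent.N155.QD

open Pool.Agent.Y190.OP Pool.Agent.W602.GT Pool.Agent.TH143.GT Pool.Agent.N155
  Pool.Agent.N155.BB Pool.Agent.N155.GD

variable {n : ℕ} {ι ι' : Type} {F : ι → MvPolynomial (Fin (n + 1)) ℂ}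
  {G : ι' → MvPolynomial (Fin (n + 1)) ℂ} {d k : ℕ}
  {κ : Type} {η : κ → (Fin (n + 1) → ℂ) → (Fin (n + 1) → ℂ) → (Fin (n + 1) → ℂ) → ℂ}
  {τ : Type} {σ : τ → (Fin (n + 1) → ℂ) → (Fin (n + 1) → ℂ) → ℂ}

theorem absAt_pos {P : MvPolynomial (Fin (n + 1)) ℂ} {e : ℕ} {A : ℝ} (hA : 0 < A)
    {x : ℙ ℂ (Fin (n + 1) → ℂ)} (h : eval x.rep P ≠ 0) : 0 < absAt P e A x := by
  unfold absAt
  have h1 := nr_pos x.rep_nonzero
  have h2 := norm_pos_iff.2 h
  have h3 : √(∑ k, ‖x.rep k‖ ^ 2) = nr x.rep := rfl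
  rw [h3]
  positivity

theorem ne_of_absAt {P : MvPolynomial (Fin (n + 1)) ℂ} {e : ℕ} {A : ℝ}
    {x : ℙ ℂ (Fin (n + 1) → ℂ)} (h : 0 < absAt P e A x) : eval x.rep P ≠ 0 := by
  intro h0
  unfold absAt at h
  rw [h0, norm_zero, zero_div] at h
  exact lt_irrefl _ h

/-- maps from an open set -/
theorem holTo_of {U : Set ℂ} {φ : ℂ → Mat (n + 1)} (hF : ∀ i, IsForm (F i)) (hφ : HolP U φ)
    (hm : ∀ z ∈ U, φ z ∈ TF F) : HolTo F U (fun z => toProj (φ z)) := by
  refine ⟨fun z hz => ?_, fun z hz => rep_toProj hF (hm z hz)⟩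
  obtain ⟨V, G, hV, hzV, hd, hF⟩ := hφ z hz
  refine ⟨V, G, hV, hzV, hd, fun w hw => ?_⟩
  obtain ⟨h1, h2⟩ := hF w hw
  exact ⟨h1, by
    change toProj (φ w) = _
    rw [h2, toProj_Phi h1]⟩

/-- **The punctured disc.** -/
theorem picard (hX : ProjManifold F d) (hG : ∀ i, IsForm (G i))
    (hη : PositiveTwoForms (Cone F) (Cone G) d η) (hZ : NoBC F G) [Fintype τ]
    {c C : ℝ} (hc : 0 < c) (hC : 0 < C) (hT : Ctl (TF F) (fun a : τ => hv (σ a)) k c C)
    (hk : 0 < k) {P : MvPolynomial (Fin (n + 1)) ℂ} {e : ℕ} {A C1 D0 : ℝ} (hA : 0 < A)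
    (hsiz : Siz (pf P e A) C1) (habs : ∀ x : ℙ ℂ (Fin (n + 1) → ℂ),
      pf P e A (Phi x.rep) = absAt P e A x) (hD0 : 0 < D0) (hDE : DE (TF F) (pf P e A) D0)
    (hent : ∀ f : ℂ → ℙ ℂ (Fin (n + 1) → ℂ), HolIn F f → (∃ z w, f z ≠ f w) →
      ∀ z, eval (f z).rep P = 0)
    {f : ℂ → ℙ ℂ (Fin (n + 1) → ℂ)} (hf : HolTo F (ball 0 1 \ {0}) f)
    {z0 : ℂ} (hz0 : z0 ∈ ball (0 : ℂ) 1 \ {0}) (hP0 : eval (f z0).rep P ≠ 0) :
    ∃ h : ℂ → ℙ ℂ (Fin (n + 1) → ℂ), HolTo F (ball 0 1) h ∧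
      ∀ z ∈ ball (0 : ℂ) 1 \ {0}, h z = f z := by
  classical
  have hhol := holP_of_mapOn hf.1
  have hmT : ∀ z ∈ ball (0 : ℂ) 1 \ {0}, Phi (f z).rep ∈ TF F := fun z hz => mem_TF (hf.2 z hz)
  obtain ⟨h1, h2⟩ := pun_lim hT hc hC hk hsiz hD0 hDE hhol hmT hz0 (by
    rw [habs]
    exact absAt_pos hA hP0)
  choose ℓ hℓ using h1
  by_cases hcase : ∃ a0, ℓ a0 ≠ 0
  · exfalso
    obtain ⟨a0, ha0⟩ := hcase
    obtain ⟨m1, m2, δ, hm1, hm2, hδ, hδ1, hX1⟩ := pun_dist hT hc hC hk hhol hmT hℓ ha0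
    obtain ⟨B, hB, hw⟩ := wedge_fderivOn n
    have hδc : (δ : ℂ) ≠ 0 := by exact_mod_cast hδ.ne'
    have hsmall : ∀ z ∈ ball (0 : ℂ) 1 \ {0}, (δ : ℂ) * z ≠ 0 ∧ ‖(δ : ℂ) * z‖ < δ ∧
        (δ : ℂ) * z ∈ ball (0 : ℂ) 1 \ {0} := by
      intro z hz
      have hz0 : z ≠ 0 := hz.2
      have hz1 := mem_ball_zero_iff.1 hz.1
      have hn : ‖(δ : ℂ) * z‖ = δ * ‖z‖ := by
        rw [norm_mul, Complex.norm_real, Real.norm_of_nonneg hδ.le]
      have h3 : ‖(δ : ℂ) * z‖ < δ := by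
        rw [hn]
        nlinarith
      exact ⟨mul_ne_zero hδc hz0, h3, mem_ball_zero_iff.2 (h3.trans_le hδ1),
        mul_ne_zero hδc hz0⟩
    have hHB : HolBetween F (ball 0 1 \ {0}) (fun z => m1 / B / ‖z‖)
        (fun z => B * B * m2 / m1 * (m1 / B) / ‖z‖) (fun z => f (δ * z)) := by
      intro z hz
      obtain ⟨h3, h4, h5⟩ := hsmall z hz
      refine ⟨hf.2 _ h5, ?_⟩
      obtain ⟨V, g, hV, hzV, hg, hfg⟩ := hf.1 _ h5
      obtain ⟨h6, h7⟩ := hw f V g hV hg hfg _ hzV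
      obtain ⟨h8, h9⟩ := hX1 _ h3 h4
      have hS := BB.sum_pos (hfg _ hzV).1
      have hzn : 0 < ‖z‖ := norm_pos_iff.2 hz.2
      have hn : ‖(δ : ℂ) * z‖ = δ * ‖z‖ := by
        rw [norm_mul, Complex.norm_real, Real.norm_of_nonneg hδ.le]
      have hmul : Differentiable ℂ fun z : ℂ => (δ : ℂ) * z := by fun_prop
      have hd : deriv (fun w => g (δ * w)) z = (δ : ℂ) • deriv g (δ * z) := by
        have h10 := ((hg _ hzV).differentiableAt (hV.mem_nhds hzV)).hasDerivAt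
        have h11 : HasDerivAt (fun w : ℂ => (δ : ℂ) * w) (δ : ℂ) z := by
          simpa using (hasDerivAt_id z).const_mul (δ : ℂ)
        exact (h10.scomp z h11).deriv
      refine ⟨(fun z : ℂ => (δ : ℂ) * z) ⁻¹' V, fun w => g (δ * w), hV.preimage hmul.continuous, hzV,
        hg.comp hmul.differentiableOn (fun w hw => hw), fun w hw => hfg _ hw, ?_, ?_⟩
      · rw [hd, wedge_smul, Complex.norm_real, Real.norm_of_nonneg hδ.le]
        rw [hn] at h8
        have e1 : m1 * ∑ k, ‖g (δ * z) k‖ ^ 2 ≤ δ * ‖z‖ * (B * wedge (g (δ * z)) (deriv g (δ * z))) := by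
          calc m1 * ∑ k, ‖g (δ * z) k‖ ^ 2 ≤ δ * ‖z‖ * ‖fderiv ℝ (fun z => Phi (f z).rep) (δ * z)‖ *
                ∑ k, ‖g (δ * z) k‖ ^ 2 := mul_le_mul_of_nonneg_right h8 hS.le
            _ = δ * ‖z‖ * (‖fderiv ℝ (fun z => Phi (f z).rep) (δ * z)‖ *
                ∑ k, ‖g (δ * z) k‖ ^ 2) := by ring
            _ ≤ _ := mul_le_mul_of_nonneg_left h6 (by positivity)
        have e2 : m1 / B / ‖z‖ * ∑ k, ‖g (δ * z) k‖ ^ 2 =
            m1 * (∑ k, ‖g (δ * z) k‖ ^ 2) / (B * ‖z‖) := by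
          field_simp
        rw [e2, div_le_iff₀ (by positivity)]
        refine e1.trans (le_of_eq ?_)
        ring
      · rw [hd, wedge_smul, Complex.norm_real, Real.norm_of_nonneg hδ.le]
        rw [hn] at h9
        have e1 : ‖z‖ * (δ * wedge (g (δ * z)) (deriv g (δ * z))) ≤
            B * m2 * ∑ k, ‖g (δ * z) k‖ ^ 2 := by
          calc ‖z‖ * (δ * wedge (g (δ * z)) (deriv g (δ * z))) ≤ ‖z‖ * (δ *
                (B * ‖fderiv ℝ (fun z => Phi (f z).rep) (δ * z)‖ * ∑ k, ‖g (δ * z) k‖ ^ 2)) :=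
                mul_le_mul_of_nonneg_left (mul_le_mul_of_nonneg_left h7 hδ.le) hzn.le
            _ = δ * ‖z‖ * ‖fderiv ℝ (fun z => Phi (f z).rep) (δ * z)‖ *
                (B * ∑ k, ‖g (δ * z) k‖ ^ 2) := by ring
            _ ≤ m2 * (B * ∑ k, ‖g (δ * z) k‖ ^ 2) :=
                mul_le_mul_of_nonneg_right h9 (by positivity)
            _ = _ := by ring
        have e2 : B * B * m2 / m1 * (m1 / B) / ‖z‖ * ∑ k, ‖g (δ * z) k‖ ^ 2 =
            B * m2 * (∑ k, ‖g (δ * z) k‖ ^ 2) / ‖z‖ := by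
          field_simp
        rw [e2, le_div_iff₀ hzn, mul_comm]
        exact e1
    obtain ⟨S, R, κ', -, -, hS1, -, -, hS3, -⟩ := bounded_distortion hX hG hη hZ (B * B * m2 / m1)
    obtain ⟨g, hg, hgf⟩ := hS3 (m1 / B) _ (by positivity) hHB
    by_cases hgc : ∃ z w, g z ≠ g w
    · obtain ⟨z, hz0', hz1, hz2⟩ := h2 δ hδ
      have hzm : z / δ ∈ ball (0 : ℂ) 1 \ {0} := by
        refine ⟨?_, div_ne_zero hz0' hδc⟩
        rw [mem_ball_zero_iff, norm_div, Complex.norm_real, Real.norm_of_nonneg hδ.le,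
          div_lt_one hδ]
        exact hz1
      obtain ⟨w, hw⟩ := hgf _ hzm
      have h3 : (δ : ℂ) * (z / δ) = z := mul_div_cancel₀ z hδc
      simp only [h3] at hw
      rw [habs] at hz2
      apply ne_of_absAt hz2
      rw [hw]
      exact hent g (hS1 g hg).1 hgc w
    · push Not at hgc
      set w : ℂ := ((δ / 2 : ℝ) : ℂ) with hw
      have hwn : ‖w‖ = δ / 2 := by rw [hw, Complex.norm_real, Real.norm_of_nonneg (by positivity)]
      have hw0 : w ≠ 0 := by
        rw [← norm_pos_iff, hwn]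
        positivity
      have hconst : ∀ z : ℂ, z ≠ 0 → ‖z‖ < δ → f z = g 0 := by
        intro z hz hz1
        have hzm : z / δ ∈ ball (0 : ℂ) 1 \ {0} := by
          refine ⟨?_, div_ne_zero hz hδc⟩
          rw [mem_ball_zero_iff, norm_div, Complex.norm_real, Real.norm_of_nonneg hδ.le,
            div_lt_one hδ]
          exact hz1
        obtain ⟨v, hv⟩ := hgf _ hzm
        have h3 : (δ : ℂ) * (z / δ) = z := mul_div_cancel₀ z hδc
        simp only [h3] at hv
        rw [hv]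
        exact hgc v 0
      have hev : (fun z => Phi (f z).rep) =ᶠ[𝓝 w] fun _ => Phi (g 0).rep := by
        have h3 : ∀ᶠ z in 𝓝 w, z ≠ 0 ∧ ‖z‖ < δ :=
          (eventually_ne_nhds hw0).and
            (continuous_norm.continuousAt.eventually_lt_const (by
              change ‖w‖ < δ
              rw [hwn]
              linarith))
        filter_upwards [h3] with z hz
        rw [hconst z hz.1 hz.2]
      have h4 := (hX1 w hw0 (by rw [hwn]; linarith)).1
      rw [hev.fderiv_eq, fderiv_const_apply, norm_zero, mul_zero] at h4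
      linarith
  · push Not at hcase
    obtain ⟨M, hM, hlim⟩ := small_ext (isCompact_TF hX.form) (TF_PM (F := F)) hhol hmT
      (pun_small hT hc hhol hmT (fun a => by
        have := hℓ a
        rwa [hcase a] at this))
    have hext := holP_extend hhol (TF_PM hM) hlim
    refine ⟨_, holTo_of hX.form hext (fun z hz => ?_), fun z hz => ?_⟩
    · by_cases h0 : z = 0
      · rw [h0, Function.update_self]
        exact hM
      · rw [Function.update_of_ne h0]
        exact hmT z ⟨hz, h0⟩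
    · have h0 : z ≠ 0 := hz.2
      simp only [Function.update_of_ne h0, toProj_Phi_rep]

/-- **Symmetric differentials without common zeros.** -/
theorem sym_picard (hX : ProjManifold F d) (hG : ∀ i, IsForm (G i))
    (hη : PositiveTwoForms (Cone F) (Cone G) d η) (hZ : NoBC F G) [Fintype τ] [Nonempty τ]
    (hσ : ∀ a, SymDiff (Cone F) d k (σ a)) (hk : 0 < k) (hn : NoCommonZero (Cone F) d σ) :
    ∃ S : Finset (ℂ → ℙ ℂ (Fin (n + 1) → ℂ)), (∀ g ∈ S, HolIn F g ∧ DoublyPeriodic g) ∧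
      (∀ (f : ℂ → ℙ ℂ (Fin (n + 1) → ℂ)) (B : ℝ), HolIn F f → DerBetween 0 B f →
        (∀ z w, f z = f w) ∨ ∃ g ∈ S, ∃ a b : ℂ, a ≠ 0 ∧ ∀ z, f z = g (a * z + b)) ∧
      ∀ (P : MvPolynomial (Fin (n + 1)) ℂ) (e : ℕ), P.IsHomogeneous e →
        (∀ g ∈ S, ∀ z, eval (g z).rep P = 0) →
        (∀ f : ℂ → ℙ ℂ (Fin (n + 1) → ℂ), HolIn F f → (∃ z w, f z ≠ f w) →
          ∀ z, eval (f z).rep P = 0) ∧
        (∃ A C : ℝ, 0 < A ∧ 0 < C ∧ (∀ x, absAt P e A x ≤ 1) ∧
          ∀ (a : ℂ) (r s : ℝ) (f : ℂ → ℙ ℂ (Fin (n + 1) → ℂ)), HolTo F (ball a r) f → 0 < r →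
            HasSpeed f a s → eval (f a).rep P ≠ 0 →
            (r * s) ^ 2 ≤ C * (1 + Real.log (1 / absAt P e A (f a)))) ∧
        ∀ f : ℂ → ℙ ℂ (Fin (n + 1) → ℂ), HolTo F (ball 0 1 \ {0}) f →
          (∀ z ∈ ball (0 : ℂ) 1 \ {0}, eval (f z).rep P = 0) ∨
          ∃ h : ℂ → ℙ ℂ (Fin (n + 1) → ℂ), HolTo F (ball 0 1) h ∧
            ∀ z ∈ ball (0 : ℂ) 1 \ {0}, h z = f z := by
  classical
  obtain ⟨c, C, hc, hC, hT⟩ := hv_main hX hσ hk hn
  have hT' : Ctl (TF F) (fun a => hv (σ a)) k c C := hT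
  set c0 : ℝ := 2 * min 1 (c / 2 / C) / max 1 (2 * C / c) with hc0
  have hm : 0 < min 1 (c / 2 / C) := lt_min one_pos (by positivity)
  have hM : 0 < max 1 (2 * C / c) := one_pos.trans_le (le_max_left _ _)
  have hc0p : 0 < c0 := by positivity
  have hgw := gw_of hX hG hη
  have hTc := isCompact_TF hX.form
  have hcls := BCw.cls hTc (TF_PM (F := F)) hc0p
  have hout : ∀ c : ℝ, 0 < c → ∀ φ, BCw (TF F) c φ → ∃ z, φ z ∉ TF G :=
    fun c hc φ hφ => hZ.out hX.form hG hc hφ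
  obtain ⟨S, hS1, hS2⟩ := finite_class hgw (hout c0 hc0p) hcls
  refine ⟨S.image fun φ z => toProj (φ z), fun g hg => ?_, fun f B hf hb => ?_,
    fun P e hP hPS => ?_⟩
  · obtain ⟨φ, hφ, rfl⟩ := Finset.mem_image.1 hg
    obtain ⟨p, q, hind, hp, hq⟩ := two_periods hgw (hout c0 hc0p) hcls (hS1 φ hφ)
    have h1 := hS1 φ hφ
    refine ⟨⟨holMap_of h1.hol, fun z => rep_toProj hX.form (h1.mem z)⟩, ?_⟩
    obtain ⟨L, hL⟩ := pair_periods hind hp hq
    exact ⟨L, fun l hl z => by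
      change toProj (φ (z + l)) = toProj (φ z)
      rw [hL l hl z]⟩
  · obtain ⟨B', hB'⟩ := bounded_of_between hf.1 hb
    have hhol := holP_of_map hf.1
    by_cases hcase : ∃ z0, fderiv ℝ (fun z => Phi (f z).rep) z0 ≠ 0
    · right
      obtain ⟨z0, hz0⟩ := hcase
      obtain ⟨ρ, hρ, hmem⟩ := brody_in hT' hc hC hk hhol (fun z => mem_TF (hf.2 z)) hB' hz0
      obtain ⟨g, hg, α, β, hαβ⟩ := hS2 _ hmem
      obtain ⟨hα, -⟩ := hcls.alpha hmem (hS1 g hg) hαβ
      have hα0 : α ≠ 0 := by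
        intro h0
        rw [h0, norm_zero] at hα
        linarith
      have hρc : (ρ : ℂ) ≠ 0 := by exact_mod_cast hρ.ne'
      refine ⟨_, Finset.mem_image_of_mem _ hg, α / ρ, β, div_ne_zero hα0 hρc, fun z => ?_⟩
      have h1 := hαβ (z / ρ)
      rw [N155.aff0 hρ.ne'] at h1
      have h2 : α / ρ * z + β = α * (z / ρ) + β := by ring
      rw [h2, ← h1, toProj_Phi_rep]
    · left
      push Not at hcase
      intro z w
      have h1 : ∀ z, Phi (f z).rep = Phi (f 0).rep := fun z =>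
        zero_fderiv_const (z0 := 0) (ε := ‖z‖ + 1) (fun x _ => hhol.differentiableAt (mem_univ x))
          (fun x _ => hcase x) (by positivity) z (by
            rw [mem_ball_zero_iff]
            linarith)
      exact proj_ext ((h1 z).trans (h1 w).symm)
  · obtain ⟨A, hA, hPA⟩ := form_le hP
    obtain ⟨C1, hsiz⟩ := siz_pf hP hA hPA
    obtain ⟨Cl, hCl, hlip⟩ := pf_lip hP hA
    have habs : ∀ x : ℙ ℂ (Fin (n + 1) → ℂ), pf P e A (Phi x.rep) = absAt P e A x := fun x =>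
      pf_Phi hP A x.rep_nonzero
    obtain ⟨D, hD, hKob⟩ := kob_mat hgw hTc (TF_PM (F := F)) hout hT' hc hC hk hsiz hCl
      (fun M hM Q w hQ => by
        refine hlip M (Q w) (TF_PM hM) (TF_PM (hQ.mem w)) ?_
        obtain ⟨g, hg, α, β, hαβ⟩ := hS2 _ hQ
        have h1 := hPS _ (Finset.mem_image_of_mem _ hg) (α * w + β)
        rw [hαβ w, ← Phi_rep_toProj (TF_PM ((hS1 g hg).mem (α * w + β))), habs]
        unfold absAt
        rw [h1, norm_zero, zero_div])
    -- the estimate for discs, in terms of matrices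
    have hdisc : ∀ (a : ℂ) (r : ℝ) (φ : ℂ → Mat (n + 1)), 0 < r → HolP (ball a r) φ →
        (∀ z ∈ ball a r, φ z ∈ TF F) → 0 < pf P e A (φ a) →
        (r * ‖fderiv ℝ φ a‖) ^ 2 ≤ D * (1 - Real.log (pf P e A (φ a))) := by
      intro a r φ hr hφ hφT hpos
      have haff : ∀ z ∈ ball (0 : ℂ) 1, aff a r z ∈ ball a r := by
        intro z hz
        rw [mem_ball_zero_iff] at hz
        unfold aff
        rw [mem_ball, dist_eq_norm, add_sub_cancel_left, norm_mul, Complex.norm_real,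
          Real.norm_of_nonneg hr.le]
        nlinarith
      have h1 := hKob (fun z => φ (aff a r z)) ((hφ.aff a r).mono haff)
        (fun z hz => hφT _ (haff z hz)) (by simpa only [aff0] using hpos)
      have h2 : ‖fderiv ℝ (fun z => φ (aff a r z)) 0‖ = r * ‖fderiv ℝ φ a‖ := by
        have h3 := norm_fderiv_aff (Ψ := φ) (a := a) (ρ := r) hr.le (z := 0) (by
          rw [QD.aff0]
          exact hφ.differentiableAt (mem_ball_self hr))
        rwa [QD.aff0] at h3
      rw [h2] at h1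
      simpa only [QD.aff0] using h1
    have hent : ∀ f : ℂ → ℙ ℂ (Fin (n + 1) → ℂ), HolIn F f → (∃ z w, f z ≠ f w) →
        ∀ z, eval (f z).rep P = 0 := by
      intro f hf hne z1
      by_contra hcon
      have hhol := holP_of_map hf.1
      have hu1 : 0 < pf P e A (Phi (f z1).rep) := by
        rw [habs]
        unfold absAt
        have h1 := nr_pos (f z1).rep_nonzero
        have h2 := norm_pos_iff.2 hcon
        have h3 : √(∑ k, ‖(f z1).rep k‖ ^ 2) = nr (f z1).rep := rfl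
        rw [h3]
        positivity
      have hev : ∀ᶠ z in 𝓝 z1, 0 < pf P e A (Phi (f z).rep) :=
        (hsiz.cont univ _ hhol z1 (mem_univ _)).eventually_const_lt hu1
      obtain ⟨ε, hε, hε2⟩ := Metric.eventually_nhds_iff.1 hev
      have hz : ∀ z ∈ ball z1 ε, fderiv ℝ (fun z => Phi (f z).rep) z = 0 := by
        intro z hz
        by_contra h0
        have hpos : 0 < ‖fderiv ℝ (fun z => Phi (f z).rep) z‖ := norm_pos_iff.2 h0
        set X : ℝ := D * (1 - Real.log (pf P e A (Phi (f z).rep))) with hX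
        have hX0 : 0 ≤ X := by
          have h1 := Real.log_nonpos (hsiz.nonneg (Phi (f z).rep)) (hsiz.le_one _)
          have : 0 ≤ 1 - Real.log (pf P e A (Phi (f z).rep)) := by linarith
          positivity
        have h1 := hdisc z ((X + 1) / ‖fderiv ℝ (fun z => Phi (f z).rep) z‖) _ (by positivity)
          (hhol.mono fun x _ => mem_univ x) (fun x _ => mem_TF (hf.2 x)) (hε2 hz)
        rw [div_mul_cancel₀ _ hpos.ne'] at h1
        nlinarith
      have hc1 := zero_fderiv_const (fun z _ => hhol.differentiableAt (mem_univ z)) hz hε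
      have hall := holP_ext hhol (holP_const (z0 := z1) hhol) (z0 := z1) (by
        filter_upwards [ball_mem_nhds z1 hε] with z hz
        exact hc1 z hz)
      obtain ⟨z, w, hzw⟩ := hne
      exact hzw (proj_ext ((hall z).trans (hall w).symm))
    refine ⟨hent, ?_, fun f hf => ?_⟩
    · obtain ⟨B, hB, hw⟩ := wedge_fderivOn n
      refine ⟨A, B ^ 2 * D, hA, by positivity, fun x => ?_, fun a r s f hf hr hs hPa => ?_⟩
      · rw [← habs]
        exact hsiz.le_one _
      · obtain ⟨V, g, hV, haV, hg, hfg, hsg⟩ := hs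
        have hhol := holP_of_mapOn hf.1
        have hu1 : 0 < pf P e A (Phi (f a).rep) := by
          rw [habs]
          unfold absAt
          have h1 := nr_pos (f a).rep_nonzero
          have h2 := norm_pos_iff.2 hPa
          have h3 : √(∑ k, ‖(f a).rep k‖ ^ 2) = nr (f a).rep := rfl
          rw [h3]
          positivity
        have h1 := hdisc a r _ hr hhol (fun z hz => mem_TF (hf.2 z hz)) hu1
        obtain ⟨-, h2⟩ := hw f V g hV hg hfg a haV
        have hS := BB.sum_pos (hfg a haV).1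
        rw [← hsg] at h2
        have h3 : s ≤ B * ‖fderiv ℝ (fun z => Phi (f z).rep) a‖ := le_of_mul_le_mul_right h2 hS
        have hs0 : 0 ≤ s := by
          have h4 := BB.wedge_nonneg (g a) (deriv g a)
          rw [← hsg] at h4
          exact nonneg_of_mul_nonneg_left h4 hS
        rw [one_div, Real.log_inv, ← habs, ← sub_eq_add_neg]
        calc (r * s) ^ 2 ≤ (r * (B * ‖fderiv ℝ (fun z => Phi (f z).rep) a‖)) ^ 2 :=
              pow_le_pow_left₀ (by positivity) (mul_le_mul_of_nonneg_left h3 hr.le) 2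
          _ = B ^ 2 * (r * ‖fderiv ℝ (fun z => Phi (f z).rep) a‖) ^ 2 := by ring
          _ ≤ B ^ 2 * (D * (1 - Real.log (pf P e A (Phi (f a).rep)))) :=
              mul_le_mul_of_nonneg_left h1 (by positivity)
          _ = B ^ 2 * D * (1 - Real.log (pf P e A (Phi (f a).rep))) := by ring

    · by_cases hPf : ∀ z ∈ ball (0 : ℂ) 1 \ {0}, eval (f z).rep P = 0
      · exact Or.inl hPf
      · right
        push Not at hPf
        obtain ⟨z0, hz0, hz0P⟩ := hPf
        exact picard hX hG hη hZ hc hC hT' hk hA hsiz habs hD hdisc hent hf hz0 hz0P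

end Pool.Agent.N155.QD
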