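import Pool.Agent.N155.Q.Brd

/-! The size of a form on projective space. -/

set_option autoImplicit false

open Filter Topology Metric Set MvPolynomial LinearAlgebra.Projectivization

namespace Pool.Agent.N155.QD

open Pool.Agent.Y190.OP Pool.Agent.W602.GT Pool.Agent.TH143.GT Pool.Agent.N155
  Pool.Agent.N155.BB Pool.Agent.N155.GD

variable {n : ℕ}

/-- the length of a vector -/
noncomputable def nr (x : Fin (n + 1) → ℂ) : ℝ := √(∑ k, ‖x k‖ ^ 2)

theorem nr_sq (x : Fin (n + 1) → ℂ) : nr x ^ 2 = ∑ k, ‖x k‖ ^ 2 :=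
  Real.sq_sqrt (Finset.sum_nonneg fun _ _ => by positivity)

theorem nr_nonneg (x : Fin (n + 1) → ℂ) : 0 ≤ nr x := Real.sqrt_nonneg _

theorem nr_pos {x : Fin (n + 1) → ℂ} (hx : x ≠ 0) : 0 < nr x := Real.sqrt_pos.2 (BB.sum_pos hx)

theorem le_nr (x : Fin (n + 1) → ℂ) : ‖x‖ ≤ nr x := by
  rw [pi_norm_le_iff_of_nonneg (nr_nonneg x)]
  intro k
  apply Real.le_sqrt_of_sq_le
  exact Finset.single_le_sum (f := fun l => ‖x l‖ ^ 2) (fun _ _ => by positivity)
    (Finset.mem_univ k)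

theorem nr_smul (c : ℂ) (x : Fin (n + 1) → ℂ) : nr (c • x) = ‖c‖ * nr x := by
  unfold nr
  have h1 : ∑ k, ‖(c • x) k‖ ^ 2 = ‖c‖ ^ 2 * ∑ k, ‖x k‖ ^ 2 := by
    rw [Finset.mul_sum]
    refine Finset.sum_congr rfl fun k _ => ?_
    rw [Pi.smul_apply, smul_eq_mul, norm_mul, mul_pow]
  rw [h1, Real.sqrt_mul (by positivity), Real.sqrt_sq (norm_nonneg _)]

/-- the inner product -/
noncomputable def ip (x y : Fin (n + 1) → ℂ) : ℂ := ∑ k, x k * (starRingEnd ℂ) (y k)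

theorem nsq_nr (x : Fin (n + 1) → ℂ) : nsq x = ((nr x ^ 2 : ℝ) : ℂ) := by
  rw [nsq_eq, nr_sq]

/-- Pythagoras -/
theorem pyth {y : Fin (n + 1) → ℂ} (hy : y ≠ 0) (x : Fin (n + 1) → ℂ) :
    ∑ k, ‖x k - ip x y / nsq y * y k‖ ^ 2 = nr x ^ 2 - ‖ip x y‖ ^ 2 / nr y ^ 2 := by
  have hn := nr_pos hy
  have hny : ((nr y ^ 2 : ℝ) : ℂ) ≠ 0 := by
    have := (pow_pos hn 2).ne'
    exact_mod_cast this
  have h1 : ∀ z : ℂ, ((‖z‖ ^ 2 : ℝ) : ℂ) = z * (starRingEnd ℂ) z := fun z => by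
    rw [Complex.mul_conj, Complex.normSq_eq_norm_sq]
  have h2 : (((∑ k, ‖x k - ip x y / nsq y * y k‖ ^ 2 : ℝ)) : ℂ) =
      ((nr x ^ 2 - ‖ip x y‖ ^ 2 / nr y ^ 2 : ℝ) : ℂ) := by
    rw [Complex.ofReal_sum]
    have h3 : ∀ k, ((‖x k - ip x y / nsq y * y k‖ ^ 2 : ℝ) : ℂ) =
        x k * (starRingEnd ℂ) (x k) - (starRingEnd ℂ) (ip x y / nsq y) *
        (x k * (starRingEnd ℂ) (y k)) - ip x y / nsq y *
        (starRingEnd ℂ) (x k * (starRingEnd ℂ) (y k)) +
        ip x y / nsq y * (starRingEnd ℂ) (ip x y / nsq y) * (y k * (starRingEnd ℂ) (y k)) := by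
      intro k
      rw [h1]
      simp only [map_sub, map_mul, Complex.conj_conj]
      ring
    rw [Finset.sum_congr rfl fun k _ => h3 k, Finset.sum_add_distrib, Finset.sum_sub_distrib,
      Finset.sum_sub_distrib, ← Finset.mul_sum, ← Finset.mul_sum, ← Finset.mul_sum, ← map_sum]
    change nsq x - (starRingEnd ℂ) (ip x y / nsq y) * ip x y - ip x y / nsq y *
      (starRingEnd ℂ) (ip x y) + ip x y / nsq y * (starRingEnd ℂ) (ip x y / nsq y) * nsq y = _
    rw [nsq_nr y, nsq_nr x, map_div₀, Complex.conj_ofReal]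
    push_cast
    rw [show ((‖ip x y‖ : ℂ)) ^ 2 = ip x y * (starRingEnd ℂ) (ip x y) by
      rw [← h1]; push_cast; rfl]
    push_cast at hny
    field_simp
    ring
  exact_mod_cast h2

theorem Phi_ip {x y : Fin (n + 1) → ℂ} (hx : x ≠ 0) (k : Fin (n + 1)) :
    x k - ip x y / nsq y * y k = ∑ j, (Phi x k j - Phi y k j) * x j := by
  have hxx := nsq_ne hx
  simp only [sub_mul, Finset.sum_sub_distrib]
  have h1 : ∑ j, Phi x k j * x j = x k := by
    have h1 : ∀ j, Phi x k j * x j = x k / nsq x * (x j * (starRingEnd ℂ) (x j)) := fun j => by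
      unfold Phi
      ring
    rw [Finset.sum_congr rfl fun j _ => h1 j, ← Finset.mul_sum]
    change x k / nsq x * nsq x = x k
    rw [div_mul_cancel₀ _ hxx]
  have h2 : ∑ j, Phi y k j * x j = ip x y / nsq y * y k := by
    have h1 : ∀ j, Phi y k j * x j = y k / nsq y * (x j * (starRingEnd ℂ) (y j)) := fun j => by
      unfold Phi
      ring
    rw [Finset.sum_congr rfl fun j _ => h1 j, ← Finset.mul_sum]
    change y k / nsq y * ip x y = _
    ring
  rw [h1, h2]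

theorem pyth_le {x y : Fin (n + 1) → ℂ} (hx : x ≠ 0) :
    ∑ k, ‖x k - ip x y / nsq y * y k‖ ^ 2 ≤
      ((n : ℝ) + 1) ^ 3 * ‖Phi x - Phi y‖ ^ 2 * nr x ^ 2 := by
  set D : ℝ := ‖Phi x - Phi y‖ with hD
  have hk : ∀ k, ‖x k - ip x y / nsq y * y k‖ ≤ ((n : ℝ) + 1) * (D * nr x) := by
    intro k
    rw [Phi_ip hx]
    refine (norm_sum_le _ _).trans ?_
    refine (Finset.sum_le_card_nsmul _ _ (D * nr x) fun j _ => ?_).trans ?_
    · rw [norm_mul]
      apply mul_le_mul _ ((norm_le_pi_norm x j).trans (le_nr x)) (norm_nonneg _) (norm_nonneg _)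
      exact (norm_le_pi_norm ((Phi x - Phi y) k) j).trans (norm_le_pi_norm (Phi x - Phi y) k)
    · simp
  have h1 : ∀ k, ‖x k - ip x y / nsq y * y k‖ ^ 2 ≤ (((n : ℝ) + 1) * (D * nr x)) ^ 2 := fun k =>
    pow_le_pow_left₀ (norm_nonneg _) (hk k) 2
  refine (Finset.sum_le_card_nsmul _ _ _ fun k _ => h1 k).trans (le_of_eq ?_)
  rw [Finset.card_univ, Fintype.card_fin, nsmul_eq_mul]
  push_cast
  ring

/-- The size of the form `P` of degree `e`, divided by `A`, at a point of projective space (given by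
a matrix). -/
noncomputable def pf (P : MvPolynomial (Fin (n + 1)) ℂ) (e : ℕ) (A : ℝ) (M : Mat (n + 1)) : ℝ := by
  classical
  exact if h : ∃ x : Fin (n + 1) → ℂ, x ≠ 0 ∧ M = Phi x then
    ‖eval h.choose P‖ / (A * nr h.choose ^ e) else 0

theorem pf_Phi {P : MvPolynomial (Fin (n + 1)) ℂ} {e : ℕ} (hP : P.IsHomogeneous e) (A : ℝ)
    {x : Fin (n + 1) → ℂ} (hx : x ≠ 0) : pf P e A (Phi x) = ‖eval x P‖ / (A * nr x ^ e) := by
  have h : ∃ y : Fin (n + 1) → ℂ, y ≠ 0 ∧ Phi x = Phi y := ⟨x, hx, rfl⟩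
  unfold pf
  rw [dif_pos h]
  have key : ∀ y : Fin (n + 1) → ℂ, y ≠ 0 → Phi x = Phi y →
      ‖eval y P‖ / (A * nr y ^ e) = ‖eval x P‖ / (A * nr x ^ e) := by
    intro y h1 h2
    obtain ⟨c, hc, hcx⟩ := Phi_inj h1 hx h2.symm
    rw [hcx, eval_smul hP, nr_smul, norm_mul, norm_pow, mul_pow]
    have hc' : ‖c‖ ^ e ≠ 0 := pow_ne_zero _ (norm_ne_zero_iff.2 hc)
    rw [mul_left_comm, mul_div_mul_left _ _ hc']
  exact key _ h.choose_spec.1 h.choose_spec.2

theorem pf_nonneg (P : MvPolynomial (Fin (n + 1)) ℂ) (e : ℕ) {A : ℝ} (hA : 0 ≤ A)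
    (M : Mat (n + 1)) : 0 ≤ pf P e A M := by
  unfold pf
  split
  · exact div_nonneg (norm_nonneg _) (mul_nonneg hA (pow_nonneg (nr_nonneg _) _))
  · exact le_rfl

/-- the upper bound for forms -/
theorem form_le {P : MvPolynomial (Fin (n + 1)) ℂ} {e : ℕ} (hP : P.IsHomogeneous e) :
    ∃ A : ℝ, 0 < A ∧ ∀ x : Fin (n + 1) → ℂ, ‖eval x P‖ ≤ A * nr x ^ e := by
  refine ⟨∑ m ∈ P.support, ‖coeff m P‖ + 1, by positivity, fun x => ?_⟩
  rw [eval_eq', add_mul, Finset.sum_mul]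
  have h0 : 0 ≤ 1 * nr x ^ e := by
    have := nr_nonneg x
    positivity
  refine (norm_sum_le _ _).trans ((Finset.sum_le_sum fun m hm => ?_).trans (le_add_of_nonneg_right h0))
  rw [norm_mul, norm_prod]
  refine mul_le_mul_of_nonneg_left ?_ (norm_nonneg _)
  have h1 : ∏ i, ‖x i ^ m i‖ ≤ ∏ i, nr x ^ m i := Finset.prod_le_prod (fun _ _ => norm_nonneg _)
    fun i _ => by
      rw [norm_pow]
      exact pow_le_pow_left₀ (norm_nonneg _) ((norm_le_pi_norm x i).trans (le_nr x)) _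
  rw [Finset.prod_pow_eq_pow_sum] at h1
  have h2 : ∑ i, m i = e := by
    have := hP (mem_support_iff.1 hm)
    rw [Finsupp.weight_apply, Finsupp.sum_fintype _ _ (fun i => by simp)] at this
    simpa using this
  rwa [h2] at h1

theorem pf_le_one {P : MvPolynomial (Fin (n + 1)) ℂ} {e : ℕ} {A : ℝ}
    (hA : 0 < A) (hPA : ∀ x : Fin (n + 1) → ℂ, ‖eval x P‖ ≤ A * nr x ^ e) (M : Mat (n + 1)) :
    pf P e A M ≤ 1 := by
  unfold pf
  split
  · rename_i h
    exact div_le_one_of_le₀ (hPA _) (mul_nonneg hA.le (pow_nonneg (nr_nonneg _) _))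
  · exact zero_le_one

/-- the size of the form is continuous along curves -/
theorem pf_cont {P : MvPolynomial (Fin (n + 1)) ℂ} {e : ℕ} (hP : P.IsHomogeneous e) {A : ℝ}
    (hA : 0 < A) {W : Set ℂ} {φ : ℂ → Mat (n + 1)} (hφ : HolP W φ) {z : ℂ} (hz : z ∈ W) :
    ContinuousAt (fun z => pf P e A (φ z)) z := by
  obtain ⟨V, g, hV, hzV, hg, hφg⟩ := hφ z hz
  have h1 : (fun z => pf P e A (φ z)) =ᶠ[𝓝 z] fun z => ‖eval (g z) P‖ / (A * nr (g z) ^ e) := by
    filter_upwards [hV.mem_nhds hzV] with w hw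
    rw [(hφg w hw).2, pf_Phi hP A (hφg w hw).1]
  refine ContinuousAt.congr ?_ h1.symm
  have hgc : ContinuousAt g z := (hg.differentiableAt (hV.mem_nhds hzV)).continuousAt
  have h2 : ContinuousAt (fun z => eval (g z) P) z :=
    (MvPolynomial.continuous_eval P).continuousAt.comp hgc
  have h3 : Continuous (nr (n := n)) := by
    unfold nr
    fun_prop
  refine h2.norm.div ((h3.continuousAt.comp hgc).pow e |>.const_mul A) ?_
  exact mul_ne_zero hA.ne' (pow_ne_zero _ (nr_pos (hφg z hzV).1).ne')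

/-- the size of the form is small near its zeros -/
theorem pf_lip {P : MvPolynomial (Fin (n + 1)) ℂ} {e : ℕ} (hP : P.IsHomogeneous e) {A : ℝ}
    (hA : 0 < A) : ∃ C : ℝ, 0 < C ∧ ∀ M M' : Mat (n + 1), M ∈ PM → M' ∈ PM → pf P e A M' = 0 →
      pf P e A M ≤ C * ‖M - M'‖ := by
  have han := AnalyticOnNhd.eval_mvPolynomial (𝕜 := ℂ) P
  obtain ⟨L, hL⟩ := (isCompact_closedBall (0 : Fin (n + 1) → ℂ) 1).exists_bound_of_continuousOn
    (f := fun x => fderiv ℂ (fun x => eval x P) x) (fun x _ =>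
      ((han x (mem_univ x)).fderiv).continuousAt.continuousWithinAt)
  have hL0 : 0 ≤ L := (norm_nonneg _).trans (hL 0 (mem_closedBall_self zero_le_one))
  have hlip : ∀ x ∈ closedBall (0 : Fin (n + 1) → ℂ) 1, ∀ y ∈ closedBall (0 : Fin (n + 1) → ℂ) 1,
      ‖eval y P - eval x P‖ ≤ L * ‖y - x‖ := fun x hx y hy =>
    (convex_closedBall (0 : Fin (n + 1) → ℂ) 1).norm_image_sub_le_of_norm_fderiv_le (𝕜 := ℂ)
      (f := fun x => eval x P) (fun x _ => (han x (mem_univ x)).differentiableAt) hL hx hy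
  set C : ℝ := (L + 1) * (((n : ℝ) + 1) ^ 3 + 1) / A with hC
  refine ⟨C, by positivity, fun M M' hM hM' h0 => ?_⟩
  obtain ⟨x0, hx0, rfl⟩ := hM
  obtain ⟨y, hy, rfl⟩ := hM'
  -- normalization
  have hn0 := nr_pos hx0
  have hnc : ((nr x0 : ℝ) : ℂ)⁻¹ ≠ 0 := inv_ne_zero (by exact_mod_cast hn0.ne')
  set x : Fin (n + 1) → ℂ := ((nr x0 : ℝ) : ℂ)⁻¹ • x0 with hx
  have hx1 : nr x = 1 := by
    rw [hx, nr_smul, norm_inv, Complex.norm_real, Real.norm_of_nonneg hn0.le]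
    exact inv_mul_cancel₀ hn0.ne'
  have hxne : x ≠ 0 := smul_ne_zero hnc hx0
  have hPx : Phi x0 = Phi x := (Phi_smul hnc x0).symm
  rw [hPx, pf_Phi hP A hxne, hx1, one_pow, mul_one]
  have hPy : eval y P = 0 := by
    rw [pf_Phi hP A hy] at h0
    rcases div_eq_zero_iff.1 h0 with h | h
    · exact norm_eq_zero.1 h
    · exact absurd h (mul_ne_zero hA.ne' (pow_ne_zero _ (nr_pos hy).ne'))
  set t : ℂ := ip x y / nsq y with ht
  have h1 := pyth hy x
  have h2 := pyth_le (y := y) hxne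
  have hty : eval (t • y) P = 0 := by rw [eval_smul hP, hPy, mul_zero]
  have hxt : ‖x - t • y‖ ≤ (((n : ℝ) + 1) ^ 3 + 1) * ‖Phi x - Phi y‖ := by
    rw [pi_norm_le_iff_of_nonneg (by positivity)]
    intro k
    have h3 : ‖x k - t * y k‖ ^ 2 ≤ ((n : ℝ) + 1) ^ 3 * ‖Phi x - Phi y‖ ^ 2 := by
      rw [hx1, one_pow, mul_one] at h2
      exact (Finset.single_le_sum (f := fun k => ‖x k - ip x y / nsq y * y k‖ ^ 2)
        (fun _ _ => by positivity) (Finset.mem_univ k)).trans h2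
    rw [Pi.sub_apply, Pi.smul_apply, smul_eq_mul]
    apply le_of_sq_le_sq _ (by positivity)
    refine h3.trans ?_
    rw [mul_pow]
    refine mul_le_mul_of_nonneg_right ?_ (by positivity)
    have : (0 : ℝ) ≤ ((n : ℝ) + 1) ^ 3 := by positivity
    nlinarith
  have hxb : x ∈ closedBall (0 : Fin (n + 1) → ℂ) 1 := by
    rw [mem_closedBall_zero_iff, ← hx1]
    exact le_nr x
  have htb : t • y ∈ closedBall (0 : Fin (n + 1) → ℂ) 1 := by
    rw [mem_closedBall_zero_iff]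
    refine (le_nr _).trans ?_
    rw [nr_smul, ht, norm_div]
    have h4 : 0 ≤ nr x ^ 2 - ‖ip x y‖ ^ 2 / nr y ^ 2 := by
      rw [← h1]
      exact Finset.sum_nonneg fun _ _ => by positivity
    have h5 := nr_pos hy
    rw [hx1, one_pow, sub_nonneg, div_le_one (by positivity)] at h4
    have h6 : ‖ip x y‖ ≤ nr y := le_of_sq_le_sq h4 h5.le
    rw [nsq_nr, Complex.norm_real, Real.norm_of_nonneg (by positivity)]
    rw [div_mul_eq_mul_div, div_le_one (by positivity)]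
    nlinarith
  have h6 := hlip _ htb _ hxb
  rw [hty, sub_zero] at h6
  rw [hC, div_mul_eq_mul_div, div_le_div_iff_of_pos_right hA]
  calc ‖eval x P‖ ≤ L * ‖x - t • y‖ := h6
    _ ≤ (L + 1) * ((((n : ℝ) + 1) ^ 3 + 1) * ‖Phi x - Phi y‖) :=
      mul_le_mul (by linarith) hxt (norm_nonneg _) (by linarith)
    _ = _ := by ring

end Pool.Agent.N155.QD
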