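import Pool.Agent.N155.B.Sym
import Pool.Agent.N155.G.Res

/-! The values of symmetric differentials on the derivatives of curves on open sets. -/

set_option autoImplicit false

open Filter Topology Metric Set MvPolynomial LinearAlgebra.Projectivization

namespace Pool.Agent.N155.QD

open Pool.Agent.Y190.OP Pool.Agent.W602.GT Pool.Agent.TH143.GT Pool.Agent.N155
  Pool.Agent.N155.BB Pool.Agent.N155.GD

variable {n : ℕ} {ι ι' : Type} {F : ι → MvPolynomial (Fin (n + 1)) ℂ} {d k : ℕ}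
  {σ : (Fin (n + 1) → ℂ) → (Fin (n + 1) → ℂ) → ℂ}

theorem an_chartOn {W : Set ℂ} (hW : IsOpen W) {H : ℂ → Mat (n + 1)} (h : HolP W H)
    (i : Fin (n + 1)) {s : ℂ} (hs : s ∈ W) (hi : H s i i ≠ 0) :
    AnalyticAt ℂ (fun s => chart i (H s)) s := by
  rw [Complex.analyticAt_iff_eventually_differentiableAt]
  have h1 : ∀ᶠ s' in 𝓝 s, H s' i i ≠ 0 := by
    have : ContinuousAt (fun s' => H s' i i) s :=
      (continuous_apply_apply i i).continuousAt.comp (h.continuousAt hs)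
    exact this.eventually_ne hi
  filter_upwards [h1, hW.mem_nhds hs] with s' hs' hs''
  exact h.diff_chart hs'' hs'

theorem deriv_chart_leOn {W : Set ℂ} {H : ℂ → Mat (n + 1)} (h : HolP W H) (i : Fin (n + 1))
    {s : ℂ} (hs : s ∈ W) (hi : H s i i ≠ 0)
    {L B : ℝ} (hL : ‖fderiv ℝ (chart i) (H s)‖ ≤ L) (hB : ‖fderiv ℝ H s‖ ≤ B) :
    ‖deriv (fun s => chart i (H s)) s‖ ≤ L * B := by
  have h1 : HasFDerivAt (fun s => chart i (H s))
      ((fderiv ℂ (fun s => chart i (H s)) s).restrictScalars ℝ) s :=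
    (h.diff_chart hs hi).hasFDerivAt.restrictScalars ℝ
  have h2 : HasFDerivAt (fun s => chart i (H s)) ((fderiv ℝ (chart i) (H s)).comp (fderiv ℝ H s)) s :=
    (((contDiffAt_chart hi).differentiableAt (by norm_num)).hasFDerivAt).comp s
      (h.differentiableAt hs).hasFDerivAt
  have h3 := h1.unique h2
  rw [norm_deriv_eq_norm_fderiv, ← ContinuousLinearMap.norm_restrictScalars (𝕜' := ℝ), h3]
  refine (ContinuousLinearMap.opNorm_comp_le _ _).trans ?_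
  exact mul_le_mul hL hB (norm_nonneg _) ((norm_nonneg _).trans hL)

/-- the local form of the values -/
theorem sv_form (hX : ProjManifold F d) (hσ : SymDiff (Cone F) d k σ) (hk : 0 < k)
    {M0 : Mat (n + 1)} (hM0 : M0 ∈ TF F) : ∃ (O : Set (Mat (n + 1))) (i : Fin (n + 1)) (C : ℝ)
    (J : Fin d → Fin (n + 1)) (V : Set ((Fin d → ℂ) × (Fin d → ℂ)))
    (f : (Fin d → ℂ) × (Fin d → ℂ) → ℂ),
    IsOpen O ∧ M0 ∈ O ∧ (∀ M ∈ O, M i i ≠ 0) ∧ AnalyticOnNhd ℂ f V ∧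
    (∀ M ∈ O, ∀ v, ((fun k => chart i M (J k)), v) ∈ V) ∧
    ∀ (W : Set ℂ) (φ : ℂ → Mat (n + 1)), IsOpen W → HolP W φ → (∀ z ∈ W, φ z ∈ TF F) →
      ∀ t ∈ W, φ t ∈ O →
      sv σ φ i t = f (fun k => chart i (φ t) (J k),
        fun k => deriv (fun s => chart i (φ s)) t (J k)) ∧
      ‖sv σ φ i t‖ ≤ C * ‖fderiv ℝ φ t‖ ^ k := by
  obtain ⟨i, J, O, U, Ψ, hO, hMO, hU, hΨ, hΨX, hloc⟩ := graph_of hX hM0
  obtain ⟨hi0, hU0, -⟩ := hloc M0 hMO
  obtain ⟨L, O1, hL, hO1, hMO1, -, -, hfd⟩ := lip_chart hi0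
  have hF := hσ.hol U Ψ hU hΨ hΨX
  set f : (Fin d → ℂ) × (Fin d → ℂ) → ℂ := fun p => σ (Ψ p.1) (fderiv ℂ Ψ p.1 p.2) with hfdef
  set ξ : Mat (n + 1) → Fin d → ℂ := fun M k => chart i M (J k) with hξ
  have hcξ : ContinuousAt ξ M0 := by
    rw [continuousAt_pi]
    intro k
    exact (continuous_apply (J k)).continuousAt.comp (continuousAt_chart hi0)
  obtain ⟨ε, hε, hεU⟩ := Metric.isOpen_iff.1 hU _ hU0
  have hev1 : ∀ᶠ M in 𝓝 M0, ξ M ∈ closedBall (ξ M0) (ε / 2) :=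
    hcξ.eventually (closedBall_mem_nhds _ (by positivity))
  obtain ⟨O2, hO2s, hO2, hMO2⟩ := _root_.mem_nhds_iff.1 (hev1.and
    (inter_mem (hO.mem_nhds hMO) (hO1.mem_nhds hMO1)))
  have hOi : ∀ M ∈ O2, M i i ≠ 0 := fun M hM => (hloc M (hO2s hM).2.1).1
  have hcomp : IsCompact (closedBall (ξ M0) (ε / 2) ×ˢ closedBall (0 : Fin d → ℂ) 1) :=
    (isCompact_closedBall _ _).prod (isCompact_closedBall _ _)
  have hsubU : closedBall (ξ M0) (ε / 2) ⊆ U :=
    (closedBall_subset_ball (by linarith)).trans hεU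
  obtain ⟨CF, hCF⟩ := hcomp.exists_bound_of_continuousOn (f := f) (fun p hp =>
    (hF p ⟨hsubU hp.1, mem_univ _⟩).continuousAt.continuousWithinAt)
  have hCF0 : 0 ≤ CF := (norm_nonneg _).trans (hCF (ξ M0, 0)
    ⟨mem_closedBall_self (by positivity), mem_closedBall_self zero_le_one⟩)
  have hbound : ∀ z ∈ closedBall (ξ M0) (ε / 2), ∀ w, ‖f (z, w)‖ ≤ CF * ‖w‖ ^ k := by
    intro z hz w
    have hzX := hΨX z (hsubU hz)
    by_cases hw : w = 0
    · have h1 : f (z, w) = 0 := by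
        rw [hfdef, hw]
        simp only [map_zero]
        have h2 := hσ.deg (Ψ z) hzX 0 0
        rwa [smul_zero, zero_pow hk.ne', zero_mul] at h2
      rw [h1, norm_zero]
      positivity
    · have hwn : (‖w‖ : ℂ) ≠ 0 := by
        have := norm_pos_iff.2 hw
        exact_mod_cast this.ne'
      have h1 : w = (‖w‖ : ℂ) • ((‖w‖ : ℂ)⁻¹ • w) := by
        rw [smul_smul, mul_inv_cancel₀ hwn, one_smul]
      have h2 : f (z, w) = (‖w‖ : ℂ) ^ k * f (z, (‖w‖ : ℂ)⁻¹ • w) := by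
        rw [hfdef]
        simp only
        conv_lhs => rw [h1, map_smul]
        exact hσ.deg (Ψ z) hzX _ _
      rw [h2, norm_mul, norm_pow, Complex.norm_real, norm_norm, mul_comm]
      refine mul_le_mul_of_nonneg_right (hCF _ ⟨hz, ?_⟩) (by positivity)
      rw [mem_closedBall_zero_iff, norm_smul, norm_inv, Complex.norm_real, norm_norm]
      exact (inv_mul_cancel₀ (norm_ne_zero_iff.2 hw)).le
  refine ⟨O2, i, CF * L ^ k, J, U ×ˢ univ, f, hO2, hMO2, hOi, hF,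
    fun M hM v => ⟨hsubU (hO2s hM).1, mem_univ _⟩, fun W φ hW hφ hφT t htW ht => ?_⟩
  -- the values are those of `f`
  have facts : sv σ φ i t =
      f (ξ (φ t), fun k => deriv (fun s => chart i (φ s)) t (J k)) := by
    have hit := hOi _ ht
    have hOt := (hO2s ht).2.1
    obtain ⟨-, hUt, ht3⟩ := hloc _ hOt
    have hΨt := ht3 (hφT _ htW)
    have hev : ∀ᶠ s in 𝓝 t, φ s ∈ O := (hφ.continuousAt htW).eventually (hO.mem_nhds hOt)
    have hd := (an_chartOn hW hφ i htW hit).differentiableAt.hasDerivAt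
    have hdξ : HasDerivAt (fun s => ξ (φ s))
        (fun k => deriv (fun s => chart i (φ s)) t (J k)) t :=
      hasDerivAt_pi.2 fun k => (hasDerivAt_pi.1 hd) (J k)
    have f1 : deriv (fun s => chart i (φ s)) t = fderiv ℂ Ψ (ξ (φ t))
        (fun k => deriv (fun s => chart i (φ s)) t (J k)) := by
      have h1 := (hΨ _ hUt).differentiableAt.hasFDerivAt.comp_hasDerivAt t hdξ
      have h2 : (fun s => chart i (φ s)) =ᶠ[𝓝 t] Ψ ∘ fun s => ξ (φ s) := by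
        filter_upwards [hev, hW.mem_nhds htW] with s hs hsW
        exact (hloc _ hs).2.2 (hφT s hsW)
      rw [← h1.deriv, ← h2.deriv_eq]
    unfold sv
    rw [hfdef]
    simp only
    rw [← f1, ← hΨt]
  refine ⟨facts, ?_⟩
  rw [facts]
  refine (hbound _ (hO2s ht).1 _).trans ?_
  rw [mul_assoc, ← mul_pow]
  refine mul_le_mul_of_nonneg_left (pow_le_pow_left₀ (norm_nonneg _) ?_ k) hCF0
  have e1 := deriv_chart_leOn hφ i htW (hOi _ ht) (hfd _ (hO2s ht).2.2) (le_refl ‖fderiv ℝ φ t‖)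
  rw [pi_norm_le_iff_of_nonneg (by positivity)]
  intro k
  exact (norm_le_pi_norm _ (J k)).trans e1

theorem sv_indepOn (hX : ProjManifold F d) (hσ : SymDiff (Cone F) d k σ) {φ : ℂ → Mat (n + 1)}
    {W : Set ℂ} (hW : IsOpen W) (hφ : HolP W φ) (hφT : ∀ z ∈ W, φ z ∈ TF F)
    {i i' : Fin (n + 1)} {t : ℂ} (htW : t ∈ W)
    (hi : φ t i i ≠ 0) (hi' : φ t i' i' ≠ 0) : sv σ φ i' t = sv σ φ i t := by
  have hM := TF_PM (hφT t htW)
  have hx := chart_i'_ne hM hi hi'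
  obtain ⟨f', hf', hfv⟩ := tr_strict hx
  have hev : ∀ j, φ t j j ≠ 0 → ∀ᶠ s in 𝓝 t, φ s j j ≠ 0 := fun j hj =>
    ((continuous_apply_apply (ρ := fun (_ : Fin (n + 1)) (_ : Fin (n + 1)) => ℂ) j
      j).continuousAt.comp (hφ.continuousAt htW)).eventually_ne hj
  have e2 : deriv (fun s => chart i' (φ s)) t = f' (deriv (fun s => chart i (φ s)) t) := by
    have h1 := (an_chartOn hW hφ i htW hi).differentiableAt.hasDerivAt
    have h2 := hf'.hasFDerivAt.comp_hasDerivAt t h1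
    have h3 : (fun s => chart i' (φ s)) =ᶠ[𝓝 t] tr i' ∘ fun s => chart i (φ s) := by
      filter_upwards [hev i hi, hev i' hi', hW.mem_nhds htW] with s hs hs' hsW
      exact chart_tr (TF_PM (hφT s hsW)) hs hs'
    rw [h3.deriv_eq, h2.deriv]
  unfold sv
  rw [e2, hfv, chart_tr hM hi hi']
  unfold tr
  exact hσ.twist _ (chart_cone hX.form (hφT t htW) hi) _ _ _ (inv_ne_zero hx)

open Classical in
/-- the value of a symmetric differential on the derivative of a curve -/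
noncomputable def hv (σ : (Fin (n + 1) → ℂ) → (Fin (n + 1) → ℂ) → ℂ) (φ : ℂ → Mat (n + 1))
    (t : ℂ) : ℂ :=
  if h : ∃ i, φ t i i ≠ 0 then sv σ φ h.choose t else 0

theorem hv_eq (hX : ProjManifold F d) (hσ : SymDiff (Cone F) d k σ) {φ : ℂ → Mat (n + 1)}
    {W : Set ℂ} (hW : IsOpen W) (hφ : HolP W φ) (hφT : ∀ z ∈ W, φ z ∈ TF F)
    {i : Fin (n + 1)} {t : ℂ} (htW : t ∈ W) (hi : φ t i i ≠ 0) : hv σ φ t = sv σ φ i t := by
  have h : ∃ i, φ t i i ≠ 0 := ⟨i, hi⟩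
  unfold hv
  rw [dif_pos h]
  exact sv_indepOn hX hσ hW hφ hφT htW hi h.choose_spec

/-- the values are holomorphic -/
theorem hv_diff (hX : ProjManifold F d) (hσ : SymDiff (Cone F) d k σ) (hk : 0 < k)
    {φ : ℂ → Mat (n + 1)} {W : Set ℂ} (hW : IsOpen W) (hφ : HolP W φ)
    (hφT : ∀ z ∈ W, φ z ∈ TF F) : DifferentiableOn ℂ (hv σ φ) W := by
  intro t ht
  obtain ⟨O, i, C, J, V, f, hO, hMO, hOi, hf, hV, h1⟩ := sv_form hX hσ hk (hφT t ht)
  have hi := hOi _ hMO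
  have hxa : AnalyticAt ℂ (fun t => chart i (φ t)) t := an_chartOn hW hφ i ht hi
  have hτ : AnalyticAt ℂ (fun t => deriv (fun s => chart i (φ s)) t) t := hxa.deriv
  have hτl : AnalyticAt ℂ (fun t k => deriv (fun s => chart i (φ s)) t (J k)) t :=
    analyticAt_pi_iff.2 fun k => (analyticAt_pi_iff.1 hτ) (J k)
  have hξa : AnalyticAt ℂ (fun t k => chart i (φ t) (J k)) t :=
    analyticAt_pi_iff.2 fun k => (analyticAt_pi_iff.1 hxa) (J k)
  have h2 : AnalyticAt ℂ (fun t => f (fun k => chart i (φ t) (J k),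
      fun k => deriv (fun s => chart i (φ s)) t (J k))) t :=
    AnalyticAt.fun_comp (g := f) (hf _ (hV _ hMO _)) (hξa.prod hτl)
  refine (h2.congr ?_).differentiableAt.differentiableWithinAt
  filter_upwards [(hφ.continuousAt ht).eventually (hO.mem_nhds hMO), hW.mem_nhds ht] with t' ht' hW'
  rw [hv_eq hX hσ hW hφ hφT hW' (hOi _ ht')]
  exact (h1 W φ hW hφ hφT t' hW' ht').1.symm

/-- the bound for the values -/
theorem hv_bound (hX : ProjManifold F d) (hσ : SymDiff (Cone F) d k σ) (hk : 0 < k) :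
    ∃ C : ℝ, 0 < C ∧ ∀ (W : Set ℂ) (φ : ℂ → Mat (n + 1)), IsOpen W → HolP W φ →
      (∀ z ∈ W, φ z ∈ TF F) → ∀ t ∈ W, ‖hv σ φ t‖ ≤ C * ‖fderiv ℝ φ t‖ ^ k := by
  have hbd : ∃ C : ℝ, ∀ M ∈ TF F, ∀ (W : Set ℂ) (φ : ℂ → Mat (n + 1)), IsOpen W → HolP W φ →
      (∀ z ∈ W, φ z ∈ TF F) → ∀ t ∈ W, φ t = M → ‖hv σ φ t‖ ≤ C * ‖fderiv ℝ φ t‖ ^ k := by
    refine (isCompact_TF hX.form).induction_on (p := fun s => ∃ C : ℝ, ∀ M ∈ s,
      ∀ (W : Set ℂ) (φ : ℂ → Mat (n + 1)), IsOpen W → HolP W φ →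
      (∀ z ∈ W, φ z ∈ TF F) → ∀ t ∈ W, φ t = M → ‖hv σ φ t‖ ≤ C * ‖fderiv ℝ φ t‖ ^ k) ?_ ?_ ?_ ?_
    · exact ⟨0, fun M hM => absurd hM (notMem_empty _)⟩
    · rintro s s' hss ⟨C, hC⟩
      exact ⟨C, fun M hM => hC M (hss hM)⟩
    · rintro s s' ⟨C, hC⟩ ⟨C', hC'⟩
      refine ⟨max C C', fun M hM W φ hW hφ hφT t ht hi => ?_⟩
      rcases hM with hM | hM
      · exact (hC M hM W φ hW hφ hφT t ht hi).trans
          (mul_le_mul_of_nonneg_right (le_max_left _ _) (by positivity))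
      · exact (hC' M hM W φ hW hφ hφT t ht hi).trans
          (mul_le_mul_of_nonneg_right (le_max_right _ _) (by positivity))
    · intro M hM
      obtain ⟨O, i, C, J, V, f, hO, hMO, hOi, hf, hV, h1⟩ := sv_form hX hσ hk hM
      refine ⟨O, mem_nhdsWithin_of_mem_nhds (hO.mem_nhds hMO), C,
        fun M' hM' W φ hW hφ hφT t ht he => ?_⟩
      have ht' : φ t ∈ O := by rwa [he]
      rw [hv_eq hX hσ hW hφ hφT ht (hOi _ ht')]
      exact (h1 W φ hW hφ hφT t ht ht').2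
  obtain ⟨C, hC⟩ := hbd
  refine ⟨max C 1, by positivity, fun W φ hW hφ hφT t ht => ?_⟩
  exact (hC _ (hφT t ht) W φ hW hφ hφT t ht rfl).trans
    (mul_le_mul_of_nonneg_right (le_max_left _ _) (by positivity))

/-- the values converge -/
theorem hv_tendsto (hX : ProjManifold F d) (hσ : SymDiff (Cone F) d k σ) (hk : 0 < k)
    {l : Filter ℕ} [l.NeBot] {P : ℕ → ℂ → Mat (n + 1)} {H : ℂ → Mat (n + 1)} {r : ℝ} (hr : 0 < r)
    (hP : ∀ᶠ m in l, HolP (ball 0 r) (P m)) (hPT : ∀ᶠ m in l, ∀ z ∈ ball (0 : ℂ) r, P m z ∈ TF F)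
    (hH : HolP (ball 0 r) H) (hHT : ∀ z ∈ ball (0 : ℂ) r, H z ∈ TF F)
    (hc : CConv l (ball 0 r) P H) : Tendsto (fun m => hv σ (P m) 0) l (𝓝 (hv σ H 0)) := by
  have h0 : (0 : ℂ) ∈ ball (0 : ℂ) r := mem_ball_self hr
  obtain ⟨O, i, C, J, V, f, hO, hMO, hOi, hf, hV, h1⟩ := sv_form hX hσ hk (hHT 0 h0)
  have hi := hOi _ hMO
  -- near the point
  have hev := (hc 0 h0).eventually (hO.mem_nhds hMO)
  rw [eventually_prod_iff] at hev
  obtain ⟨pa, hpa, pb, hpb, hab⟩ := hev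
  have hHO : ∀ᶠ w in 𝓝 (0 : ℂ), H w ∈ O := (hH.continuousAt h0).eventually (hO.mem_nhds hMO)
  obtain ⟨W, hWs, hW, h0W⟩ := _root_.mem_nhds_iff.1 (hpb.and
    (hHO.and (isOpen_ball.mem_nhds h0)))
  have hWb : ∀ w ∈ W, w ∈ ball (0 : ℂ) r := fun w hw => (hWs hw).2.2
  have hWO : ∀ w ∈ W, H w ∈ O := fun w hw => (hWs hw).2.1
  have hall : ∀ᶠ m in l, HolP W (P m) ∧ (∀ w ∈ W, P m w ∈ TF F) ∧ ∀ w ∈ W, P m w ∈ O := by
    filter_upwards [hP, hPT, hpa] with m hm1 hm2 hm3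
    exact ⟨hm1.mono hWb, fun w hw => hm2 w (hWb w hw), fun w hw => hab hm3 (hWs hw).1⟩
  have hcj : ∀ j, CConv l W (fun m w => chart i (P m w) j) (fun w => chart i (H w) j) := fun j =>
    CConv.comp (fun w hw => hc w (hWb w hw)) fun w hw =>
      (continuous_apply j).continuousAt.comp (continuousAt_chart (hOi _ (hWO w hw)))
  have hdj : ∀ j, ∃ V ∈ 𝓝 (0 : ℂ), ∀ᶠ m in l,
      DifferentiableOn ℂ (fun w => chart i (P m w) j) V := fun j => by
    refine ⟨W, hW.mem_nhds h0W, ?_⟩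
    filter_upwards [hall] with m hm w hw
    exact (differentiableAt_pi.1 (hm.1.diff_chart hw (hOi _ (hm.2.2 w hw)))
      j).differentiableWithinAt
  have hder : ∀ j, Tendsto (fun m => deriv (fun w => chart i (P m w) j) 0) l
      (𝓝 (deriv (fun w => chart i (H w) j) 0)) := fun j =>
    (Pool.Agent.N155.CConv.an (hcj j) hW h0W (hdj j)).2
  have hval : ∀ j, Tendsto (fun m => chart i (P m 0) j) l (𝓝 (chart i (H 0) j)) := fun j =>
    (hcj j).pointwise h0W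
  have hpi : ∀ (φ : ℂ → Mat (n + 1)), HolP W φ → φ 0 i i ≠ 0 → ∀ j,
      deriv (fun s => chart i (φ s)) 0 j = deriv (fun s => chart i (φ s) j) 0 := by
    intro φ hφ hφi j
    have h2 := (hφ.diff_chart h0W hφi).hasDerivAt
    exact ((hasDerivAt_pi.1 h2) j).deriv.symm
  have hT : Tendsto (fun m => f (fun k => chart i (P m 0) (J k),
      fun k => deriv (fun s => chart i (P m s) (J k)) 0)) l
      (𝓝 (f (fun k => chart i (H 0) (J k), fun k => deriv (fun s => chart i (H s) (J k)) 0))) := by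
    have h3 := (hf _ (hV _ hMO (fun k => deriv (fun s => chart i (H s) (J k)) 0))).continuousAt
    refine h3.tendsto.comp (Tendsto.prodMk_nhds ?_ ?_)
    · exact tendsto_pi_nhds.2 fun k => hval (J k)
    · exact tendsto_pi_nhds.2 fun k => hder (J k)
  have hHW := hH.mono hWb
  have e1 : hv σ H 0 = f (fun k => chart i (H 0) (J k),
      fun k => deriv (fun s => chart i (H s) (J k)) 0) := by
    rw [hv_eq hX hσ hW hHW (fun w hw => hHT w (hWb w hw)) h0W hi,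
      (h1 W H hW hHW (fun w hw => hHT w (hWb w hw)) 0 h0W hMO).1]
    simp only [hpi H hHW hi]
  rw [e1]
  refine hT.congr' ?_
  filter_upwards [hall] with m hm
  have hmi := hOi _ (hm.2.2 0 h0W)
  rw [hv_eq hX hσ hW hm.1 hm.2.1 h0W hmi, (h1 W (P m) hW hm.1 hm.2.1 0 h0W (hm.2.2 0 h0W)).1]
  simp only [hpi (P m) hm.1 hmi]

/-- rescaling -/
theorem hv_aff (hX : ProjManifold F d) (hσ : SymDiff (Cone F) d k σ)
    {φ : ℂ → Mat (n + 1)} {W : Set ℂ} (hW : IsOpen W) (hφ : HolP W φ)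
    (hφT : ∀ z ∈ W, φ z ∈ TF F) {a : ℂ} {ρ : ℝ} {t : ℂ} (ht : aff a ρ t ∈ W) :
    hv σ (fun z => φ (aff a ρ z)) t = (ρ : ℂ) ^ k * hv σ φ (aff a ρ t) := by
  obtain ⟨i, hi⟩ := PM.exists_diag (TF_PM (hφT _ ht))
  have hW' : IsOpen (aff a ρ ⁻¹' W) := hW.preimage (aff_diff a ρ).continuous
  rw [hv_eq hX hσ hW hφ hφT ht hi,
    hv_eq (φ := fun z => φ (aff a ρ z)) hX hσ hW' (hφ.aff a ρ) (fun z hz => hφT _ hz) ht hi]
  have hd := (hφ.diff_chart ht hi).hasDerivAt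
  have ha : HasDerivAt (aff a ρ) (ρ : ℂ) t := by
    have h1 := ((hasDerivAt_id t).const_mul (ρ : ℂ)).const_add a
    rw [mul_one] at h1
    exact h1
  have h2 := hd.scomp t ha
  have h3 : deriv (fun s => chart i (φ (aff a ρ s))) t =
      (ρ : ℂ) • deriv (fun s => chart i (φ s)) (aff a ρ t) := h2.deriv
  unfold sv
  rw [h3]
  exact hσ.deg _ (chart_cone hX.form (hφT _ ht) hi) _ _

end Pool.Agent.N155.QD
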